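import Pool.Agent.OrbPoly.Demi

set_option autoImplicit false

open Set MeasureTheory Filter Topology Module

namespace OrbPoly

/-- Integer adjacency function of the halved 5-cube. -/
def ajZ (g : G) : ℤ := if NN oneG g = 1 then 1 else 0

/-- Adjacency function of the halved 5-cube. -/
noncomputable def aj (g : G) : ℝ := (ajZ g : ℝ)

lemma ajZ_sq : ∀ g g' : G, (∑ h : G, ajZ (mulG (invG h) g) * ajZ (mulG (invG h) g')) =
    if g = g' then 10 else 6 := by
  decide

lemma ajZ_sum : (∑ g : G, ajZ g) = 10 := by decide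

lemma aj_sum : (∑ g : G, aj g) = 10 := by
  have := ajZ_sum
  simp only [aj]
  exact_mod_cast this

lemma aj_sq (g g' : G) : (∑ h : G, aj (mulG (invG h) g) * aj (mulG (invG h) g')) =
    if g = g' then 10 else 6 := by
  have := ajZ_sq g g'
  simp only [aj]
  have h2 : ((∑ h : G, ajZ (mulG (invG h) g) * ajZ (mulG (invG h) g') : ℤ) : ℝ) =
      ((if g = g' then 10 else 6 : ℤ) : ℝ) := by rw [this]
  push_cast at h2
  rw [h2]

lemma qf_aj {u : G → ℝ} (hu : ∑ g, u g = 0) : qf aj u ≤ 2 * ∑ g, u g ^ 2 := by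
  set A : G → ℝ := fun h => ∑ g, aj (mulG (invG h) g) * u g with hA
  have h1 : qf aj u = ∑ h, u h * A h := by
    rw [qf]
    refine Finset.sum_congr rfl fun h _ => ?_
    rw [hA, Finset.mul_sum]
    exact Finset.sum_congr rfl fun g _ => by ring
  have h2 : ∑ h, A h ^ 2 = 4 * ∑ g, u g ^ 2 := by
    have e1 : ∀ h, A h ^ 2 = ∑ g, ∑ g', (u g * u g') *
        (aj (mulG (invG h) g) * aj (mulG (invG h) g')) := by
      intro h
      rw [sq, hA, Finset.sum_mul_sum]
      exact Finset.sum_congr rfl fun g _ => Finset.sum_congr rfl fun g' _ => by ring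
    rw [Finset.sum_congr rfl fun h _ => e1 h, Finset.sum_comm]
    have e2 : ∀ g, ∑ h, ∑ g', (u g * u g') * (aj (mulG (invG h) g) * aj (mulG (invG h) g')) =
        ∑ g', (u g * u g') * (if g = g' then 10 else 6) := by
      intro g
      rw [Finset.sum_comm]
      refine Finset.sum_congr rfl fun g' _ => ?_
      rw [← Finset.mul_sum, aj_sq]
    rw [Finset.sum_congr rfl fun g _ => e2 g]
    have e3 : ∀ g, ∑ g', (u g * u g') * (if g = g' then (10 : ℝ) else 6) =
        6 * (u g * ∑ g', u g') + 4 * u g ^ 2 := by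
      intro g
      have e4 : ∀ g', (u g * u g') * (if g = g' then (10 : ℝ) else 6) =
          6 * (u g * u g') + (if g = g' then 4 * (u g * u g') else 0) := by
        intro g'
        split_ifs <;> ring
      rw [Finset.sum_congr rfl fun g' _ => e4 g', Finset.sum_add_distrib, Finset.sum_ite_eq,
        if_pos (Finset.mem_univ _), ← Finset.mul_sum, ← Finset.mul_sum]
      ring
    rw [Finset.sum_congr rfl fun g _ => e3 g, hu, ← Finset.sum_congr rfl fun g _ => rfl]
    simp only [mul_zero, zero_add]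
    rw [← Finset.mul_sum]
  have h3 : 0 ≤ ∑ h, (A h - 2 * u h) ^ 2 := Finset.sum_nonneg fun h _ => sq_nonneg _
  have h4 : ∑ h, (A h - 2 * u h) ^ 2 = ∑ h, A h ^ 2 - 4 * ∑ h, u h * A h + 4 * ∑ h, u h ^ 2 := by
    rw [Finset.mul_sum, Finset.mul_sum, ← Finset.sum_sub_distrib, ← Finset.sum_add_distrib]
    exact Finset.sum_congr rfl fun h _ => by ring
  rw [h4, h2, ← h1] at h3
  linarith

/-- Perturbation bound. -/
lemma qf_perturb {c : G → ℝ} {C δ : ℝ} (hC : 0 ≤ C) (h : ∀ g, |c g - C * aj g| ≤ δ * aj g)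
    {u : G → ℝ} (hu : ∑ g, u g = 0) :
    qf c u ≤ (2 * C + 10 * δ) * ∑ g, u g ^ 2 := by
  have h1 : qf c u = C * qf aj u + qf (fun g => c g - C * aj g) u := by
    rw [qf, qf, qf, Finset.mul_sum, ← Finset.sum_add_distrib]
    refine Finset.sum_congr rfl fun h _ => ?_
    rw [Finset.mul_sum, ← Finset.sum_add_distrib]
    exact Finset.sum_congr rfl fun g _ => by ring
  have h2 : qf (fun g => c g - C * aj g) u ≤ qf (fun g => δ * aj g) (fun g => |u g|) := by
    rw [qf, qf]
    refine Finset.sum_le_sum fun h' _ => Finset.sum_le_sum fun g _ => ?_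
    refine (le_abs_self _).trans ?_
    rw [abs_mul, abs_mul]
    exact mul_le_mul_of_nonneg_right (mul_le_mul_of_nonneg_left (h _) (abs_nonneg _))
      (abs_nonneg _)
  have h3 : ∀ g, 0 ≤ δ * aj g := fun g => (abs_nonneg _).trans (h g)
  have h4 := qf_le h3 (fun g => |u g|)
  have h5 : ∑ g, δ * aj g = 10 * δ := by
    rw [← Finset.mul_sum, aj_sum]; ring
  rw [h5] at h4
  have h6 : ∑ g, |u g| ^ 2 = ∑ g, u g ^ 2 := Finset.sum_congr rfl fun g _ => sq_abs _
  rw [h6] at h4
  have h7 := mul_le_mul_of_nonneg_left (qf_aj hu) hC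
  rw [h1]
  linarith

end OrbPoly
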