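import Pool.Agent.OrbPoly.Const4

set_option autoImplicit false

open Set

namespace OrbPoly

lemma inner_act_left (g : G) (y v : E 5) :
    inner ℝ (act (invG g) y) v = inner ℝ y (act g v) := by
  have h1 : v = act (invG g) (act g v) := by rw [act_act, invG_mul, act_one]
  conv_lhs => rw [h1]
  exact (actI (invG g)).inner_map_map y (act g v)

lemma inner_act_comp (g h : G) (y w : E 5) :
    inner ℝ (act (invG g) y) (fam w h) = inner ℝ y (fam w (mulG g h)) := by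
  rw [inner_act_left, fam, fam, act_act]

lemma mem_amax_act (g h : G) (w y : E 5) :
    h ∈ amax (fam w) (act (invG g) y) ↔ mulG g h ∈ amax (fam w) y := by
  constructor
  · intro H j
    have := H (mulG (invG g) j)
    rw [inner_act_comp, inner_act_comp, mul_invG_cancel] at this
    exact this
  · intro H j
    rw [inner_act_comp, inner_act_comp]
    exact H _

lemma invG_invG : ∀ g : G, invG (invG g) = g := by decide

/-- Transport of an exposed set between two points of the open cell. -/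
lemma expo_fam_subset {w w' : E 5} (h1 : 0 < w 1) (h2 : w 1 < w 0) (h1' : 0 < w' 1)
    (h2' : w' 1 < w' 0) (hz : w 2 = 0 ∧ w 3 = 0 ∨ ¬ (w' 2 = 0 ∧ w' 3 = 0))
    (hz' : ¬ (w' 2 = 0 ∧ w' 3 = 0) ∨ w 2 = 0 ∧ w 3 = 0)
    (ht : (w 4 = 0 ∧ w' 4 = 0) ∨ (w 4 ≠ 0 ∧ w' 4 ≠ 0)) : expo (fam w) ⊆ expo (fam w') := by
  rintro S ⟨y, rfl⟩
  obtain ⟨g0, hg0⟩ := exists_amax_mem (fam w) y
  set y1 := act (invG g0) y with hy1
  have hone : oneG ∈ amax (fam w) y1 := by
    rw [hy1, mem_amax_act, mulG_one]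
    exact hg0
  -- parameters of the old point
  set n : ℝ := w 0 ^ 2 + w 1 ^ 2 with hn
  have hnpos : 0 < n := by positivity
  set n' : ℝ := w' 0 ^ 2 + w' 1 ^ 2 with hn'
  have hnpos' : 0 < n' := by positivity
  set c : ℝ := (w 0 ^ 2 - w 1 ^ 2) / n with hc
  set s : ℝ := 2 * w 0 * w 1 / n with hs
  set C : ℝ := (w' 0 ^ 2 - w' 1 ^ 2) / n' with hC
  set D : ℝ := 2 * w' 0 * w' 1 / n' with hD
  have h0 : 0 < w 0 := h1.trans h2
  have h0' : 0 < w' 0 := h1'.trans h2'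
  have hcpos : 0 < c := by
    rw [hc]; apply div_pos _ hnpos; nlinarith
  have hspos : 0 < s := by rw [hs]; positivity
  have hCpos : 0 < C := by
    rw [hC]; apply div_pos _ hnpos'; nlinarith
  have hDpos : 0 < D := by rw [hD]; positivity
  have hcs : c ^ 2 + s ^ 2 = 1 := by
    rw [hc, hs]; field_simp; rw [hn]; ring
  have hCD : C ^ 2 + D ^ 2 = 1 := by
    rw [hC, hD]; field_simp; rw [hn']; ring
  set a1 := y1 0 * w 0 + y1 1 * w 1 with ha1
  set a2 := y1 1 * w 0 - y1 0 * w 1 with ha2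
  set k1 := y1 2 * w 2 + y1 3 * w 3 with hk1
  set k2 := y1 3 * w 2 - y1 2 * w 3 with hk2
  have hb1 : y1 0 * w 0 - y1 1 * w 1 = c * a1 - s * a2 := by
    rw [hc, hs, ha1, ha2]; field_simp; rw [hn]; ring
  have hb2 : y1 0 * w 1 + y1 1 * w 0 = s * a1 + c * a2 := by
    rw [hc, hs, ha1, ha2]; field_simp; rw [hn]; ring
  have ham : amax (fam w) y1 = am a1 a2 (c * a1 - s * a2) (s * a1 + c * a2) k1 k2 (y1 4 * w 4) := by
    rw [amax_fam, hb1, hb2]
  -- it suffices to find a functional for the new point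
  have key : ∃ a1' a2' k1' k2' t' : ℝ, (k1 = 0 → k2 = 0 → k1' = 0 ∧ k2' = 0) ∧
      (w' 4 = 0 → t' = 0) ∧
      am a1 a2 (c * a1 - s * a2) (s * a1 + c * a2) k1 k2 (y1 4 * w 4) =
        am a1' a2' (C * a1' - D * a2') (D * a1' + C * a2') k1' k2' t' := by
    have hb : oneG ∈ am a1 a2 (c * a1 - s * a2) (s * a1 + c * a2) k1 k2 (y1 4 * w 4) := by
      rw [← ham]; exact hone
    rcases ht with ⟨t1, t2⟩ | ⟨t1, t2⟩
    · have hb' := hb
      rw [t1, mul_zero] at hb' ⊢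
      obtain ⟨a1', a2', k1', k2', q1, q2⟩ := exists_params0 hcpos hspos hcs hCpos hDpos hCD hb'
      rw [base_mem_iff] at hb'
      exact ⟨a1', a2', k1', k2', 0, q1, fun _ => rfl, am_eq_of_good hb'.1 hb'.2.1 q2⟩
    · obtain ⟨a1', a2', k1', k2', t', q1, q2⟩ := exists_params hcpos hspos hcs hCpos hDpos hCD hb
      rw [base_mem_iff] at hb
      exact ⟨a1', a2', k1', k2', t', q1, fun h => absurd h t2, am_eq_of_good hb.1 hb.2.1 q2⟩
  obtain ⟨a1', a2', k1', k2', t', q1, q2, q3⟩ := key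
  have hy' : ∃ y' : E 5, amax (fam w') y' = amax (fam w) y1 := by
    have hkk : ∃ u v : ℝ, u * w' 2 + v * w' 3 = k1' ∧ v * w' 2 - u * w' 3 = k2' := by
      by_cases hzz : w' 2 = 0 ∧ w' 3 = 0
      · have hw : w 2 = 0 ∧ w 3 = 0 := by tauto
        have := q1 (by rw [hk1, hw.1, hw.2]; ring) (by rw [hk2, hw.1, hw.2]; ring)
        refine ⟨0, 0, ?_, ?_⟩
        · rw [this.1]; ring
        · rw [this.2]; ring
      · have hpos : 0 < w' 2 ^ 2 + w' 3 ^ 2 := by
          rcases not_and_or.1 hzz with h | h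
          · have := sq_pos_of_ne_zero h
            have := sq_nonneg (w' 3)
            linarith
          · have := sq_pos_of_ne_zero h
            have := sq_nonneg (w' 2)
            linarith
        refine ⟨(k1' * w' 2 - k2' * w' 3) / (w' 2 ^ 2 + w' 3 ^ 2),
          (k1' * w' 3 + k2' * w' 2) / (w' 2 ^ 2 + w' 3 ^ 2), ?_, ?_⟩
        · field_simp; ring
        · field_simp; ring
    obtain ⟨u, v, hu, hv⟩ := hkk
    have htt : ∃ r : ℝ, r * w' 4 = t' := by
      by_cases h4 : w' 4 = 0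
      · exact ⟨0, by rw [q2 h4]; ring⟩
      · exact ⟨t' / w' 4, by field_simp⟩
    obtain ⟨r, hr⟩ := htt
    refine ⟨!₂[(a1' * w' 0 - a2' * w' 1) / n', (a1' * w' 1 + a2' * w' 0) / n', u, v, r], ?_⟩
    rw [amax_fam, ham, q3]
    have e1 : (a1' * w' 0 - a2' * w' 1) / n' * w' 0 + (a1' * w' 1 + a2' * w' 0) / n' * w' 1 =
        a1' := by field_simp; rw [hn']; ring
    have e2 : (a1' * w' 1 + a2' * w' 0) / n' * w' 0 - (a1' * w' 0 - a2' * w' 1) / n' * w' 1 =
        a2' := by field_simp; rw [hn']; ring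
    have e3 : (a1' * w' 0 - a2' * w' 1) / n' * w' 0 - (a1' * w' 1 + a2' * w' 0) / n' * w' 1 =
        C * a1' - D * a2' := by rw [hC, hD]; field_simp; ring
    have e4 : (a1' * w' 0 - a2' * w' 1) / n' * w' 1 + (a1' * w' 1 + a2' * w' 0) / n' * w' 0 =
        D * a1' + C * a2' := by rw [hC, hD]; field_simp; ring
    have f0 : (!₂[(a1' * w' 0 - a2' * w' 1) / n', (a1' * w' 1 + a2' * w' 0) / n', u, v, r] : E 5) 0
      = (a1' * w' 0 - a2' * w' 1) / n' := rfl
    have f1 : (!₂[(a1' * w' 0 - a2' * w' 1) / n', (a1' * w' 1 + a2' * w' 0) / n', u, v, r] : E 5) 1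
      = (a1' * w' 1 + a2' * w' 0) / n' := rfl
    have f2 : (!₂[(a1' * w' 0 - a2' * w' 1) / n', (a1' * w' 1 + a2' * w' 0) / n', u, v, r] : E 5) 2
      = u := rfl
    have f3 : (!₂[(a1' * w' 0 - a2' * w' 1) / n', (a1' * w' 1 + a2' * w' 0) / n', u, v, r] : E 5) 3
      = v := rfl
    have f4 : (!₂[(a1' * w' 0 - a2' * w' 1) / n', (a1' * w' 1 + a2' * w' 0) / n', u, v, r] : E 5) 4
      = r := rfl
    rw [f0, f1, f2, f3, f4, e1, e2, e3, e4, hu, hv, hr]
  obtain ⟨y', hy'⟩ := hy'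
  refine ⟨act g0 y', ?_⟩
  ext g
  have r1 : act g0 y' = act (invG (invG g0)) y' := by rw [invG_invG]
  rw [r1, mem_amax_act, hy', hy1, mem_amax_act, mul_invG_cancel]

/-- The family of exposed index sets is constant on the open cell. -/
theorem expo_fam_eq {w w' : E 5} (h1 : 0 < w 1) (h2 : w 1 < w 0) (h1' : 0 < w' 1)
    (h2' : w' 1 < w' 0) (hz : (w 2 = 0 ∧ w 3 = 0) ↔ (w' 2 = 0 ∧ w' 3 = 0))
    (ht : w 4 = 0 ↔ w' 4 = 0) : expo (fam w) = expo (fam w') := by
  refine Subset.antisymm (expo_fam_subset h1 h2 h1' h2' ?_ ?_ ?_)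
    (expo_fam_subset h1' h2' h1 h2 ?_ ?_ ?_) <;> tauto

end OrbPoly
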