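import Pool.Agent.OrbPoly.Vals

set_option autoImplicit false

open Set

namespace OrbPoly

/-! ### Sign lemmas -/

lemma sgn_pp {a b : ℝ} (h : 0 < a) (h' : 0 < b) : SignType.sign b = SignType.sign a := by
  rw [sign_pos h, sign_pos h']

lemma sgn_nn {a b : ℝ} (h : a < 0) (h' : b < 0) : SignType.sign b = SignType.sign a := by
  rw [sign_neg h, sign_neg h']

lemma sgn_zz {a b : ℝ} (h : a = 0) (h' : b = 0) : SignType.sign b = SignType.sign a := by
  rw [h, h']

/-- A representative of a sign. -/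
lemma sgnrep (x : ℝ) : ∃ σ : ℝ, (x = 0 ∧ σ = 0 ∨ x ≠ 0 ∧ |σ| = 1) ∧
    ∀ v > 0, SignType.sign (σ * v) = SignType.sign x := by
  rcases lt_trichotomy x 0 with h | h | h
  · exact ⟨-1, Or.inr ⟨h.ne, by norm_num⟩, fun v hv => sgn_nn h (by linarith)⟩
  · exact ⟨0, Or.inl ⟨h, rfl⟩, fun v _ => by rw [h, zero_mul]⟩
  · exact ⟨1, Or.inr ⟨h.ne', by norm_num⟩, fun v hv => sgn_pp h (by linarith)⟩

/-! ### Geometry of the pair `(c,s)` -/

lemma cs_facts {c s : ℝ} (hc : 0 < c) (hs : 0 < s) (h : c ^ 2 + s ^ 2 = 1) :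
    c < 1 ∧ s < 1 ∧ 1 < c + s := by
  refine ⟨by nlinarith, by nlinarith, by nlinarith [mul_pos hc hs]⟩

lemma Dpos {c s a1 a2 : ℝ} (hc : 0 < c) (hs : 0 < s) (h : c ^ 2 + s ^ 2 = 1) (ha : 0 ≤ a1)
    (hD : |a2| + |c * a1 - s * a2| < a1 + |s * a1 + c * a2|) :
    0 < a1 ∧ 0 < s * a1 + c * a2 ∧ (a2 ≤ 0 → -a2 < a1) ∧
      (c * a1 - s * a2 ≤ 0 → -(c * a1 - s * a2) < s * a1 + c * a2) := by
  obtain ⟨hc1, hs1, hcs⟩ := cs_facts hc hs h
  have key : 0 < a1 ∧ 0 < s * a1 + c * a2 := by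
    rcases le_or_gt 0 a2 with h2 | h2
    · have hb2 : 0 ≤ s * a1 + c * a2 := by positivity
      rw [abs_of_nonneg h2, abs_of_nonneg hb2] at hD
      have ha1 : 0 < a1 := by
        rcases ha.eq_or_lt with h0 | h0
        · exfalso
          rw [← h0] at hD
          have h1 : |c * 0 - s * a2| = s * a2 := by
            rw [mul_zero, zero_sub, abs_neg, abs_of_nonneg (by positivity)]
          rw [h1] at hD
          nlinarith
        · exact h0
      exact ⟨ha1, by nlinarith [mul_pos hs ha1, mul_nonneg hc.le h2]⟩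
    · have hb1 : 0 < c * a1 - s * a2 := by nlinarith [mul_nonneg hc.le ha, mul_pos hs (neg_pos.2 h2)]
      rw [abs_of_neg h2, abs_of_pos hb1] at hD
      have hb2 : 0 < s * a1 + c * a2 := by
        by_contra hle
        push Not at hle
        rw [abs_of_nonpos hle] at hD
        nlinarith [mul_nonneg (by linarith : 0 ≤ c + s - 1) ha,
          mul_pos (by linarith : 0 < 1 + s - c) (neg_pos.2 h2)]
      refine ⟨?_, hb2⟩
      by_contra hle
      push Not at hle
      nlinarith [mul_pos hc (neg_pos.2 h2)]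
  refine ⟨key.1, key.2, ?_, ?_⟩
  · intro h2
    have hb1 : 0 < c * a1 - s * a2 := by
      nlinarith [mul_pos hc key.1, mul_nonneg hs.le (neg_nonneg.2 h2)]
    rw [abs_of_nonpos h2, abs_of_pos hb1, abs_of_pos key.2] at hD
    by_contra hle
    push Not at hle
    nlinarith [mul_pos hc key.1, mul_nonneg (by linarith : 0 ≤ 1 + s + c) (by linarith : 0 ≤ -a2 - a1)]
  · intro hb1
    set b1 := c * a1 - s * a2 with hb1d
    set b2 := s * a1 + c * a2 with hb2d
    have e1 : a1 = c * b1 + s * b2 := by rw [hb1d, hb2d]; linear_combination (-a1) * h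
    have e2 : a2 = -s * b1 + c * b2 := by rw [hb1d, hb2d]; linear_combination (-a2) * h
    have ha2 : 0 < a2 := by
      rw [e2]; nlinarith [mul_pos hc key.2, mul_nonneg hs.le (neg_nonneg.2 hb1)]
    rw [abs_of_pos ha2, abs_of_nonpos hb1, abs_of_pos key.2] at hD
    by_contra hle
    push Not at hle
    nlinarith [mul_pos hc key.2, mul_nonneg (by linarith : 0 ≤ 1 + s + c) (by linarith : 0 ≤ -b1 - b2)]

lemma Dneg {c s a1 a2 : ℝ} (hc : 0 < c) (hs : 0 < s) (h : c ^ 2 + s ^ 2 = 1) (ha : 0 ≤ a1)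
    (hD : a1 + |s * a1 + c * a2| < |a2| + |c * a1 - s * a2|) :
    (0 < a2 ∧ c * a1 - s * a2 < 0 ∧ a1 < a2) ∨ (a2 < 0 ∧ 0 < c * a1 - s * a2) := by
  obtain ⟨hc1, hs1, hcs⟩ := cs_facts hc hs h
  rcases lt_trichotomy a2 0 with h2 | h2 | h2
  · right
    exact ⟨h2, by nlinarith [mul_nonneg hc.le ha, mul_pos hs (neg_pos.2 h2)]⟩
  · exfalso
    rw [h2, mul_zero, mul_zero, add_zero, sub_zero, abs_zero, zero_add,
      abs_of_nonneg (by positivity), abs_of_nonneg (by positivity)] at hD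
    nlinarith
  · left
    have hb2 : 0 < s * a1 + c * a2 := by positivity
    rw [abs_of_pos h2, abs_of_pos hb2] at hD
    have hb1 : c * a1 - s * a2 < 0 := by
      by_contra hle
      push Not at hle
      rw [abs_of_nonneg hle] at hD
      nlinarith [mul_nonneg (by linarith : 0 ≤ 1 + s - c) ha,
        mul_pos (by linarith : 0 < c + s - 1) h2]
    rw [abs_of_neg hb1] at hD
    refine ⟨h2, hb1, ?_⟩
    by_contra hle
    push Not at hle
    nlinarith [mul_pos hc h2, mul_nonneg (by linarith : 0 ≤ 1 + s + c) (by linarith : 0 ≤ a1 - a2)]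

lemma Dzero {c s a1 a2 : ℝ} (hc : 0 < c) (hs : 0 < s) (h : c ^ 2 + s ^ 2 = 1) (ha : 0 ≤ a1)
    (hD : a1 + |s * a1 + c * a2| = |a2| + |c * a1 - s * a2|) :
    (a1 = 0 ∧ a2 = 0) ∨
    (0 < a1 ∧ a2 < 0 ∧ 0 < c * a1 - s * a2 ∧ 0 < s * a1 + c * a2 ∧ -a2 < a1) ∨
    (0 < a1 ∧ 0 < a2 ∧ c * a1 - s * a2 < 0 ∧ 0 < s * a1 + c * a2 ∧ a1 < a2) := by
  obtain ⟨hc1, hs1, hcs⟩ := cs_facts hc hs h
  rcases lt_trichotomy a2 0 with h2 | h2 | h2
  · right; left
    have hb1 : 0 < c * a1 - s * a2 := by nlinarith [mul_nonneg hc.le ha, mul_pos hs (neg_pos.2 h2)]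
    rw [abs_of_neg h2, abs_of_pos hb1] at hD
    have hb2 : 0 < s * a1 + c * a2 := by
      rcases lt_trichotomy (s * a1 + c * a2) 0 with h3 | h3 | h3
      · exfalso
        rw [abs_of_neg h3] at hD
        nlinarith [mul_nonneg (by linarith : 0 ≤ c + s - 1) ha,
          mul_pos (by linarith : 0 < 1 + s - c) (neg_pos.2 h2)]
      · exfalso
        rw [h3, abs_zero] at hD
        -- `a1 (1 - c) = -a2 (1 + s)`, `s a1 = - c a2`
        have e1 : a1 * (1 - c) = -a2 * (1 + s) := by linarith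
        have e2 : a1 * s = -a2 * c := by linarith
        have e3 : -a2 * (c * (1 - c)) = -a2 * (s * (1 + s)) := by
          calc -a2 * (c * (1 - c)) = (-a2 * c) * (1 - c) := by ring
            _ = (a1 * s) * (1 - c) := by rw [e2]
            _ = (a1 * (1 - c)) * s := by ring
            _ = -a2 * (s * (1 + s)) := by rw [e1]; ring
        have e4 : c * (1 - c) = s * (1 + s) := mul_left_cancel₀ (by linarith : -a2 ≠ 0) e3
        nlinarith
      · exact h3
    rw [abs_of_pos hb2] at hD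
    have ha1 : 0 < a1 := by
      by_contra hle
      push Not at hle
      nlinarith [mul_pos hc (neg_pos.2 h2)]
    refine ⟨ha1, h2, hb1, hb2, ?_⟩
    by_contra hle
    push Not at hle
    nlinarith [mul_pos hc ha1, mul_nonneg (by linarith : 0 ≤ 1 + s + c) (by linarith : 0 ≤ -a2 - a1)]
  · left
    rw [h2, mul_zero, mul_zero, add_zero, sub_zero, abs_zero, zero_add,
      abs_of_nonneg (by positivity), abs_of_nonneg (by positivity)] at hD
    refine ⟨?_, h2⟩
    by_contra hne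
    have : 0 < a1 := lt_of_le_of_ne ha (Ne.symm hne)
    nlinarith [mul_pos hs this, mul_pos (by linarith : 0 < 1 - c) this]
  · right; right
    have hb2 : 0 < s * a1 + c * a2 := by positivity
    rw [abs_of_pos h2, abs_of_pos hb2] at hD
    have hb1 : c * a1 - s * a2 < 0 := by
      by_contra hle
      push Not at hle
      rw [abs_of_nonneg hle] at hD
      nlinarith [mul_nonneg (by linarith : 0 ≤ 1 + s - c) ha,
        mul_pos (by linarith : 0 < c + s - 1) h2]
    rw [abs_of_neg hb1] at hD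
    have ha1 : 0 < a1 := by
      by_contra hle
      push Not at hle
      have h0 : a1 = 0 := le_antisymm hle ha
      rw [h0] at hD
      nlinarith
    refine ⟨ha1, h2, hb1, hb2, ?_⟩
    by_contra hle
    push Not at hle
    nlinarith [mul_pos hc h2, mul_nonneg (by linarith : 0 ≤ 1 + s + c) (by linarith : 0 ≤ a1 - a2)]

end OrbPoly
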