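import Pool.Agent.OrbPoly.Const

set_option autoImplicit false

open Set

namespace OrbPoly

/-- Existence of a transported parameter vector. -/
def Ex (C S a1 a2 b1 b2 k1 k2 t : ℝ) : Prop :=
  ∃ a1' a2' k1' k2' t' : ℝ, (k1 = 0 → k2 = 0 → k1' = 0 ∧ k2' = 0) ∧
    Good a1 a2 b1 b2 k1 k2 t a1' a2' (C * a1' - S * a2') (S * a1' + C * a2') k1' k2' t'

section

variable {C S a1 a2 b1 b2 k1 k2 t : ℝ} (hC : 0 < C) (hS : 0 < S) (hCS : C ^ 2 + S ^ 2 = 1)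
  (ha : 0 ≤ a1) (hk : 0 ≤ k1)

include hC hS hCS ha hk

lemma case1 (h2 : |a2| + |k2| < a1 + k1) (h3 : |b1| < a1 + 2 * t)
    (h4 : |b2| + |k2| < a1 + k1 + 2 * t) : Ex C S a1 a2 b1 b2 k1 k2 t := by
  obtain ⟨hC1, hS1, hCS1⟩ := cs_facts hC hS hCS
  rcases ha.eq_or_lt with ha0 | ha0 <;> rcases hk.eq_or_lt with hk0 | hk0
  · exfalso
    linarith [abs_nonneg a2, abs_nonneg k2]
  · refine ⟨0, 0, 1, 0, 1, fun h => absurd h hk0.ne', sgn_zz ha0.symm rfl, sgn_pp hk0 one_pos,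
      Or.inl ⟨h2, ?_⟩, Or.inl ⟨h3, ?_⟩, Or.inl ⟨h4, ?_⟩⟩ <;> norm_num
  · refine ⟨1, 0, 0, 0, 1, fun _ _ => ⟨rfl, rfl⟩, sgn_pp ha0 one_pos, sgn_zz hk0.symm rfl,
      Or.inl ⟨h2, ?_⟩, Or.inl ⟨h3, ?_⟩, Or.inl ⟨h4, ?_⟩⟩
    · norm_num
    · rw [mul_zero, mul_one, sub_zero, abs_of_pos hC]; linarith
    · rw [mul_zero, mul_one, add_zero, abs_of_pos hS, abs_zero]; linarith
  · refine ⟨1, 0, 1, 0, 1, fun h => absurd h hk0.ne', sgn_pp ha0 one_pos, sgn_pp hk0 one_pos,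
      Or.inl ⟨h2, ?_⟩, Or.inl ⟨h3, ?_⟩, Or.inl ⟨h4, ?_⟩⟩
    · norm_num
    · rw [mul_zero, mul_one, sub_zero, abs_of_pos hC]; linarith
    · rw [mul_zero, mul_one, add_zero, abs_of_pos hS, abs_zero]; linarith

omit ha hk in
lemma bnd4 {x y : ℝ} (hx : |x| ≤ 2) (hy : |y| ≤ 2) :
    |C * x - S * y| ≤ 4 ∧ |S * x + C * y| ≤ 4 := by
  obtain ⟨hC1, hS1, hCS1⟩ := cs_facts hC hS hCS
  constructor
  · refine (abs_sub _ _).trans ?_
    rw [abs_mul, abs_mul, abs_of_pos hC, abs_of_pos hS]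
    nlinarith [abs_nonneg x, abs_nonneg y]
  · refine (abs_add_le _ _).trans ?_
    rw [abs_mul, abs_mul, abs_of_pos hC, abs_of_pos hS]
    nlinarith [abs_nonneg x, abs_nonneg y]

omit ha hk in
/-- Witness for the class pair `A1, A2`. -/
lemma case2_aux {x y u v : ℝ} (hx0 : 0 ≤ x) (hx : x ≤ 2) (hy : |y| ≤ 2) (hu0 : 0 ≤ u) (hv : |v| ≤ 2)
    (hxu : x + u = 2) (hyv : |y| + |v| = 2)
    (s1 : SignType.sign x = SignType.sign a1) (s2 : SignType.sign u = SignType.sign k1)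
    (s3 : SignType.sign y = SignType.sign a2) (s4 : SignType.sign v = SignType.sign k2)
    (hz : k1 = 0 → k2 = 0 → u = 0 ∧ v = 0)
    (h2 : |a2| + |k2| = a1 + k1) (h3 : |b1| < a1 + 2 * t)
    (h4 : |b2| + |k2| < a1 + k1 + 2 * t) : Ex C S a1 a2 b1 b2 k1 k2 t := by
  obtain ⟨e1, e2⟩ := bnd4 hC hS hCS (abs_le.2 ⟨by linarith, hx⟩ : |x| ≤ 2) hy
  refine ⟨x, y, u, v, 10, hz, s1, s2, Or.inr ⟨h2, ?_, s3, s4⟩, Or.inl ⟨h3, ?_⟩, Or.inl ⟨h4, ?_⟩⟩
  · linarith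
  · linarith
  · linarith

lemma case2 (h2 : |a2| + |k2| = a1 + k1) (h3 : |b1| < a1 + 2 * t)
    (h4 : |b2| + |k2| < a1 + k1 + 2 * t) : Ex C S a1 a2 b1 b2 k1 k2 t := by
  obtain ⟨σ, hσ, hσs⟩ := sgnrep a2
  obtain ⟨ρ, hρ, hρs⟩ := sgnrep k2
  have hσ1 := hσs 1 one_pos
  have hσ2 := hσs 2 two_pos
  have hρ1 := hρs 1 one_pos
  have hρ2 := hρs 2 two_pos
  rw [mul_one] at hσ1 hρ1
  rcases ha.eq_or_lt with ha0 | ha0 <;> rcases hk.eq_or_lt with hk0 | hk0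
  · -- everything vanishes
    have h5 : a2 = 0 := by
      have := abs_nonneg k2; have := abs_nonneg a2
      exact abs_eq_zero.1 (by linarith)
    have h6 : k2 = 0 := by
      have := abs_nonneg k2; have := abs_nonneg a2
      exact abs_eq_zero.1 (by linarith)
    refine ⟨0, 0, 0, 0, 1, fun _ _ => ⟨rfl, rfl⟩, sgn_zz ha0.symm rfl, sgn_zz hk0.symm rfl,
      Or.inr ⟨h2, ?_, sgn_zz h5 rfl, sgn_zz h6 rfl⟩, Or.inl ⟨h3, ?_⟩, Or.inl ⟨h4, ?_⟩⟩ <;> norm_num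
  · rcases hσ with ⟨h5, h5'⟩ | ⟨h5, h5'⟩ <;> rcases hρ with ⟨h6, h6'⟩ | ⟨h6, h6'⟩
    · exfalso
      rw [h5, h6, abs_zero] at h2; linarith
    · exact case2_aux hC hS hCS (x := 0) (y := 0) (u := 2) (v := ρ * 2) le_rfl (by norm_num)
        (by norm_num) (by norm_num) (by rw [abs_mul, h6']; norm_num) (by norm_num)
        (by rw [abs_mul, h6']; norm_num) (sgn_zz ha0.symm rfl) (sgn_pp hk0 two_pos)
        (sgn_zz h5 rfl) hρ2 (fun h => absurd h hk0.ne') h2 h3 h4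
    · exact case2_aux hC hS hCS (x := 0) (y := σ * 2) (u := 2) (v := 0) le_rfl (by norm_num)
        (by rw [abs_mul, h5']; norm_num) (by norm_num) (by norm_num) (by norm_num)
        (by rw [abs_mul, h5']; norm_num) (sgn_zz ha0.symm rfl) (sgn_pp hk0 two_pos)
        hσ2 (sgn_zz h6 rfl) (fun h => absurd h hk0.ne') h2 h3 h4
    · exact case2_aux hC hS hCS (x := 0) (y := σ) (u := 2) (v := ρ) le_rfl (by norm_num)
        (by rw [h5']; norm_num) (by norm_num) (by rw [h6']; norm_num) (by norm_num)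
        (by rw [h5', h6']; norm_num) (sgn_zz ha0.symm rfl) (sgn_pp hk0 two_pos)
        hσ1 hρ1 (fun h => absurd h hk0.ne') h2 h3 h4
  · rcases hσ with ⟨h5, h5'⟩ | ⟨h5, h5'⟩ <;> rcases hρ with ⟨h6, h6'⟩ | ⟨h6, h6'⟩
    · exfalso
      rw [h5, h6, abs_zero] at h2; linarith
    · exact case2_aux hC hS hCS (x := 2) (y := 0) (u := 0) (v := ρ * 2) (by norm_num) (by norm_num)
        (by norm_num) (by norm_num) (by rw [abs_mul, h6']; norm_num) (by norm_num)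
        (by rw [abs_mul, h6']; norm_num) (sgn_pp ha0 two_pos) (sgn_zz hk0.symm rfl)
        (sgn_zz h5 rfl) hρ2 (fun _ h => absurd h h6) h2 h3 h4
    · exact case2_aux hC hS hCS (x := 2) (y := σ * 2) (u := 0) (v := 0) (by norm_num) (by norm_num)
        (by rw [abs_mul, h5']; norm_num) (by norm_num) (by norm_num) (by norm_num)
        (by rw [abs_mul, h5']; norm_num) (sgn_pp ha0 two_pos) (sgn_zz hk0.symm rfl)
        hσ2 (sgn_zz h6 rfl) (fun _ _ => ⟨rfl, rfl⟩) h2 h3 h4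
    · exact case2_aux hC hS hCS (x := 2) (y := σ) (u := 0) (v := ρ) (by norm_num) (by norm_num)
        (by rw [h5']; norm_num) (by norm_num) (by rw [h6']; norm_num) (by norm_num)
        (by rw [h5', h6']; norm_num) (sgn_pp ha0 two_pos) (sgn_zz hk0.symm rfl)
        hσ1 hρ1 (fun _ h => absurd h h6) h2 h3 h4
  · rcases hσ with ⟨h5, h5'⟩ | ⟨h5, h5'⟩ <;> rcases hρ with ⟨h6, h6'⟩ | ⟨h6, h6'⟩
    · exfalso
      rw [h5, h6, abs_zero] at h2; linarith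
    · exact case2_aux hC hS hCS (x := 1) (y := 0) (u := 1) (v := ρ * 2) (by norm_num) (by norm_num)
        (by norm_num) (by norm_num) (by rw [abs_mul, h6']; norm_num) (by norm_num)
        (by rw [abs_mul, h6']; norm_num) (sgn_pp ha0 one_pos) (sgn_pp hk0 one_pos)
        (sgn_zz h5 rfl) hρ2 (fun h => absurd h hk0.ne') h2 h3 h4
    · exact case2_aux hC hS hCS (x := 1) (y := σ * 2) (u := 1) (v := 0) (by norm_num) (by norm_num)
        (by rw [abs_mul, h5']; norm_num) (by norm_num) (by norm_num) (by norm_num)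
        (by rw [abs_mul, h5']; norm_num) (sgn_pp ha0 one_pos) (sgn_pp hk0 one_pos)
        hσ2 (sgn_zz h6 rfl) (fun h => absurd h hk0.ne') h2 h3 h4
    · exact case2_aux hC hS hCS (x := 1) (y := σ) (u := 1) (v := ρ) (by norm_num) (by norm_num)
        (by rw [h5']; norm_num) (by norm_num) (by rw [h6']; norm_num) (by norm_num)
        (by rw [h5', h6']; norm_num) (sgn_pp ha0 one_pos) (sgn_pp hk0 one_pos)
        hσ1 hρ1 (fun h => absurd h hk0.ne') h2 h3 h4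

omit ha hk in
/-- Witness for the class pair `A1, B1`, with `κ₁ > 0`. -/
lemma case3_aux {x y : ℝ} (hx0 : 0 ≤ x) (hx : x ≤ 2) (hy : |y| ≤ 2)
    (s1 : SignType.sign x = SignType.sign a1) (hk0 : 0 < k1)
    (s3 : SignType.sign (C * x - S * y) = SignType.sign b1)
    (h2 : |a2| + |k2| < a1 + k1) (h3 : |b1| = a1 + 2 * t)
    (h4 : |b2| + |k2| < a1 + k1 + 2 * t) : Ex C S a1 a2 b1 b2 k1 k2 t := by
  obtain ⟨e1, e2⟩ := bnd4 hC hS hCS (abs_le.2 ⟨by linarith, hx⟩ : |x| ≤ 2) hy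
  refine ⟨x, y, 5, 0, (|C * x - S * y| - x) / 2, fun h => absurd h hk0.ne', s1,
    sgn_pp hk0 (by norm_num), Or.inl ⟨h2, ?_⟩, Or.inr ⟨h3, ?_, s3⟩, Or.inl ⟨h4, ?_⟩⟩
  · rw [abs_zero]; linarith
  · ring
  · rw [abs_zero]; linarith [abs_nonneg (C * x - S * y)]

lemma case3 (h2 : |a2| + |k2| < a1 + k1) (h3 : |b1| = a1 + 2 * t)
    (h4 : |b2| + |k2| < a1 + k1 + 2 * t)
    (hb : k1 = 0 → 0 < a1 → |a2| < a1 → |b2| < |b1| → 0 < b1) :
    Ex C S a1 a2 b1 b2 k1 k2 t := by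
  obtain ⟨hC1, hS1, hCS1⟩ := cs_facts hC hS hCS
  rcases hk.eq_or_lt with hk0 | hk0
  · have ha0 : 0 < a1 := by linarith [abs_nonneg a2, abs_nonneg k2]
    have hb1 : 0 < b1 := by
      refine hb hk0.symm ha0 (by linarith [abs_nonneg k2]) ?_
      linarith [abs_nonneg k2]
    have e1 : C * (1 + C) - S * (-S) = 1 + C := by linear_combination hCS
    have e2 : S * (1 + C) + C * (-S) = S := by ring
    refine ⟨1 + C, -S, 0, 0, 0, fun _ _ => ⟨rfl, rfl⟩, sgn_pp ha0 (by linarith),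
      sgn_zz hk0.symm rfl, Or.inl ⟨h2, ?_⟩, Or.inr ⟨h3, ?_, ?_⟩, Or.inl ⟨h4, ?_⟩⟩
    · rw [abs_neg, abs_of_pos hS, abs_zero]; linarith
    · rw [e1, abs_of_pos (by linarith)]; ring
    · rw [e1]; exact sgn_pp hb1 (by linarith)
    · rw [e2, abs_of_pos hS, abs_zero]; linarith
  · rcases ha.eq_or_lt with ha0 | ha0
    · rcases lt_trichotomy b1 0 with hb1 | hb1 | hb1
      · exact case3_aux hC hS hCS (x := 0) (y := 1) le_rfl (by norm_num) (by norm_num)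
          (sgn_zz ha0.symm rfl) hk0 (sgn_nn hb1 (by linarith)) h2 h3 h4
      · exact case3_aux hC hS hCS (x := 0) (y := 0) le_rfl (by norm_num) (by norm_num)
          (sgn_zz ha0.symm rfl) hk0 (sgn_zz hb1 (by ring)) h2 h3 h4
      · exact case3_aux hC hS hCS (x := 0) (y := -1) le_rfl (by norm_num) (by norm_num)
          (sgn_zz ha0.symm rfl) hk0 (sgn_pp hb1 (by linarith)) h2 h3 h4
    · rcases lt_trichotomy b1 0 with hb1 | hb1 | hb1
      · refine case3_aux hC hS hCS (x := S) (y := 2 * C) hS.le (by linarith) ?_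
          (sgn_pp ha0 hS) hk0 (sgn_nn hb1 ?_) h2 h3 h4
        · rw [abs_of_pos (by positivity)]; linarith
        · nlinarith [mul_pos hC hS]
      · refine case3_aux hC hS hCS (x := S) (y := C) hS.le (by linarith) ?_
          (sgn_pp ha0 hS) hk0 (sgn_zz hb1 (by ring)) h2 h3 h4
        rw [abs_of_pos hC]; linarith
      · exact case3_aux hC hS hCS (x := 1) (y := 0) (by norm_num) (by norm_num) (by norm_num)
          (sgn_pp ha0 one_pos) hk0 (sgn_pp hb1 (by linarith)) h2 h3 h4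

lemma case4 (h2 : |a2| + |k2| < a1 + k1) (h3 : |b1| < a1 + 2 * t)
    (h4 : |b2| + |k2| = a1 + k1 + 2 * t) (ha0 : 0 < a1) (hb2 : 0 < b2) :
    Ex C S a1 a2 b1 b2 k1 k2 t := by
  obtain ⟨hC1, hS1, hCS1⟩ := cs_facts hC hS hCS
  obtain ⟨ρ, hρ, hρs⟩ := sgnrep k2
  have e1 : C * (1 + S) - S * C = C := by ring
  have e2 : S * (1 + S) + C * C = 1 + S := by linear_combination hCS
  have hpos : (0 : ℝ) < 1 + S := by linarith
  rcases hk.eq_or_lt with hk0 | hk0 <;> rcases hρ with ⟨h6, h6'⟩ | ⟨h6, h6'⟩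
  · refine ⟨1 + S, C, 0, 0, 0, fun _ _ => ⟨rfl, rfl⟩, sgn_pp ha0 hpos,
      sgn_zz hk0.symm rfl, Or.inl ⟨h2, ?_⟩, Or.inl ⟨h3, ?_⟩, Or.inr ⟨h4, ?_, ?_, sgn_zz h6 rfl⟩⟩
    · rw [abs_of_pos hC, abs_zero]; linarith
    · rw [e1, abs_of_pos hC]; linarith
    · rw [e2, abs_of_pos hpos, abs_zero]; ring
    · rw [e2]; exact sgn_pp hb2 hpos
  · refine ⟨1 + S, C, 0, ρ * (S / 2), S / 4, fun _ h => absurd h h6, sgn_pp ha0 hpos,
      sgn_zz hk0.symm rfl, Or.inl ⟨h2, ?_⟩, Or.inl ⟨h3, ?_⟩,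
      Or.inr ⟨h4, ?_, ?_, hρs _ (by positivity)⟩⟩
    · rw [abs_of_pos hC, abs_mul, h6', abs_of_pos (by positivity)]; linarith
    · rw [e1, abs_of_pos hC]; linarith
    · rw [e2, abs_of_pos hpos, abs_mul, h6', abs_of_pos (by positivity)]; ring
    · rw [e2]; exact sgn_pp hb2 hpos
  · refine ⟨1 + S, C, S / 2, 0, -(S / 4), fun h => absurd h hk0.ne', sgn_pp ha0 hpos,
      sgn_pp hk0 (by positivity), Or.inl ⟨h2, ?_⟩, Or.inl ⟨h3, ?_⟩,
      Or.inr ⟨h4, ?_, ?_, sgn_zz h6 rfl⟩⟩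
    · rw [abs_of_pos hC, abs_zero]; linarith
    · rw [e1, abs_of_pos hC]; linarith
    · rw [e2, abs_of_pos hpos, abs_zero]; ring
    · rw [e2]; exact sgn_pp hb2 hpos
  · refine ⟨1 + S, C, 1, ρ * 1, 0, fun h => absurd h hk0.ne', sgn_pp ha0 hpos,
      sgn_pp hk0 one_pos, Or.inl ⟨h2, ?_⟩, Or.inl ⟨h3, ?_⟩,
      Or.inr ⟨h4, ?_, ?_, hρs _ one_pos⟩⟩
    · rw [abs_of_pos hC, mul_one, h6']; linarith
    · rw [e1, abs_of_pos hC]; linarith
    · rw [e2, abs_of_pos hpos, mul_one, h6']; ring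
    · rw [e2]; exact sgn_pp hb2 hpos

end

end OrbPoly
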