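import Pool.Agent.OrbPoly.Const2

set_option autoImplicit false

open Set

namespace OrbPoly

section

variable {C S a1 a2 b1 b2 k1 k2 t : ℝ} (hC : 0 < C) (hS : 0 < S) (hCS : C ^ 2 + S ^ 2 = 1)
  (ha : 0 ≤ a1) (hk : 0 ≤ k1)

include hC hS hCS

/-- Witness for the classes `A1, A2, B1` (with `B2` inactive). -/
lemma case5_aux {x y u v : ℝ}
    (s1 : SignType.sign x = SignType.sign a1) (s2 : SignType.sign u = SignType.sign k1)
    (s3 : SignType.sign y = SignType.sign a2) (s4 : SignType.sign v = SignType.sign k2)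
    (s5 : SignType.sign (C * x - S * y) = SignType.sign b1)
    (hz : k1 = 0 → k2 = 0 → u = 0 ∧ v = 0)
    (e1 : |y| + |v| = x + u)
    (e2 : |S * x + C * y| + |v| < u + |C * x - S * y|)
    (h2 : |a2| + |k2| = a1 + k1) (h3 : |b1| = a1 + 2 * t)
    (h4 : |b2| + |k2| < a1 + k1 + 2 * t) : Ex C S a1 a2 b1 b2 k1 k2 t := by
  refine ⟨x, y, u, v, (|C * x - S * y| - x) / 2, hz, s1, s2, Or.inr ⟨h2, e1, s3, s4⟩,
    Or.inr ⟨h3, ?_, s5⟩, Or.inl ⟨h4, ?_⟩⟩
  · ring
  · linarith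

include ha hk

lemma case5 (hD : (0 < a2 ∧ b1 < 0 ∧ a1 < a2) ∨ (a2 < 0 ∧ 0 < b1))
    (h2 : |a2| + |k2| = a1 + k1) (h3 : |b1| = a1 + 2 * t)
    (h4 : |b2| + |k2| < a1 + k1 + 2 * t) : Ex C S a1 a2 b1 b2 k1 k2 t := by
  obtain ⟨hC1, hS1, hCS1⟩ := cs_facts hC hS hCS
  obtain ⟨ρ, hρ, hρs⟩ := sgnrep k2
  have hρ1 := hρs 1 one_pos
  rw [mul_one] at hρ1
  have hρ0 : 0 ≤ |ρ| := abs_nonneg _
  have hk2 : 0 ≤ |k2| := abs_nonneg _
  rcases hD with ⟨p1, p2, p3⟩ | ⟨p1, p2⟩
  · rw [abs_of_pos p1] at h2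
    have hk0 : 0 < k1 := by linarith
    rcases ha.eq_or_lt with ha0 | ha0
    · refine case5_aux hC hS hCS (x := 0) (y := 1) (u := 1 + |ρ|) (v := ρ) (sgn_zz ha0.symm rfl)
        (sgn_pp hk0 (by linarith)) (sgn_pp p1 one_pos) hρ1 (sgn_nn p2 (by linarith))
        (fun h => absurd h hk0.ne') ?_ ?_ (by rw [abs_of_pos p1]; exact h2) h3 h4
      · norm_num
      · rw [mul_zero, mul_zero, mul_one, mul_one, zero_sub, zero_add, abs_neg, abs_of_pos hS,
          abs_of_pos hC]; linarith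
    · have q1 : C * (S / 4) - S * 1 < 0 := by nlinarith [mul_pos hC hS]
      have q2 : 0 < S * (S / 4) + C * 1 := by positivity
      refine case5_aux hC hS hCS (x := S / 4) (y := 1) (u := 1 - S / 4 + |ρ|) (v := ρ)
        (sgn_pp ha0 (by linarith)) (sgn_pp hk0 (by linarith)) (sgn_pp p1 one_pos) hρ1
        (sgn_nn p2 q1) (fun h => absurd h hk0.ne') ?_ ?_ (by rw [abs_of_pos p1]; exact h2) h3 h4
      · rw [abs_one]; ring
      · rw [abs_of_neg q1, abs_of_pos q2]; nlinarith [mul_pos hC hS]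
  · rw [abs_of_neg p1] at h2
    rcases ha.eq_or_lt with ha0 | ha0
    · have hk0 : 0 < k1 := by linarith
      refine case5_aux hC hS hCS (x := 0) (y := -1) (u := 1 + |ρ|) (v := ρ) (sgn_zz ha0.symm rfl)
        (sgn_pp hk0 (by linarith)) (sgn_nn p1 (by norm_num)) hρ1 (sgn_pp p2 (by linarith))
        (fun h => absurd h hk0.ne') ?_ ?_ (by rw [abs_of_neg p1]; exact h2) h3 h4
      · norm_num
      · have e1 : S * 0 + C * (-1) = -C := by ring
        have e2 : C * 0 - S * (-1) = S := by ring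
        rw [e1, e2, abs_neg, abs_of_pos hS, abs_of_pos hC]; linarith
    · have h2' : |a2| + |k2| = a1 + k1 := by rw [abs_of_neg p1]; exact h2
      rcases hk.eq_or_lt with hk0 | hk0 <;> rcases hρ with ⟨h6, h6'⟩ | ⟨h6, h6'⟩
      · refine case5_aux hC hS hCS (x := 1) (y := -1) (u := 0) (v := 0)
          (sgn_pp ha0 one_pos) (sgn_zz hk0.symm rfl) (sgn_nn p1 (by norm_num)) (sgn_zz h6 rfl)
          (sgn_pp p2 (by linarith)) (fun _ _ => ⟨rfl, rfl⟩) ?_ ?_ h2' h3 h4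
        · norm_num
        · have e1 : S * 1 + C * (-1) = S - C := by ring
          have e2 : C * 1 - S * (-1) = C + S := by ring
          rw [e1, e2, abs_zero, abs_of_pos (by linarith : 0 < C + S)]
          rcases abs_cases (S - C) with ⟨h, _⟩ | ⟨h, _⟩ <;> rw [h] <;> linarith
      · have q1 : 0 < C * (1 + C / 2) - S * (-1) := by nlinarith
        refine case5_aux hC hS hCS (x := 1 + C / 2) (y := -1) (u := 0) (v := ρ * (C / 2))
          (sgn_pp ha0 (by linarith)) (sgn_zz hk0.symm rfl) (sgn_nn p1 (by norm_num))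
          (hρs _ (by linarith)) (sgn_pp p2 q1) (fun _ h => absurd h h6) ?_ ?_ h2' h3 h4
        · rw [abs_mul, h6', abs_of_pos (by linarith : 0 < C / 2)]; norm_num
        · rw [abs_of_pos q1, abs_mul, h6', abs_of_pos (by linarith : 0 < C / 2)]
          rcases abs_cases (S * (1 + C / 2) + C * (-1)) with ⟨h, _⟩ | ⟨h, _⟩ <;> rw [h] <;>
            nlinarith [mul_pos hC hS, mul_pos hC hC]
      · have q1 : 0 < C * (1 / 2) - S * (-1) := by linarith
        refine case5_aux hC hS hCS (x := 1 / 2) (y := -1) (u := 1 / 2) (v := 0)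
          (sgn_pp ha0 (by norm_num)) (sgn_pp hk0 (by norm_num)) (sgn_nn p1 (by norm_num))
          (sgn_zz h6 rfl) (sgn_pp p2 q1) (fun h => absurd h hk0.ne') ?_ ?_ h2' h3 h4
        · norm_num
        · rw [abs_of_pos q1, abs_zero]
          rcases abs_cases (S * (1 / 2) + C * (-1)) with ⟨h, _⟩ | ⟨h, _⟩ <;> rw [h] <;> linarith
      · refine case5_aux hC hS hCS (x := 1) (y := -1) (u := 1) (v := ρ)
          (sgn_pp ha0 one_pos) (sgn_pp hk0 one_pos) (sgn_nn p1 (by norm_num)) hρ1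
          (sgn_pp p2 (by linarith)) (fun h => absurd h hk0.ne') ?_ ?_ h2' h3 h4
        · rw [h6']; norm_num
        · have e1 : S * 1 + C * (-1) = S - C := by ring
          have e2 : C * 1 - S * (-1) = C + S := by ring
          rw [e1, e2, h6', abs_of_pos (by linarith : 0 < C + S)]
          rcases abs_cases (S - C) with ⟨h, _⟩ | ⟨h, _⟩ <;> rw [h] <;> linarith

omit ha hk in
/-- Witness for the classes `A1, A2, B2` (with `B1` inactive). -/
lemma case6_aux {x y u v : ℝ}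
    (s1 : SignType.sign x = SignType.sign a1) (s2 : SignType.sign u = SignType.sign k1)
    (s3 : SignType.sign y = SignType.sign a2) (s4 : SignType.sign v = SignType.sign k2)
    (s5 : SignType.sign (S * x + C * y) = SignType.sign b2)
    (hz : k1 = 0 → k2 = 0 → u = 0 ∧ v = 0)
    (e1 : |y| + |v| = x + u)
    (e2 : |C * x - S * y| + |y| < x + |S * x + C * y|)
    (h2 : |a2| + |k2| = a1 + k1) (h3 : |b1| < a1 + 2 * t)
    (h4 : |b2| + |k2| = a1 + k1 + 2 * t) : Ex C S a1 a2 b1 b2 k1 k2 t := by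
  refine ⟨x, y, u, v, (|S * x + C * y| - |y|) / 2, hz, s1, s2, Or.inr ⟨h2, e1, s3, s4⟩,
    Or.inl ⟨h3, ?_⟩, Or.inr ⟨h4, ?_, s5, s4⟩⟩
  · linarith
  · linarith

lemma case6 (ha0 : 0 < a1) (hb2 : 0 < b2) (hD : a2 ≤ 0 → -a2 < a1)
    (h2 : |a2| + |k2| = a1 + k1) (h3 : |b1| < a1 + 2 * t)
    (h4 : |b2| + |k2| = a1 + k1 + 2 * t) : Ex C S a1 a2 b1 b2 k1 k2 t := by
  obtain ⟨hC1, hS1, hCS1⟩ := cs_facts hC hS hCS
  obtain ⟨ρ, hρ, hρs⟩ := sgnrep k2
  have hρ1 := hρs 1 one_pos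
  rw [mul_one] at hρ1
  rcases lt_trichotomy a2 0 with p | p | p
  · have hlt := hD p.le
    have h6' : |ρ| = 1 := by
      rcases hρ with ⟨h6, _⟩ | ⟨_, h6⟩
      · exfalso
        rw [h6, abs_zero, abs_of_neg p] at h2
        linarith
      · exact h6
    have h6 : k2 ≠ 0 := by
      intro h
      rw [h, abs_zero, abs_of_neg p] at h2
      linarith
    have q1 : 0 < S * 1 + C * (-(S / 4)) := by nlinarith [mul_pos hC hS]
    have q2 : 0 < C * 1 - S * (-(S / 4)) := by nlinarith [mul_pos hC hS]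
    have q3 : |(-(S / 4))| = S / 4 := by rw [abs_neg, abs_of_pos (by linarith)]
    have key : |C * 1 - S * (-(S / 4))| + |(-(S / 4))| < 1 + |S * 1 + C * (-(S / 4))| := by
      rw [abs_of_pos q1, abs_of_pos q2, q3]
      nlinarith [mul_pos hC hS]
    rcases hk.eq_or_lt with hk0 | hk0
    · refine case6_aux hC hS hCS (x := 1) (y := -(S / 4)) (u := 0) (v := ρ * (1 - S / 4))
        (sgn_pp ha0 one_pos) (sgn_zz hk0.symm rfl) (sgn_nn p (by linarith))
        (hρs _ (by linarith)) (sgn_pp hb2 q1) (fun _ h => absurd h h6) ?_ key h2 h3 h4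
      rw [abs_mul, h6', q3, abs_of_pos (by linarith : 0 < 1 - S / 4)]; ring
    · refine case6_aux hC hS hCS (x := 1) (y := -(S / 4)) (u := 1) (v := ρ * (2 - S / 4))
        (sgn_pp ha0 one_pos) (sgn_pp hk0 one_pos) (sgn_nn p (by linarith))
        (hρs _ (by linarith)) (sgn_pp hb2 q1) (fun _ h => absurd h h6) ?_ key h2 h3 h4
      rw [abs_mul, h6', q3, abs_of_pos (by linarith : 0 < 2 - S / 4)]; ring
  · have h6' : |ρ| = 1 := by
      rcases hρ with ⟨h6, _⟩ | ⟨_, h6⟩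
      · exfalso
        rw [h6, abs_zero, p, abs_zero] at h2
        linarith
      · exact h6
    have h6 : k2 ≠ 0 := by
      intro h
      rw [h, abs_zero, p, abs_zero] at h2
      linarith
    have q1 : 0 < S * 1 + C * 0 := by linarith
    have key : |C * 1 - S * 0| + |(0 : ℝ)| < 1 + |S * 1 + C * 0| := by
      rw [mul_one, mul_one, mul_zero, mul_zero, sub_zero, add_zero, abs_zero, abs_of_pos hC,
        abs_of_pos hS]
      linarith
    rcases hk.eq_or_lt with hk0 | hk0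
    · refine case6_aux hC hS hCS (x := 1) (y := 0) (u := 0) (v := ρ)
        (sgn_pp ha0 one_pos) (sgn_zz hk0.symm rfl) (sgn_zz p rfl)
        hρ1 (sgn_pp hb2 q1) (fun _ h => absurd h h6) ?_ key h2 h3 h4
      rw [h6', abs_zero]; ring
    · refine case6_aux hC hS hCS (x := 1) (y := 0) (u := 1) (v := ρ * 2)
        (sgn_pp ha0 one_pos) (sgn_pp hk0 one_pos) (sgn_zz p rfl)
        (hρs _ (by linarith)) (sgn_pp hb2 q1) (fun _ h => absurd h h6) ?_ key h2 h3 h4
      rw [abs_mul, h6', abs_zero, abs_of_pos (by norm_num : (0 : ℝ) < 2)]; ring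
  · have key : |C * 1 - S * 1| + |(1 : ℝ)| < 1 + |S * 1 + C * 1| := by
      rw [mul_one, mul_one, abs_one, abs_of_pos (by linarith : 0 < S + C)]
      rcases abs_cases (C - S) with ⟨h, _⟩ | ⟨h, _⟩ <;> rw [h] <;> linarith
    have q1 : 0 < S * 1 + C * 1 := by linarith
    rcases hk.eq_or_lt with hk0 | hk0 <;> rcases hρ with ⟨h6, h6'⟩ | ⟨h6, h6'⟩
    · refine case6_aux hC hS hCS (x := 1) (y := 1) (u := 0) (v := 0)
        (sgn_pp ha0 one_pos) (sgn_zz hk0.symm rfl) (sgn_pp p one_pos) (sgn_zz h6 rfl)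
        (sgn_pp hb2 q1) (fun _ _ => ⟨rfl, rfl⟩) ?_ key h2 h3 h4
      norm_num
    · have q2 : 0 < S * 2 + C * 1 := by linarith
      refine case6_aux hC hS hCS (x := 2) (y := 1) (u := 0) (v := ρ)
        (sgn_pp ha0 two_pos) (sgn_zz hk0.symm rfl) (sgn_pp p one_pos) hρ1
        (sgn_pp hb2 q2) (fun _ h => absurd h h6) ?_ ?_ h2 h3 h4
      · rw [h6']; norm_num
      · rw [abs_of_pos q2, abs_one]
        rcases abs_cases (C * 2 - S * 1) with ⟨h, _⟩ | ⟨h, _⟩ <;> rw [h] <;> linarith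
    · have q2 : 0 < S * 1 + C * (1 + C / 2) := by positivity
      refine case6_aux hC hS hCS (x := 1) (y := 1 + C / 2) (u := C / 2) (v := 0)
        (sgn_pp ha0 one_pos) (sgn_pp hk0 (by linarith)) (sgn_pp p (by linarith)) (sgn_zz h6 rfl)
        (sgn_pp hb2 q2) (fun h => absurd h hk0.ne') ?_ ?_ h2 h3 h4
      · rw [abs_zero, abs_of_pos (by linarith : 0 < 1 + C / 2)]; ring
      · rw [abs_of_pos q2, abs_of_pos (by linarith : 0 < 1 + C / 2)]
        rcases abs_cases (C * 1 - S * (1 + C / 2)) with ⟨h, _⟩ | ⟨h, _⟩ <;> rw [h] <;>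
          nlinarith [mul_pos hC hS, mul_pos hC hC]
    · refine case6_aux hC hS hCS (x := 1) (y := 1) (u := 1) (v := ρ)
        (sgn_pp ha0 one_pos) (sgn_pp hk0 one_pos) (sgn_pp p one_pos) hρ1
        (sgn_pp hb2 q1) (fun h => absurd h hk0.ne') ?_ key h2 h3 h4
      rw [h6']; norm_num

omit ha hk in
/-- Witness for the classes `A1, B1, B2` (with `A2` inactive), in terms of `(b2,b1) = (x,y)`. -/
lemma case7_aux {x y u v : ℝ}
    (s1 : SignType.sign (S * x + C * y) = SignType.sign a1)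
    (s2 : SignType.sign u = SignType.sign k1)
    (s3 : SignType.sign y = SignType.sign b1) (s4 : SignType.sign v = SignType.sign k2)
    (s5 : SignType.sign x = SignType.sign b2)
    (hz : k1 = 0 → k2 = 0 → u = 0 ∧ v = 0)
    (e1 : |x| + |v| = |y| + u)
    (e2 : |C * x - S * y| + |v| < S * x + C * y + u)
    (h2 : |a2| + |k2| < a1 + k1) (h3 : |b1| = a1 + 2 * t)
    (h4 : |b2| + |k2| = a1 + k1 + 2 * t) : Ex C S a1 a2 b1 b2 k1 k2 t := by
  have r1 : C * (S * x + C * y) - S * (C * x - S * y) = y := by linear_combination y * hCS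
  have r2 : S * (S * x + C * y) + C * (C * x - S * y) = x := by linear_combination x * hCS
  refine ⟨S * x + C * y, C * x - S * y, u, v, (|y| - (S * x + C * y)) / 2, hz, s1, s2,
    Or.inl ⟨h2, e2⟩, Or.inr ⟨h3, ?_, ?_⟩, Or.inr ⟨h4, ?_, ?_, s4⟩⟩
  · rw [r1]; ring
  · rw [r1]; exact s3
  · rw [r2]; linarith
  · rw [r2]; exact s5

lemma case7 (ha0 : 0 < a1) (hb2 : 0 < b2) (hD : b1 ≤ 0 → -b1 < b2)
    (h2 : |a2| + |k2| < a1 + k1) (h3 : |b1| = a1 + 2 * t)
    (h4 : |b2| + |k2| = a1 + k1 + 2 * t) : Ex C S a1 a2 b1 b2 k1 k2 t := by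
  obtain ⟨hC1, hS1, hCS1⟩ := cs_facts hC hS hCS
  obtain ⟨ρ, hρ, hρs⟩ := sgnrep k2
  have hρ1 := hρs 1 one_pos
  rw [mul_one] at hρ1
  have hρ0 : 0 ≤ |ρ| := abs_nonneg _
  have hk2 : 0 ≤ |k2| := abs_nonneg _
  have h5 : b2 + |k2| = |b1| + k1 := by rw [abs_of_pos hb2] at h4; linarith
  rcases lt_trichotomy b1 0 with p | p | p
  · have hlt := hD p.le
    have hk0 : 0 < k1 := by rw [abs_of_neg p] at h5; linarith
    have q1 : 0 < S * 1 + C * (-(S / 4)) := by nlinarith [mul_pos hC hS]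
    have q2 : 0 < C * 1 - S * (-(S / 4)) := by nlinarith [mul_pos hC hS]
    have q3 : |(-(S / 4))| = S / 4 := by rw [abs_neg, abs_of_pos (by linarith)]
    refine case7_aux hC hS hCS (x := 1) (y := -(S / 4)) (u := |ρ| + 1 - S / 4) (v := ρ)
      (sgn_pp ha0 q1) (sgn_pp hk0 (by linarith)) (sgn_nn p (by linarith)) hρ1
      (sgn_pp hb2 one_pos) (fun h => absurd h hk0.ne') ?_ ?_ h2 h3 h4
    · rw [q3, abs_one]; ring
    · rw [abs_of_pos q2]; nlinarith [mul_pos hC hS]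
  · have hk0 : 0 < k1 := by rw [p, abs_zero] at h5; linarith
    refine case7_aux hC hS hCS (x := 1) (y := 0) (u := |ρ| + 1) (v := ρ)
      (sgn_pp ha0 (by linarith)) (sgn_pp hk0 (by linarith)) (sgn_zz p rfl) hρ1
      (sgn_pp hb2 one_pos) (fun h => absurd h hk0.ne') ?_ ?_ h2 h3 h4
    · rw [abs_zero, abs_one]; ring
    · rw [mul_one, mul_one, mul_zero, mul_zero, sub_zero, add_zero, abs_of_pos hC]; linarith
  · have key : |C * 1 - S * 1| < S * 1 + C * 1 := by
      rw [mul_one, mul_one]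
      rcases abs_cases (C - S) with ⟨h, _⟩ | ⟨h, _⟩ <;> rw [h] <;> linarith
    have q1 : 0 < S * 1 + C * 1 := by linarith
    rcases hk.eq_or_lt with hk0 | hk0 <;> rcases hρ with ⟨h6, h6'⟩ | ⟨h6, h6'⟩
    · refine case7_aux hC hS hCS (x := 1) (y := 1) (u := 0) (v := 0)
        (sgn_pp ha0 q1) (sgn_zz hk0.symm rfl) (sgn_pp p one_pos) (sgn_zz h6 rfl)
        (sgn_pp hb2 one_pos) (fun _ _ => ⟨rfl, rfl⟩) ?_ ?_ h2 h3 h4
      · norm_num
      · rw [abs_zero]; linarith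
    · have q2 : 0 < S * 1 + C * (1 + C / 2) := by positivity
      refine case7_aux hC hS hCS (x := 1) (y := 1 + C / 2) (u := 0) (v := ρ * (C / 2))
        (sgn_pp ha0 q2) (sgn_zz hk0.symm rfl) (sgn_pp p (by linarith)) (hρs _ (by linarith))
        (sgn_pp hb2 one_pos) (fun _ h => absurd h h6) ?_ ?_ h2 h3 h4
      · rw [abs_mul, h6', abs_of_pos (by linarith : 0 < C / 2), abs_one,
          abs_of_pos (by linarith : 0 < 1 + C / 2)]; ring
      · rw [abs_mul, h6', abs_of_pos (by linarith : 0 < C / 2)]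
        rcases abs_cases (C * 1 - S * (1 + C / 2)) with ⟨h, _⟩ | ⟨h, _⟩ <;> rw [h] <;>
          nlinarith [mul_pos hC hS, mul_pos hC hC]
    · refine case7_aux hC hS hCS (x := 2) (y := 1) (u := 1) (v := 0)
        (sgn_pp ha0 (by linarith)) (sgn_pp hk0 one_pos) (sgn_pp p one_pos) (sgn_zz h6 rfl)
        (sgn_pp hb2 two_pos) (fun h => absurd h hk0.ne') ?_ ?_ h2 h3 h4
      · norm_num
      · rw [abs_zero]
        rcases abs_cases (C * 2 - S * 1) with ⟨h, _⟩ | ⟨h, _⟩ <;> rw [h] <;> linarith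
    · refine case7_aux hC hS hCS (x := 1) (y := 1) (u := 1) (v := ρ)
        (sgn_pp ha0 q1) (sgn_pp hk0 one_pos) (sgn_pp p one_pos) hρ1
        (sgn_pp hb2 one_pos) (fun h => absurd h hk0.ne') ?_ ?_ h2 h3 h4
      · rw [h6']
      · rw [h6']; linarith

end

end OrbPoly
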