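import Pool.Agent.OrbPoly.Const3

set_option autoImplicit false

open Set

namespace OrbPoly

/-- Existence of a transported parameter vector with last parameter `0`. -/
def Ex0 (C S a1 a2 b1 b2 k1 k2 t : ℝ) : Prop :=
  ∃ a1' a2' k1' k2' : ℝ, (k1 = 0 → k2 = 0 → k1' = 0 ∧ k2' = 0) ∧
    Good a1 a2 b1 b2 k1 k2 t a1' a2' (C * a1' - S * a2') (S * a1' + C * a2') k1' k2' 0

lemma Ex0.ex {C S a1 a2 b1 b2 k1 k2 t : ℝ} (h : Ex0 C S a1 a2 b1 b2 k1 k2 t) :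
    Ex C S a1 a2 b1 b2 k1 k2 t := by
  obtain ⟨a1', a2', k1', k2', h1, h2⟩ := h
  exact ⟨a1', a2', k1', k2', 0, h1, h2⟩

section

variable {C S a1 a2 b1 b2 k1 k2 t : ℝ} (hC : 0 < C) (hS : 0 < S) (hCS : C ^ 2 + S ^ 2 = 1)
  (ha : 0 ≤ a1) (hk : 0 ≤ k1)

include hC hS hCS hk

lemma case8 (hD : (a1 = 0 ∧ a2 = 0) ∨ (0 < a1 ∧ a2 < 0 ∧ 0 < b1 ∧ 0 < b2 ∧ -a2 < a1) ∨
      (0 < a1 ∧ 0 < a2 ∧ b1 < 0 ∧ 0 < b2 ∧ a1 < a2))
    (hb : a1 = 0 → a2 = 0 → b1 = 0 ∧ b2 = 0)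
    (h2 : |a2| + |k2| = a1 + k1) (h3 : |b1| = a1 + 2 * t)
    (h4 : |b2| + |k2| = a1 + k1 + 2 * t) : Ex0 C S a1 a2 b1 b2 k1 k2 t := by
  obtain ⟨hC1, hS1, hCS1⟩ := cs_facts hC hS hCS
  obtain ⟨ρ, hρ, hρs⟩ := sgnrep k2
  have hρ1 := hρs 1 one_pos
  rw [mul_one] at hρ1
  have hρ0 : 0 ≤ |ρ| := abs_nonneg _
  have hk2 : 0 ≤ |k2| := abs_nonneg _
  rcases hD with ⟨p1, p2⟩ | ⟨p1, p2, p3, p4, p5⟩ | ⟨p1, p2, p3, p4, p5⟩
  · obtain ⟨p3, p4⟩ := hb p1 p2
    have h2' : |k2| = k1 := by rw [p1, p2, abs_zero] at h2; linarith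
    rcases hk.eq_or_lt with hk0 | hk0
    · have h6 : k2 = 0 := abs_eq_zero.1 (by rw [h2', ← hk0])
      refine ⟨0, 0, 0, 0, fun _ _ => ⟨rfl, rfl⟩, sgn_zz p1 rfl, sgn_zz hk0.symm rfl,
        Or.inr ⟨h2, ?_, sgn_zz p2 rfl, sgn_zz h6 rfl⟩, Or.inr ⟨h3, ?_, sgn_zz p3 (by ring)⟩,
        Or.inr ⟨h4, ?_, sgn_zz p4 (by ring), sgn_zz h6 rfl⟩⟩ <;> norm_num
    · have h6' : |ρ| = 1 := by
        rcases hρ with ⟨h6, _⟩ | ⟨_, h6⟩
        · exfalso
          rw [h6, abs_zero] at h2'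
          linarith
        · exact h6
      refine ⟨0, 0, 1, ρ, fun h => absurd h hk0.ne', sgn_zz p1 rfl, sgn_pp hk0 one_pos,
        Or.inr ⟨h2, ?_, sgn_zz p2 rfl, hρ1⟩, Or.inr ⟨h3, ?_, sgn_zz p3 (by ring)⟩,
        Or.inr ⟨h4, ?_, sgn_zz p4 (by ring), hρ1⟩⟩
      · rw [h6']; norm_num
      · norm_num
      · rw [h6']; norm_num
  · rw [abs_of_neg p2] at h2
    have h6' : |ρ| = 1 := by
      rcases hρ with ⟨h6, _⟩ | ⟨_, h6⟩
      · exfalso
        rw [h6, abs_zero] at h2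
        linarith
      · exact h6
    have h6 : k2 ≠ 0 := by
      intro h
      rw [h, abs_zero] at h2
      linarith
    have e1 : C * (1 + C) - S * (-S) = 1 + C := by linear_combination hCS
    have e2 : S * (1 + C) + C * (-S) = S := by ring
    have e3 : |(-S)| = S := by rw [abs_neg, abs_of_pos hS]
    have h2' : |a2| + |k2| = a1 + k1 := by rw [abs_of_neg p2]; exact h2
    rcases hk.eq_or_lt with hk0 | hk0
    · refine ⟨1 + C, -S, 0, ρ * (1 + C - S), fun _ h => absurd h h6, sgn_pp p1 (by linarith),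
        sgn_zz hk0.symm rfl,
        Or.inr ⟨h2', ?_, sgn_nn p2 (by linarith), hρs _ (by linarith)⟩,
        Or.inr ⟨h3, ?_, ?_⟩,
        Or.inr ⟨h4, ?_, ?_, hρs _ (by linarith)⟩⟩
      · rw [e3, abs_mul, h6', abs_of_pos (by linarith : 0 < 1 + C - S)]; ring
      · rw [e1, abs_of_pos (by linarith)]; ring
      · rw [e1]; exact sgn_pp p3 (by linarith)
      · rw [e2, abs_of_pos hS, abs_mul, h6', abs_of_pos (by linarith : 0 < 1 + C - S)]; ring
      · rw [e2]; exact sgn_pp p4 hS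
    · refine ⟨1 + C, -S, 1, ρ * (2 + C - S), fun _ h => absurd h h6, sgn_pp p1 (by linarith),
        sgn_pp hk0 one_pos,
        Or.inr ⟨h2', ?_, sgn_nn p2 (by linarith), hρs _ (by linarith)⟩,
        Or.inr ⟨h3, ?_, ?_⟩,
        Or.inr ⟨h4, ?_, ?_, hρs _ (by linarith)⟩⟩
      · rw [e3, abs_mul, h6', abs_of_pos (by linarith : 0 < 2 + C - S)]; ring
      · rw [e1, abs_of_pos (by linarith)]; ring
      · rw [e1]; exact sgn_pp p3 (by linarith)
      · rw [e2, abs_of_pos hS, abs_mul, h6', abs_of_pos (by linarith : 0 < 2 + C - S)]; ring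
      · rw [e2]; exact sgn_pp p4 hS
  · rw [abs_of_pos p2] at h2
    have hk0 : 0 < k1 := by linarith
    have h2' : |a2| + |k2| = a1 + k1 := by rw [abs_of_pos p2]; exact h2
    have e1 : C * S - S * (1 + C) = -S := by ring
    have e2 : S * S + C * (1 + C) = 1 + C := by linear_combination hCS
    have hpos : 0 < 1 + C := by linarith
    refine ⟨S, 1 + C, |ρ| + 1 + C - S, ρ, fun h => absurd h hk0.ne', sgn_pp p1 hS,
      sgn_pp hk0 (by linarith), Or.inr ⟨h2', ?_, sgn_pp p2 hpos, hρ1⟩, Or.inr ⟨h3, ?_, ?_⟩,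
      Or.inr ⟨h4, ?_, ?_, hρ1⟩⟩
    · rw [abs_of_pos hpos]; ring
    · rw [e1, abs_neg, abs_of_pos hS]; ring
    · rw [e1]; exact sgn_nn p3 (by linarith)
    · rw [e2, abs_of_pos hpos]; ring
    · rw [e2]; exact sgn_pp p4 hpos

/-- `t = 0`, only the class of the base vertex. -/
lemma case0_1 (ha0 : 0 < a1) (h2 : |a2| + |k2| < a1 + k1) (h3 : |b1| < a1 + 2 * t)
    (h4 : |b2| + |k2| < a1 + k1 + 2 * t) : Ex0 C S a1 a2 b1 b2 k1 k2 t := by
  obtain ⟨hC1, hS1, hCS1⟩ := cs_facts hC hS hCS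
  rcases hk.eq_or_lt with hk0 | hk0
  · refine ⟨1, 0, 0, 0, fun _ _ => ⟨rfl, rfl⟩, sgn_pp ha0 one_pos, sgn_zz hk0.symm rfl,
      Or.inl ⟨h2, ?_⟩, Or.inl ⟨h3, ?_⟩, Or.inl ⟨h4, ?_⟩⟩
    · norm_num
    · rw [mul_zero, mul_one, sub_zero, abs_of_pos hC]; linarith
    · rw [mul_zero, mul_one, add_zero, abs_of_pos hS, abs_zero]; linarith
  · refine ⟨1, 0, 1, 0, fun h => absurd h hk0.ne', sgn_pp ha0 one_pos, sgn_pp hk0 one_pos,
      Or.inl ⟨h2, ?_⟩, Or.inl ⟨h3, ?_⟩, Or.inl ⟨h4, ?_⟩⟩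
    · norm_num
    · rw [mul_zero, mul_one, sub_zero, abs_of_pos hC]; linarith
    · rw [mul_zero, mul_one, add_zero, abs_of_pos hS, abs_zero]; linarith

/-- `t = 0`, classes `A1, B1`. -/
lemma case0_2 (hD : (a1 = 0 ∧ a2 = 0) ∨ (0 < a1 ∧ 0 < b1) ∨ (0 < a1 ∧ b1 < 0 ∧ a1 < a2))
    (hb : a1 = 0 → a2 = 0 → b1 = 0 ∧ b2 = 0)
    (h2 : |a2| + |k2| < a1 + k1) (h3 : |b1| = a1 + 2 * t)
    (h4 : |b2| + |k2| < a1 + k1 + 2 * t) : Ex0 C S a1 a2 b1 b2 k1 k2 t := by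
  obtain ⟨hC1, hS1, hCS1⟩ := cs_facts hC hS hCS
  have hk2 : 0 ≤ |k2| := abs_nonneg _
  rcases hD with ⟨p1, p2⟩ | ⟨p1, p2⟩ | ⟨p1, p2, p3⟩
  · obtain ⟨p3, p4⟩ := hb p1 p2
    have hk0 : 0 < k1 := by rw [p1, p2, abs_zero] at h2; linarith
    refine ⟨0, 0, 1, 0, fun h => absurd h hk0.ne', sgn_zz p1 rfl, sgn_pp hk0 one_pos,
      Or.inl ⟨h2, ?_⟩, Or.inr ⟨h3, ?_, sgn_zz p3 (by ring)⟩, Or.inl ⟨h4, ?_⟩⟩ <;> norm_num
  · have e1 : C * (1 + C) - S * (-S) = 1 + C := by linear_combination hCS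
    have e2 : S * (1 + C) + C * (-S) = S := by ring
    have e3 : |(-S)| = S := by rw [abs_neg, abs_of_pos hS]
    rcases hk.eq_or_lt with hk0 | hk0
    · refine ⟨1 + C, -S, 0, 0, fun _ _ => ⟨rfl, rfl⟩, sgn_pp p1 (by linarith),
        sgn_zz hk0.symm rfl, Or.inl ⟨h2, ?_⟩, Or.inr ⟨h3, ?_, ?_⟩, Or.inl ⟨h4, ?_⟩⟩
      · rw [e3, abs_zero]; linarith
      · rw [e1, abs_of_pos (by linarith)]; ring
      · rw [e1]; exact sgn_pp p2 (by linarith)
      · rw [e2, abs_of_pos hS, abs_zero]; linarith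
    · refine ⟨1 + C, -S, 1, 0, fun h => absurd h hk0.ne', sgn_pp p1 (by linarith),
        sgn_pp hk0 one_pos, Or.inl ⟨h2, ?_⟩, Or.inr ⟨h3, ?_, ?_⟩, Or.inl ⟨h4, ?_⟩⟩
      · rw [e3, abs_zero]; linarith
      · rw [e1, abs_of_pos (by linarith)]; ring
      · rw [e1]; exact sgn_pp p2 (by linarith)
      · rw [e2, abs_of_pos hS, abs_zero]; linarith
  · have e1 : C * S - S * (1 + C) = -S := by ring
    have e2 : S * S + C * (1 + C) = 1 + C := by linear_combination hCS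
    have hpos : 0 < 1 + C := by linarith
    have hk0 : 0 < k1 := by
      have := le_abs_self a2
      linarith
    refine ⟨S, 1 + C, 5, 0, fun h => absurd h hk0.ne', sgn_pp p1 hS, sgn_pp hk0 (by norm_num),
      Or.inl ⟨h2, ?_⟩, Or.inr ⟨h3, ?_, ?_⟩, Or.inl ⟨h4, ?_⟩⟩
    · rw [abs_of_pos hpos, abs_zero]; linarith
    · rw [e1, abs_neg, abs_of_pos hS]; ring
    · rw [e1]; exact sgn_nn p2 (by linarith)
    · rw [e2, abs_of_pos hpos, abs_zero]; linarith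

/-- `t = 0`, classes `A1, B2`. -/
lemma case0_3 (ha0 : 0 < a1) (hb2 : 0 < b2)
    (h2 : |a2| + |k2| < a1 + k1) (h3 : |b1| < a1 + 2 * t)
    (h4 : |b2| + |k2| = a1 + k1 + 2 * t) : Ex0 C S a1 a2 b1 b2 k1 k2 t := by
  obtain ⟨hC1, hS1, hCS1⟩ := cs_facts hC hS hCS
  obtain ⟨ρ, hρ, hρs⟩ := sgnrep k2
  have hρ1 := hρs 1 one_pos
  rw [mul_one] at hρ1
  have e1 : C * (1 + S) - S * C = C := by ring
  have e2 : S * (1 + S) + C * C = 1 + S := by linear_combination hCS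
  have hpos : (0 : ℝ) < 1 + S := by linarith
  rcases hk.eq_or_lt with hk0 | hk0 <;> rcases hρ with ⟨h6, h6'⟩ | ⟨h6, h6'⟩
  · refine ⟨1 + S, C, 0, 0, fun _ _ => ⟨rfl, rfl⟩, sgn_pp ha0 hpos,
      sgn_zz hk0.symm rfl, Or.inl ⟨h2, ?_⟩, Or.inl ⟨h3, ?_⟩, Or.inr ⟨h4, ?_, ?_, sgn_zz h6 rfl⟩⟩
    · rw [abs_of_pos hC, abs_zero]; linarith
    · rw [e1, abs_of_pos hC]; linarith
    · rw [e2, abs_of_pos hpos, abs_zero]; ring
    · rw [e2]; exact sgn_pp hb2 hpos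
  · have e3 : |C * 1 - S * 0| = C := by rw [mul_one, mul_zero, sub_zero, abs_of_pos hC]
    have e4 : S * 1 + C * 0 = S := by ring
    refine ⟨1, 0, 0, ρ * (1 - S), fun _ h => absurd h h6, sgn_pp ha0 one_pos,
      sgn_zz hk0.symm rfl, Or.inl ⟨h2, ?_⟩, Or.inl ⟨h3, ?_⟩,
      Or.inr ⟨h4, ?_, ?_, hρs _ (by linarith)⟩⟩
    · rw [abs_mul, h6', abs_of_pos (by linarith : 0 < 1 - S), abs_zero]; linarith
    · rw [e3]; linarith
    · rw [e4, abs_of_pos hS, abs_mul, h6', abs_of_pos (by linarith : 0 < 1 - S)]; ring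
    · rw [e4]; exact sgn_pp hb2 hS
  · have e3 : C * S - S * C = 0 := by ring
    have e4 : S * S + C * C = 1 := by linear_combination hCS
    refine ⟨S, C, 1 - S, 0, fun h => absurd h hk0.ne', sgn_pp ha0 hS,
      sgn_pp hk0 (by linarith), Or.inl ⟨h2, ?_⟩, Or.inl ⟨h3, ?_⟩,
      Or.inr ⟨h4, ?_, ?_, sgn_zz h6 rfl⟩⟩
    · rw [abs_of_pos hC, abs_zero]; linarith
    · rw [e3, abs_zero]; linarith
    · rw [e4, abs_one, abs_zero]; ring
    · rw [e4]; exact sgn_pp hb2 one_pos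
  · refine ⟨1 + S, C, 1, ρ, fun h => absurd h hk0.ne', sgn_pp ha0 hpos,
      sgn_pp hk0 one_pos, Or.inl ⟨h2, ?_⟩, Or.inl ⟨h3, ?_⟩,
      Or.inr ⟨h4, ?_, ?_, hρ1⟩⟩
    · rw [abs_of_pos hC, h6']; linarith
    · rw [e1, abs_of_pos hC]; linarith
    · rw [e2, abs_of_pos hpos, h6']; ring
    · rw [e2]; exact sgn_pp hb2 hpos

end

/-- The transport of parameter vectors, general last coordinate. -/
theorem exists_params {c s C S a1 a2 k1 k2 t : ℝ} (hc : 0 < c) (hs : 0 < s)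
    (hcs : c ^ 2 + s ^ 2 = 1) (hC : 0 < C) (hS : 0 < S) (hCS : C ^ 2 + S ^ 2 = 1)
    (h : oneG ∈ am a1 a2 (c * a1 - s * a2) (s * a1 + c * a2) k1 k2 t) :
    Ex C S a1 a2 (c * a1 - s * a2) (s * a1 + c * a2) k1 k2 t := by
  rw [base_mem_iff] at h
  obtain ⟨ha, hk, h2, h3, h4⟩ := h
  have hk2 : 0 ≤ |k2| := abs_nonneg _
  rcases h2.lt_or_eq with h2 | h2 <;> rcases h3.lt_or_eq with h3 | h3 <;>
    rcases h4.lt_or_eq with h4 | h4
  · exact case1 hC hS hCS ha hk h2 h3 h4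
  · obtain ⟨p1, p2, -, -⟩ := Dpos (a2 := a2) hc hs hcs ha (by linarith)
    exact case4 hC hS hCS ha hk h2 h3 h4 p1 p2
  · refine case3 hC hS hCS ha hk h2 h3 h4 ?_
    intro q1 q2 q3 q4
    by_contra hle
    push Not at hle
    have e1 : |c * a1 - s * a2| = s * a2 - c * a1 := by rw [abs_of_nonpos hle]; ring
    have h5 : s * a2 < a1 := by
      have : |a2| < a1 := q3
      have h6 := le_abs_self a2
      obtain ⟨hc1, hs1, hcs1⟩ := cs_facts hc hs hcs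
      rcases le_or_gt a2 0 with h7 | h7
      · nlinarith
      · nlinarith
    have h7 : s * a1 + c * a2 < s * a2 - c * a1 := by
      calc s * a1 + c * a2 ≤ |s * a1 + c * a2| := le_abs_self _
        _ < |c * a1 - s * a2| := q4
        _ = _ := e1
    obtain ⟨hc1, hs1, hcs1⟩ := cs_facts hc hs hcs
    have h8 : |a2| < a1 := q3
    have h6 := le_abs_self a2
    nlinarith [mul_pos hs (by linarith : 0 < a1 - a2), mul_pos hc (by linarith : 0 < a1 + a1),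
      neg_abs_le a2]
  · obtain ⟨p1, p2, -, p3⟩ := Dpos (a2 := a2) hc hs hcs ha (by linarith)
    exact case7 hC hS hCS ha hk p1 p2 p3 h2 h3 h4
  · exact case2 hC hS hCS ha hk h2 h3 h4
  · obtain ⟨p1, p2, p3, -⟩ := Dpos (a2 := a2) hc hs hcs ha (by linarith)
    exact case6 hC hS hCS ha hk p1 p2 p3 h2 h3 h4
  · have hD := Dneg (a2 := a2) hc hs hcs ha (by linarith)
    exact case5 hC hS hCS ha hk hD h2 h3 h4
  · have hD := Dzero (a2 := a2) hc hs hcs ha (by linarith)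
    refine (case8 hC hS hCS hk hD ?_ h2 h3 h4).ex
    intro q1 q2
    rw [q1, q2]
    constructor <;> ring

/-- The transport of parameter vectors, last coordinate zero. -/
theorem exists_params0 {c s C S a1 a2 k1 k2 : ℝ} (hc : 0 < c) (hs : 0 < s)
    (hcs : c ^ 2 + s ^ 2 = 1) (hC : 0 < C) (hS : 0 < S) (hCS : C ^ 2 + S ^ 2 = 1)
    (h : oneG ∈ am a1 a2 (c * a1 - s * a2) (s * a1 + c * a2) k1 k2 0) :
    Ex0 C S a1 a2 (c * a1 - s * a2) (s * a1 + c * a2) k1 k2 0 := by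
  rw [base_mem_iff] at h
  obtain ⟨ha, hk, h2, h3, h4⟩ := h
  obtain ⟨hc1, hs1, hcs1⟩ := cs_facts hc hs hcs
  have hk2 : 0 ≤ |k2| := abs_nonneg _
  have hsq : (c * a1 - s * a2) ^ 2 + (s * a1 + c * a2) ^ 2 = a1 ^ 2 + a2 ^ 2 := by
    linear_combination (a1 ^ 2 + a2 ^ 2) * hcs
  have hzero : a1 = 0 → a2 = 0 → c * a1 - s * a2 = 0 ∧ s * a1 + c * a2 = 0 := by
    intro q1 q2
    rw [q1, q2]
    constructor <;> ring
  rcases h3.lt_or_eq with h3' | h3'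
  · -- `B1` inactive
    have hlt : |a2| < |s * a1 + c * a2| := by
      rw [← sq_lt_sq]
      have h5 : (c * a1 - s * a2) ^ 2 < a1 ^ 2 := by
        rw [sq_lt_sq, abs_of_nonneg ha]; linarith
      linarith
    have ha0 : 0 < a1 := by linarith [abs_nonneg (c * a1 - s * a2)]
    rcases h4.lt_or_eq with h4' | h4'
    · exact case0_1 hC hS hCS hk ha0 (by linarith) h3' h4'
    · have hb2 : 0 < s * a1 + c * a2 := by
        by_contra hle
        push Not at hle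
        have h5 : c * a1 - s * a2 < a1 := by linarith [le_abs_self (c * a1 - s * a2)]
        have h6 : c * (c * a1 - s * a2) + s * (s * a1 + c * a2) = a1 := by
          linear_combination a1 * hcs
        nlinarith [mul_pos hc ha0]
      exact case0_3 hC hS hCS hk ha0 hb2 (by linarith) h3' h4'
  · have heq : |a2| = |s * a1 + c * a2| := by
      rw [← sq_eq_sq_iff_abs_eq_abs]
      have h5 : (c * a1 - s * a2) ^ 2 = a1 ^ 2 := by
        rw [sq_eq_sq_iff_abs_eq_abs, abs_of_nonneg ha]; linarith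
      linarith
    rcases h4.lt_or_eq with h4' | h4'
    · refine case0_2 hC hS hCS hk ?_ hzero (by linarith) h3' h4'
      rcases ha.eq_or_lt with ha0 | ha0
      · left
        refine ⟨ha0.symm, ?_⟩
        have h5 : c * a1 - s * a2 = 0 := by
          apply abs_eq_zero.1
          rw [h3', ← ha0]; ring
        rw [← ha0, mul_zero, zero_sub, neg_eq_zero] at h5
        exact (mul_eq_zero.1 h5).resolve_left hs.ne'
      · right
        rcases lt_trichotomy (c * a1 - s * a2) 0 with h5 | h5 | h5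
        · right
          refine ⟨ha0, h5, ?_⟩
          rw [abs_of_neg h5] at h3'
          nlinarith [mul_pos hc ha0]
        · exfalso
          rw [h5, abs_zero] at h3'
          linarith
        · left
          exact ⟨ha0, h5⟩
    · have hD := Dzero (a2 := a2) hc hs hcs ha (by linarith)
      exact case8 hC hS hCS hk hD hzero (by linarith) h3' h4'

end OrbPoly
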