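import Pool.Agent.OrbPoly.Ridge2

set_option autoImplicit false

open Set MeasureTheory

namespace OrbPoly

/-- Normal form of the domain `D0`. -/
lemma mem_D0 {a b : ℝ} {v : E 3} : v ∈ D0 a b ↔
    (-v 1 ≤ v 0 ∧ v 1 ≤ v 0) ∧ v 0 ≤ 1 ∧ |v 1 * a / b - v 0 * b / a| + |v 2| ≤ 1 + v 1 ∧
      |v 1 * a / b + v 0 * b / a| + |v 2| ≤ 1 - v 1 := by
  change oneG ∈ am _ _ _ _ _ _ _ ↔ _
  rw [base_mem_iff]
  have e : v 0 * b / a + v 1 * a / b = v 1 * a / b + v 0 * b / a := by ring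
  rw [e]
  constructor
  · rintro ⟨h1, h2, h3, h4, h5⟩
    have := abs_nonneg (v 0 - v 1)
    exact ⟨⟨by linarith, by linarith⟩, by linarith, by linarith, by linarith⟩
  · rintro ⟨⟨h1, h2⟩, h3, h4, h5⟩
    refine ⟨by linarith, by linarith, by linarith, ?_, by linarith⟩
    rw [abs_of_nonneg (by linarith)]
    linarith

lemma mem_D2 {a b : ℝ} {v : E 3} : v ∈ D2 a b ↔
    (-v 0 ≤ v 1 ∧ v 0 ≤ v 1) ∧ v 1 ≤ 1 ∧ |v 1 * a / b - v 0 * b / a| + |v 2| ≤ 1 + v 0 ∧
      |v 1 * a / b + v 0 * b / a| + |v 2| ≤ 1 - v 0 := by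
  change oneG ∈ am _ _ _ _ _ _ _ ↔ _
  rw [base_mem_iff]
  have e : v 0 * b / a + v 1 * a / b = v 1 * a / b + v 0 * b / a := by ring
  rw [e]
  constructor
  · rintro ⟨h1, h2, h3, h4, h5⟩
    have := abs_nonneg (v 0 - v 1)
    exact ⟨⟨by linarith, by linarith⟩, by linarith, by linarith, by linarith⟩
  · rintro ⟨⟨h1, h2⟩, h3, h4, h5⟩
    refine ⟨by linarith, by linarith, by linarith, ?_, by linarith⟩
    rw [abs_of_nonpos (by linarith)]
    linarith

lemma measurable_D0 (a b : ℝ) : MeasurableSet (D0 a b) := by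
  have c : ∀ i : Fin 3, Continuous fun v : E 3 => v i := fun i => by fun_prop
  have h : D0 a b = ({v | -v 1 ≤ v 0} ∩ {v | v 1 ≤ v 0}) ∩ ({v | v 0 ≤ 1} ∩
      ({v | |v 1 * a / b - v 0 * b / a| + |v 2| ≤ 1 + v 1} ∩
        {v | |v 1 * a / b + v 0 * b / a| + |v 2| ≤ 1 - v 1})) := by
    ext v
    exact mem_D0
  have h0 := c 0
  have h1 := c 1
  have h2 := c 2
  have k1 : Continuous fun v : E 3 => v 1 * a / b := (h1.mul_const a).div_const b
  have k2 : Continuous fun v : E 3 => v 0 * b / a := (h0.mul_const b).div_const a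
  rw [h]
  exact (((isClosed_le h1.neg h0).inter (isClosed_le h1 h0)).inter
    ((isClosed_le h0 continuous_const).inter
      ((isClosed_le ((k1.sub k2).abs.add h2.abs) (continuous_const.add h1)).inter
        (isClosed_le ((k1.add k2).abs.add h2.abs) (continuous_const.sub h1))))).measurableSet

lemma measurable_D2 (a b : ℝ) : MeasurableSet (D2 a b) := by
  have c : ∀ i : Fin 3, Continuous fun v : E 3 => v i := fun i => by fun_prop
  have h : D2 a b = ({v | -v 0 ≤ v 1} ∩ {v | v 0 ≤ v 1}) ∩ ({v | v 1 ≤ 1} ∩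
      ({v | |v 1 * a / b - v 0 * b / a| + |v 2| ≤ 1 + v 0} ∩
        {v | |v 1 * a / b + v 0 * b / a| + |v 2| ≤ 1 - v 0})) := by
    ext v
    exact mem_D2
  have h0 := c 0
  have h1 := c 1
  have h2 := c 2
  have k1 : Continuous fun v : E 3 => v 1 * a / b := (h1.mul_const a).div_const b
  have k2 : Continuous fun v : E 3 => v 0 * b / a := (h0.mul_const b).div_const a
  rw [h]
  exact (((isClosed_le h0.neg h1).inter (isClosed_le h0 h1)).inter
    ((isClosed_le h1 continuous_const).inter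
      ((isClosed_le ((k1.sub k2).abs.add h2.abs) (continuous_const.add h0)).inter
        (isClosed_le ((k1.add k2).abs.add h2.abs) (continuous_const.sub h0))))).measurableSet

lemma measurable_coord_nonneg (i : Fin 3) : MeasurableSet {v : E 3 | 0 ≤ v i} :=
  (isClosed_le continuous_const (by fun_prop)).measurableSet

lemma volume_D0_eq (a b : ℝ) : volume (D0 a b) =
    4 * volume ((D0 a b ∩ {v | 0 ≤ v 1}) ∩ {v | 0 ≤ v 2}) := by
  have e1 := volume_half 1 (measurable_D0 a b) (by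
    intro v
    have r0 : (refl3 1 v) 0 = v 0 := by rw [refl3_apply, if_neg (by decide)]
    have r1 : (refl3 1 v) 1 = -(v 1) := by rw [refl3_apply, if_pos rfl]
    have r2 : (refl3 1 v) 2 = v 2 := by rw [refl3_apply, if_neg (by decide)]
    rw [mem_D0, mem_D0, r0, r1, r2]
    norm_num
    have i1 : |-(v 1 * a) / b - v 0 * b / a| = |v 1 * a / b + v 0 * b / a| := by
      rw [← abs_neg]; congr 1; ring
    have i2 : |-(v 1 * a) / b + v 0 * b / a| = |v 1 * a / b - v 0 * b / a| := by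
      rw [← abs_neg]; congr 1; ring
    rw [i1, i2]
    constructor
    · rintro ⟨⟨h1, h2⟩, h3, h4, h5⟩
      exact ⟨⟨by linarith, by linarith⟩, h3, by linarith, by linarith⟩
    · rintro ⟨⟨h1, h2⟩, h3, h4, h5⟩
      exact ⟨⟨by linarith, by linarith⟩, h3, by linarith, by linarith⟩)
  have e2 := volume_half 2 ((measurable_D0 a b).inter (measurable_coord_nonneg 1)) (by
    intro v
    simp only [mem_inter_iff]
    rw [mem_D0, mem_D0]
    simp [refl3_apply])
  rw [e1, e2, ← mul_assoc]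
  norm_num

lemma volume_D2_eq (a b : ℝ) : volume (D2 a b) =
    4 * volume ((D2 a b ∩ {v | 0 ≤ v 0}) ∩ {v | 0 ≤ v 2}) := by
  have e1 := volume_half 0 (measurable_D2 a b) (by
    intro v
    have r0 : (refl3 0 v) 0 = -(v 0) := by rw [refl3_apply, if_pos rfl]
    have r1 : (refl3 0 v) 1 = v 1 := by rw [refl3_apply, if_neg (by decide)]
    have r2 : (refl3 0 v) 2 = v 2 := by rw [refl3_apply, if_neg (by decide)]
    rw [mem_D2, mem_D2, r0, r1, r2]
    norm_num
    have i1 : |v 1 * a / b - -(v 0 * b) / a| = |v 1 * a / b + v 0 * b / a| := by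
      congr 1; ring
    have i2 : |v 1 * a / b + -(v 0 * b) / a| = |v 1 * a / b - v 0 * b / a| := by
      congr 1; ring
    rw [i1, i2]
    constructor
    · rintro ⟨⟨h1, h2⟩, h3, h4, h5⟩
      exact ⟨⟨by linarith, by linarith⟩, h3, by linarith, by linarith⟩
    · rintro ⟨⟨h1, h2⟩, h3, h4, h5⟩
      exact ⟨⟨by linarith, by linarith⟩, h3, by linarith, by linarith⟩)
  have e2 := volume_half 2 ((measurable_D2 a b).inter (measurable_coord_nonneg 0)) (by
    intro v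
    simp only [mem_inter_iff]
    rw [mem_D2, mem_D2]
    simp [refl3_apply])
  rw [e1, e2, ← mul_assoc]
  norm_num

section

variable {a b : ℝ} (pb : 0 < b) (hab : b < a)

include pb hab

theorem volume_D0_ge : 4 * (1 / (6 * (1 + b / a + (b / a) ^ 2)) -
    (1 - b / a) ^ 3 / (6 * (1 + b / a))) ≤ (volume (D0 a b)).toReal := by
  have pa : 0 < a := pb.trans hab
  set r := b / a with hr
  have r0 : 0 < r := div_pos pb pa
  have r1 : r < 1 := (div_lt_one pa).2 hab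
  have hrinv : a / b = r⁻¹ := by rw [hr, inv_div]
  have f1 : ∀ x : ℝ, x * a / b = x * r⁻¹ := fun x => by rw [mul_div_assoc, hrinv]
  have f2 : ∀ x : ℝ, x * b / a = x * r := fun x => by rw [mul_div_assoc]
  set P := (D0 a b ∩ {v | 0 ≤ v 1}) ∩ {v | 0 ≤ v 2} with hP
  let MB : Matrix (Fin 3) (Fin 3) ℝ := !![r, -r, 0; 0, r + (1 + r⁻¹), 0; 0, 0, 1]
  let MC : Matrix (Fin 3) (Fin 3) ℝ := !![r, 0, 0; 0, 1 + r⁻¹, 0; 0, 0, 1]
  have dB : LinearMap.det (lin3 MB) = r * (r + (1 + r⁻¹)) := by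
    rw [det_lin3, Matrix.det_fin_three]
    simp [MB]
  have dC : LinearMap.det (lin3 MC) = r * (1 + r⁻¹) := by
    rw [det_lin3, Matrix.det_fin_three]
    simp [MC]
  have dB' : r * (r + (1 + r⁻¹)) = 1 + r + r ^ 2 := by field_simp; ring
  have dC' : r * (1 + r⁻¹) = 1 + r := by field_simp; ring
  have vB := volume_Sim (lin3 MB) (by rw [dB, dB']; positivity) 0 one_pos
  have vC := volume_Sim (lin3 MC) (by rw [dC, dC']; positivity) !₂[1, 0, 0]
    (by linarith : 0 < 1 - r)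
  rw [dB, dB', abs_of_pos (by positivity)] at vB
  rw [dC, dC', abs_of_pos (by positivity)] at vC
  have hB : ∀ v, v ∈ Sim (lin3 MB) 0 1 ↔ (v 1 ≤ v 0 ∧ 0 ≤ v 1 ∧ 0 ≤ v 2) ∧
      r * v 0 + (1 + r⁻¹) * v 1 + v 2 ≤ 1 := by
    intro v
    simp only [Sim, mem_ofPred_eq, lin3_apply, sub_zero]
    simp [MB]
    have g1 : v 1 * r ≤ v 0 * r ↔ v 1 ≤ v 0 := mul_le_mul_iff_left₀ r0
    have g2 : 0 ≤ (r + (1 + r⁻¹)) * v 1 ↔ 0 ≤ v 1 := by
      rw [mul_nonneg_iff_of_pos_left (by positivity)]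
    rw [g2, mul_comm r (v 1), mul_comm r (v 0), g1]
    constructor
    · rintro ⟨h1, h2⟩
      exact ⟨h1, by linarith⟩
    · rintro ⟨h1, h2⟩
      exact ⟨h1, by linarith⟩
  have hsub : Sim (lin3 MB) 0 1 ⊆ P ∪ Sim (lin3 MC) !₂[1, 0, 0] (1 - r) := by
    intro v hv
    rw [hB] at hv
    obtain ⟨⟨h1, h2, h3⟩, h4⟩ := hv
    rcases le_or_gt (v 0) 1 with h5 | h5
    · left
      refine ⟨⟨?_, h2⟩, h3⟩
      rw [mem_D0, f1, f2, abs_of_nonneg h3]
      have hp : 0 ≤ v 1 * r⁻¹ := by positivity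
      have hq : 0 ≤ v 0 * r := mul_nonneg (h2.trans h1) r0.le
      refine ⟨⟨by linarith, h1⟩, h5, ?_, ?_⟩
      · have : |v 1 * r⁻¹ - v 0 * r| ≤ v 1 * r⁻¹ + v 0 * r := by
          rw [abs_le]; constructor <;> linarith
        linarith
      · rw [abs_of_nonneg (by linarith)]
        linarith
    · right
      simp only [Sim, mem_ofPred_eq, lin3_apply]
      simp [MC]
      refine ⟨⟨by nlinarith, by positivity, h3⟩, by linarith⟩
  have hPB : P ⊆ Sim (lin3 MB) 0 1 := by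
    rintro v ⟨⟨h1, h2⟩, h3⟩
    rw [mem_D0, f1, f2] at h1
    rw [hB]
    obtain ⟨⟨k1, k2⟩, k3, k4, k5⟩ := h1
    have h2' : 0 ≤ v 1 := h2
    have h3' : 0 ≤ v 2 := h3
    rw [abs_of_nonneg h3'] at k5
    have := le_abs_self (v 1 * r⁻¹ + v 0 * r)
    exact ⟨⟨k2, h2', h3'⟩, by linarith⟩
  have hfin : volume P ≠ ⊤ := by
    refine ne_top_of_le_ne_top ?_ (measure_mono hPB)
    rw [vB]; exact ENNReal.ofReal_ne_top
  have hfin0 : volume (D0 a b) ≠ ⊤ := by
    rw [volume_D0_eq]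
    exact ENNReal.mul_ne_top (by norm_num) hfin
  have h1 : volume (Sim (lin3 MB) 0 1) ≤ volume P + volume (Sim (lin3 MC) !₂[1, 0, 0] (1 - r)) :=
    (measure_mono hsub).trans (measure_union_le _ _)
  have h2 : (volume (Sim (lin3 MB) 0 1)).toReal ≤ (volume P).toReal +
      (volume (Sim (lin3 MC) !₂[1, 0, 0] (1 - r))).toReal := by
    rw [← ENNReal.toReal_add hfin (by rw [vC]; exact ENNReal.ofReal_ne_top)]
    refine ENNReal.toReal_mono ?_ h1
    exact ENNReal.add_ne_top.2 ⟨hfin, by rw [vC]; exact ENNReal.ofReal_ne_top⟩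
  rw [vB, vC, ENNReal.toReal_ofReal (by positivity),
    ENNReal.toReal_ofReal (div_nonneg (pow_nonneg (by linarith) 3) (by positivity))] at h2
  rw [volume_D0_eq, ENNReal.toReal_mul]
  have h4 : (4 : ENNReal).toReal = 4 := by norm_num
  rw [h4]
  have h5 : (1 : ℝ) ^ 3 / (6 * (1 + r + r ^ 2)) = 1 / (6 * (1 + r + r ^ 2)) := by norm_num
  rw [h5] at h2
  linarith

theorem volume_D2_le : (volume (D2 a b)).toReal ≤
    4 * ((b / a) ^ 2 / (6 * (1 + b / a + (b / a) ^ 2))) := by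
  have pa : 0 < a := pb.trans hab
  set r := b / a with hr
  have r0 : 0 < r := div_pos pb pa
  have hrinv : a / b = r⁻¹ := by rw [hr, inv_div]
  have f1 : ∀ x : ℝ, x * a / b = x * r⁻¹ := fun x => by rw [mul_div_assoc, hrinv]
  have f2 : ∀ x : ℝ, x * b / a = x * r := fun x => by rw [mul_div_assoc]
  set P := (D2 a b ∩ {v | 0 ≤ v 0}) ∩ {v | 0 ≤ v 2} with hP
  let MB : Matrix (Fin 3) (Fin 3) ℝ := !![-r⁻¹, r⁻¹, 0; r⁻¹ + 1 + r, 0, 0; 0, 0, 1]
  have dB : LinearMap.det (lin3 MB) = -(r⁻¹ * (r⁻¹ + 1 + r)) := by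
    rw [det_lin3, Matrix.det_fin_three]
    simp [MB]
  have vB := volume_Sim (lin3 MB) (by rw [dB]; exact neg_ne_zero.2 (by positivity)) 0 one_pos
  rw [dB, abs_neg, abs_of_pos (by positivity)] at vB
  have hPB : P ⊆ Sim (lin3 MB) 0 1 := by
    rintro v ⟨⟨h1, h2⟩, h3⟩
    rw [mem_D2, f1, f2] at h1
    obtain ⟨⟨k1, k2⟩, k3, k4, k5⟩ := h1
    have h2' : 0 ≤ v 0 := h2
    have h3' : 0 ≤ v 2 := h3
    rw [abs_of_nonneg h3'] at k5
    have := le_abs_self (v 1 * r⁻¹ + v 0 * r)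
    simp only [Sim, mem_ofPred_eq, lin3_apply, sub_zero]
    simp [MB]
    have ri : 0 < r⁻¹ := inv_pos.2 r0
    refine ⟨⟨by nlinarith, by positivity, h3'⟩, by linarith⟩
  have h1 := measure_mono (μ := volume) hPB
  rw [vB] at h1
  have h2 := ENNReal.toReal_mono ENNReal.ofReal_ne_top h1
  rw [ENNReal.toReal_ofReal (by positivity)] at h2
  rw [volume_D2_eq, ENNReal.toReal_mul]
  have h4 : (4 : ENNReal).toReal = 4 := by norm_num
  rw [h4]
  have h5 : (1 : ℝ) ^ 3 / (6 * (r⁻¹ * (r⁻¹ + 1 + r))) = r ^ 2 / (6 * (1 + r + r ^ 2)) := by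
    field_simp
  rw [h5] at h2
  linarith

theorem volume_D4_le {s : ℝ} (hs : s = 1 ∨ s = -1) : (volume (D4 a b s)).toReal ≤
    2 * ((b / a) / (6 * (1 + b / a + (b / a) ^ 2))) := by
  have pa : 0 < a := pb.trans hab
  set r := b / a with hr
  have r0 : 0 < r := div_pos pb pa
  have hrinv : a / b = r⁻¹ := by rw [hr, inv_div]
  have f1 : ∀ x : ℝ, x * a / b = x * r⁻¹ := fun x => by rw [mul_div_assoc, hrinv]
  have f2 : ∀ x : ℝ, x * b / a = x * r := fun x => by rw [mul_div_assoc]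
  have ri : 0 < r⁻¹ := inv_pos.2 r0
  let MU : Matrix (Fin 3) (Fin 3) ℝ := !![1, 0, -r⁻¹; 0, 1, -r; 0, 0, r⁻¹ + 1 + r]
  let ML : Matrix (Fin 3) (Fin 3) ℝ := !![r, 0, r; 0, r⁻¹, r⁻¹; 0, 0, -(r⁻¹ + 1 + r)]
  have dU : LinearMap.det (lin3 MU) = r⁻¹ + 1 + r := by
    rw [det_lin3, Matrix.det_fin_three]
    simp [MU]
  have dL : LinearMap.det (lin3 ML) = -(r⁻¹ + 1 + r) := by
    rw [det_lin3, Matrix.det_fin_three]
    simp [ML]
    rw [mul_inv_cancel₀ r0.ne', one_mul]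
  have vU := volume_Sim (lin3 MU) (by rw [dU]; positivity) 0 one_pos
  have vL := volume_Sim (lin3 ML) (by rw [dL]; exact neg_ne_zero.2 (by positivity)) 0 one_pos
  rw [dU, abs_of_pos (by positivity)] at vU
  rw [dL, abs_neg, abs_of_pos (by positivity)] at vL
  have hsub : D4 a b s ⊆ Sim (lin3 MU) 0 1 ∪ Sim (lin3 ML) 0 1 := by
    intro v hv
    have hv' : oneG ∈ am (v 0 + v 1) (v 1 * a / b - v 0 * b / a) (v 0 - v 1)
      (v 0 * b / a + v 1 * a / b)
      (1 - v 2 - v 0 - v 1) (s * (1 + v 2 - (v 0 * b / a + v 1 * a / b))) (v 2) := hv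
    rw [base_mem_iff, f1, f2] at hv'
    obtain ⟨h1, h2, h3, h4, h5⟩ := hv'
    have hsa : |s * (1 + v 2 - (v 0 * r + v 1 * r⁻¹))| = |1 + v 2 - (v 0 * r + v 1 * r⁻¹)| := by
      rw [abs_mul]
      rcases hs with h | h <;> rw [h] <;> simp
    rw [hsa] at h3 h5
    have i1 := le_abs_self (v 0 * r + v 1 * r⁻¹)
    have i2 := neg_abs_le (v 0 * r + v 1 * r⁻¹)
    have i3 := le_abs_self (1 + v 2 - (v 0 * r + v 1 * r⁻¹))
    have i4 := neg_abs_le (1 + v 2 - (v 0 * r + v 1 * r⁻¹))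
    have i5 := le_abs_self (v 1 * r⁻¹ - v 0 * r)
    have i6 := neg_abs_le (v 1 * r⁻¹ - v 0 * r)
    have i7 := le_abs_self (v 0 - v 1)
    have i8 := neg_abs_le (v 0 - v 1)
    have c1 : v 2 ≤ v 0 * r := by linarith
    have c2 : v 2 ≤ v 1 * r⁻¹ := by linarith
    have c3 : 0 ≤ v 0 + v 2 := by linarith
    have c4 : 0 ≤ v 1 + v 2 := by linarith
    have c5 : v 0 * r + v 1 * r⁻¹ - v 2 ≤ 1 := by linarith
    have c6 : v 0 + v 1 + v 2 ≤ 1 := by linarith
    have rr : r * r⁻¹ = 1 := mul_inv_cancel₀ r0.ne'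
    rcases le_total 0 (v 2) with hv2 | hv2
    · left
      simp only [Sim, mem_ofPred_eq, lin3_apply, sub_zero]
      simp [MU]
      refine ⟨⟨?_, ?_, by positivity⟩, by linarith⟩
      · have : r⁻¹ * v 2 ≤ r⁻¹ * (v 0 * r) := mul_le_mul_of_nonneg_left c1 ri.le
        have e : r⁻¹ * (v 0 * r) = v 0 := by field_simp
        linarith
      · have : r * v 2 ≤ r * (v 1 * r⁻¹) := mul_le_mul_of_nonneg_left c2 r0.le
        have e : r * (v 1 * r⁻¹) = v 1 := by field_simp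
        linarith
    · right
      simp only [Sim, mem_ofPred_eq, lin3_apply, sub_zero]
      simp [ML]
      refine ⟨⟨?_, ?_, ?_⟩, by linarith⟩
      · have := mul_nonneg r0.le c3
        linarith
      · have := mul_nonneg ri.le c4
        linarith
      · nlinarith
  have h1 : volume (D4 a b s) ≤ volume (Sim (lin3 MU) 0 1) + volume (Sim (lin3 ML) 0 1) :=
    (measure_mono hsub).trans (measure_union_le _ _)
  rw [vU, vL, ← ENNReal.ofReal_add (by positivity) (by positivity)] at h1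
  have h2 := ENNReal.toReal_mono ENNReal.ofReal_ne_top h1
  rw [ENNReal.toReal_ofReal (by positivity)] at h2
  refine h2.trans (le_of_eq ?_)
  field_simp
  ring

end

end OrbPoly
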