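import Mathlib

set_option autoImplicit false

open Set MeasureTheory
open scoped ContDiff

namespace OrbPoly

/-- Euclidean `k`-space. -/
abbrev E (k : ℕ) := EuclideanSpace ℝ (Fin k)

variable {k : ℕ}

/-- The orbit `Γ w` of a point under a subgroup `Γ` of `O(k)`. -/
def orb (Γ : Subgroup (E k ≃ₗᵢ[ℝ] E k)) (w : E k) : Set (E k) := {v | ∃ g ∈ Γ, g w = v}

/-- The orbit polytope `Q_w = conv (Γ w)`. -/
def Q (Γ : Subgroup (E k ≃ₗᵢ[ℝ] E k)) (w : E k) : Set (E k) := convexHull ℝ (orb Γ w)

/-- The polar body `P = {x : ⟨x,y⟩ ≤ 1 for all y in A}`. -/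
def polarBody (A : Set (E k)) : Set (E k) := {x | ∀ y ∈ A, inner ℝ x y ≤ 1}

/-- `{s,t}` is an edge of the polytope `conv V`: the segment `[s,t]` is an exposed face. -/
def IsEdge (V : Set (E k)) (s t : E k) : Prop :=
  s ≠ t ∧ IsExposed ℝ (convexHull ℝ V) (segment ℝ s t)

/-- The face `F_st` of the polar body of `conv V`: the intersection of the facets of the polar body
that correspond to `s` and to `t`. -/
def ridge (V : Set (E k)) (s t : E k) : Set (E k) :=
  {x ∈ polarBody (convexHull ℝ V) | inner ℝ x s = 1 ∧ inner ℝ x t = 1}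

open Classical in
/-- The weight `c_st` (for the polytope `conv V`): `vol_{k-2}(F_st) / (‖s‖ ‖t‖ sin θ_st)` for an
edge `{s,t}` and `0` otherwise.  The `(k-2)`-dimensional volume is Mathlib's Euclidean Hausdorff
measure, i.e. the Hausdorff measure normalised to agree with Lebesgue measure. -/
noncomputable def weight (V : Set (E k)) (s t : E k) : ℝ :=
  if IsEdge V s t then
    (Measure.euclideanHausdorffMeasure (k - 2) (ridge V s t)).toReal /
      (‖s‖ * ‖t‖ * Real.sin (InnerProductGeometry.angle s t))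
  else 0

/-- The row sums of the matrix `(c_st)`. -/
noncomputable def rowSum (V : Set (E k)) (s : E k) : ℝ := ∑ᶠ t ∈ V, weight V s t

/-- The random walk matrix `T = (c_st / d)` of the polytope `conv V`, `d` being the row sum. -/
noncomputable def T (V : Set (E k)) (s t : E k) : ℝ := weight V s t / rowSum V s

/-- The second largest eigenvalue
`sup {vᵀ T v / vᵀ v : v ⟂ 𝟙, v ≠ 0}` of the random walk matrix of `conv V`
(`v` is a function on the vertex set `V`). -/
noncomputable def secondEig (V : Set (E k)) : ℝ :=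
  sSup {ρ : ℝ | ∃ v : E k → ℝ, (∑ᶠ s ∈ V, v s) = 0 ∧ (∃ s ∈ V, v s ≠ 0) ∧
    ρ = (∑ᶠ s ∈ V, ∑ᶠ t ∈ V, v s * T V s t * v t) / ∑ᶠ s ∈ V, v s ^ 2}

/-- `λ₁(w) = λ₁(T(Q_w))`; the vertices of `Q_w` are the points of the orbit `Γ w`. -/
noncomputable def lambda1 (Γ : Subgroup (E k ≃ₗᵢ[ℝ] E k)) (w : E k) : ℝ := secondEig (orb Γ w)

/-- The face lattice of a polytope: its exposed faces (the empty face and the polytope itself
included), ordered by inclusion. -/
abbrev FaceLattice (A : Set (E k)) := {F : Set (E k) // IsExposed ℝ A F}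

/-- `w` and `w'` have the same combinatorial type: the face lattices of `Q_w` and `Q_{w'}` are
isomorphic. -/
def SameType (Γ : Subgroup (E k ≃ₗᵢ[ℝ] E k)) (w w' : E k) : Prop :=
  Nonempty (FaceLattice (Q Γ w) ≃o FaceLattice (Q Γ w'))

/-- The combinatorial-type class of `w` in the sphere of radius `r`. -/
def typeClass (Γ : Subgroup (E k ≃ₗᵢ[ℝ] E k)) (r : ℝ) (w : E k) : Set (E k) :=
  {w' | ‖w'‖ = r ∧ SameType Γ w w'}

/-- `S` is a connected component of a combinatorial-type class in the sphere of radius `r`. -/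
def IsStratum (Γ : Subgroup (E k ≃ₗᵢ[ℝ] E k)) (r : ℝ) (S : Set (E k)) : Prop :=
  ∃ w, ‖w‖ = r ∧ S = connectedComponentIn (typeClass Γ r w) w

/-- `M` is an embedded smooth submanifold of `ℝ^k` of codimension `m`: near each of its points it
is a regular level set of a smooth map to `ℝ^m`. -/
def IsSubmanifold (M : Set (E k)) : Prop :=
  ∃ m : ℕ, ∀ p ∈ M, ∃ (U : Set (E k)) (f : E k → E m), IsOpen U ∧ p ∈ U ∧ ContDiffOn ℝ ∞ f U ∧
    (∀ x ∈ U, Function.Surjective (fderiv ℝ f x)) ∧ M ∩ U = {x ∈ U | f x = 0}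

end OrbPoly
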