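import Pool.Agent.OrbPoly.WCont2

set_option autoImplicit false

open Set MeasureTheory Filter Topology Module

namespace OrbPoly

/-- Integer sign. -/
def sz (b : Bool) : ℤ := if b then -1 else 1

/-- Sign vector of an index. -/
def sv (g : G) : Fin 5 → ℤ :=
  ![if g.2.1 then -(sz g.2.2.1 * sz g.1) else sz g.2.2.1,
    if g.2.1 then sz g.2.2.1 else sz g.2.2.1 * sz g.1,
    if g.2.1 then -sz g.2.2.2 else sz g.2.2.2,
    sz g.2.2.2, sz g.1]

/-- Inner product of sign vectors. -/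
def NN (g h : G) : ℤ :=
  sv g 0 * sv h 0 + sv g 1 * sv h 1 + sv g 2 * sv h 2 + sv g 3 * sv h 3 + sv g 4 * sv h 4

/-- The point `(c,c,c,c,c)`. -/
noncomputable def dp (c : ℝ) : E 5 := !₂[c, c, c, c, c]

lemma act_dp (c : ℝ) (g : G) (i : Fin 5) : (act g (dp c)) i = c * (sv g i : ℝ) := by
  obtain ⟨e, j, a, b⟩ := g
  cases e <;> cases j <;> cases a <;> cases b <;> fin_cases i <;> simp [act, dp, sv, sz]

lemma inner_dp (c : ℝ) (g h : G) :
    inner ℝ (act g (dp c)) (act h (dp c)) = c ^ 2 * (NN g h : ℝ) := by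
  rw [inner_five]
  simp only [act_dp]
  rw [NN]
  push_cast
  ring

lemma inner_dp0 (c : ℝ) (h : G) :
    inner ℝ (dp c) (act h (dp c)) = c ^ 2 * (NN oneG h : ℝ) := by
  have := inner_dp c oneG h
  rwa [act_one] at this

lemma NN_one : NN oneG oneG = 5 := by decide

lemma norm_dp (c : ℝ) : ‖dp c‖ ^ 2 = 5 * c ^ 2 := by
  rw [norm_sq_five]
  simp [dp]
  ring

section

variable {c : ℝ} (hc : 0 < c) {g : G} (hg : NN oneG g = 1)

include hc hg

lemma Nn_dp : 0 < Nn g (dp c) := by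
  rw [Nn, norm_dp, inner_dp0, hg]
  push_cast
  positivity

lemma Mm_dp : 0 < Mm g (dp c) := by
  rw [Mm, norm_dp, inner_dp0, hg]
  push_cast
  nlinarith [sq_pos_of_pos hc]

end

lemma NN_ec : ∀ g : G, NN oneG g = 1 → ∀ h, h ≠ oneG → h ≠ g →
    NN oneG h + NN g h < NN oneG oneG + NN g oneG := by decide

lemma EC_dp {c : ℝ} (hc : 0 < c) {g : G} (hg : NN oneG g = 1) : EC g (dp c) := by
  intro h h1 h2
  have h3 := NN_ec g hg h h1 h2
  have h4 : inner ℝ (dp c + act g (dp c)) (act h (dp c)) =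
      c ^ 2 * ((NN oneG h + NN g h : ℤ) : ℝ) := by
    rw [inner_add_left, inner_dp0, inner_dp]
    push_cast
    ring
  have h5 : inner ℝ (dp c + act g (dp c)) (dp c) =
      c ^ 2 * ((NN oneG oneG + NN g oneG : ℤ) : ℝ) := by
    have e1 := inner_dp0 c oneG
    have e2 := inner_dp c g oneG
    rw [act_one] at e1 e2
    rw [inner_add_left, e1, e2]
    push_cast
    ring
  rw [h4, h5]
  have h6 : ((NN oneG h + NN g h : ℤ) : ℝ) < ((NN oneG oneG + NN g oneG : ℤ) : ℝ) := by
    exact_mod_cast h3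
  exact mul_lt_mul_of_pos_left h6 (by positivity)

/-- The orbit of a point with nonzero components spans. -/
lemma span_top {w : E 5} (hx : 0 < w 0 ^ 2 + w 1 ^ 2) (hz : 0 < w 2 ^ 2 + w 3 ^ 2)
    (ht : w 4 ≠ 0) : Submodule.span ℝ (range (fam w)) = ⊤ := by
  rw [← Submodule.orthogonal_eq_bot_iff, Submodule.eq_bot_iff]
  intro v hv
  rw [Submodule.mem_orthogonal] at hv
  have h1 : ∀ g : G, inner ℝ v (act g w) = 0 := by
    intro g
    rw [real_inner_comm]
    exact hv _ (Submodule.subset_span ⟨g, rfl⟩)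
  have e1 := h1 (false, false, false, false)
  have e2 := h1 (false, false, true, false)
  have e3 := h1 (false, false, false, true)
  have e4 := h1 (false, true, false, false)
  have e5 := h1 (false, true, true, false)
  have e6 := h1 (false, true, false, true)
  rw [inner_act] at e1 e2 e3 e4 e5 e6
  simp [val] at e1 e2 e3 e4 e5 e6
  have a1 : v 0 * w 0 + v 1 * w 1 = 0 := by linarith
  have k1 : v 2 * w 2 + v 3 * w 3 = 0 := by linarith
  have a2 : v 1 * w 0 - v 0 * w 1 = 0 := by linarith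
  have k2 : v 3 * w 2 - v 2 * w 3 = 0 := by linarith
  have t : v 4 * w 4 = 0 := by linarith
  have v0 : v 0 = 0 := by
    have : v 0 * (w 0 ^ 2 + w 1 ^ 2) = 0 := by linear_combination w 0 * a1 - w 1 * a2
    exact (mul_eq_zero.1 this).resolve_right hx.ne'
  have v1 : v 1 = 0 := by
    have : v 1 * (w 0 ^ 2 + w 1 ^ 2) = 0 := by linear_combination w 1 * a1 + w 0 * a2
    exact (mul_eq_zero.1 this).resolve_right hx.ne'
  have v2 : v 2 = 0 := by
    have : v 2 * (w 2 ^ 2 + w 3 ^ 2) = 0 := by linear_combination w 2 * k1 - w 3 * k2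
    exact (mul_eq_zero.1 this).resolve_right hz.ne'
  have v3 : v 3 = 0 := by
    have : v 3 * (w 2 ^ 2 + w 3 ^ 2) = 0 := by linear_combination w 3 * k1 + w 2 * k2
    exact (mul_eq_zero.1 this).resolve_right hz.ne'
  have v4 : v 4 = 0 := (mul_eq_zero.1 t).resolve_right ht
  ext i
  fin_cases i <;> simp [v0, v1, v2, v3, v4]

lemma sum_fam (w : E 5) : ∑ g : G, fam w g = 0 := by
  ext i
  have := sum_coord w i
  simpa [fam] using this

lemma coercive_dp {c : ℝ} (hc : 0 < c) :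
    ∃ κ > 0, ∀ y : E 5, ∃ h, κ * ‖y‖ ≤ inner ℝ y (act h (dp c)) := by
  obtain ⟨κ, hκ, h⟩ := exists_coercive (Finset.univ : Finset G) Finset.univ_nonempty
    (fam (dp c)) (sum_fam (dp c))
  refine ⟨κ, hκ, fun y => ?_⟩
  have hy : y ∈ Submodule.span ℝ (fam (dp c) '' ((Finset.univ : Finset G) : Set G)) := by
    rw [Finset.coe_univ, image_univ, span_top]
    · exact Submodule.mem_top
    · simp [dp]; positivity
    · simp [dp]; positivity
    · simp [dp]; exact hc.ne'
  obtain ⟨i, _, hi⟩ := h y hy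
  exact ⟨i, hi⟩

/-- Continuity of the ten weights at the demicube point. -/
theorem cw_tendsto_dp {c : ℝ} (hc : 0 < c) {g : G} (hg : NN oneG g = 1) :
    Tendsto (fun w => cw w g) (𝓝 (dp c)) (𝓝 (cw (dp c) g)) := by
  obtain ⟨κ, hκ, hco⟩ := coercive_dp hc
  exact cw_tendsto (Nn_dp hc hg) (Mm_dp hc hg) (EC_dp hc hg) hκ hco

/-! ### Symmetry -/

lemma perm_ok : ∀ g : G, NN oneG g = 1 → ∃ π : Equiv.Perm (Fin 5),
    (∀ i, sv si (π.symm i) = sv g i) ∧ (∀ h, ∃ h', ∀ i, sv h (π.symm i) = sv h' i) ∧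
      (∀ h, ∃ h', ∀ i, sv h (π i) = sv h' i) := by
  rintro ⟨e, j, a, b⟩
  cases e <;> cases j <;> cases a <;> cases b <;>
    first
    | exact fun h => absurd h (by decide)
    | exact fun _ => ⟨1, by decide, by decide, by decide⟩
    | exact fun _ => ⟨Equiv.swap 0 1, by decide, by decide, by decide⟩
    | exact fun _ => ⟨Equiv.swap 1 2, by decide, by decide, by decide⟩
    | exact fun _ => ⟨Equiv.swap 1 3, by decide, by decide, by decide⟩
    | exact fun _ => ⟨Equiv.swap 0 4, by decide, by decide, by decide⟩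
    | exact fun _ => ⟨Equiv.swap 2 4, by decide, by decide, by decide⟩
    | exact fun _ => ⟨Equiv.swap 3 4, by decide, by decide, by decide⟩
    | exact fun _ => ⟨Equiv.swap 1 2 * Equiv.swap 4 3, by decide, by decide, by decide⟩
    | exact fun _ => ⟨Equiv.swap 1 0 * Equiv.swap 4 2, by decide, by decide, by decide⟩
    | exact fun _ => ⟨Equiv.swap 1 0 * Equiv.swap 4 3, by decide, by decide, by decide⟩

/-- Coordinate permutation. -/
noncomputable def pm (π : Equiv.Perm (Fin 5)) : E 5 ≃ₗᵢ[ℝ] E 5 :=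
  LinearIsometryEquiv.piLpCongrLeft 2 ℝ ℝ π

lemma pm_apply (π : Equiv.Perm (Fin 5)) (v : E 5) (i : Fin 5) : (pm π v) i = v (π.symm i) := by
  simp [pm, LinearIsometryEquiv.piLpCongrLeft_apply, Equiv.piCongrLeft'_apply]

lemma cw_dp_eq (c : ℝ) {g : G} (hg : NN oneG g = 1) : cw (dp c) g = cw (dp c) si := by
  obtain ⟨π, h1, h2, h3⟩ := perm_ok g hg
  have e1 : pm π (dp c) = dp c := by
    ext i
    rw [pm_apply]
    have : ∀ k : Fin 5, (dp c) k = c := by intro k; fin_cases k <;> rfl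
    rw [this, this]
  have e2 : pm π (act si (dp c)) = act g (dp c) := by
    ext i
    rw [pm_apply, act_dp, act_dp, h1]
  have e3 : pm π '' orb Gam (dp c) = orb Gam (dp c) := by
    rw [orb_eq]
    refine Subset.antisymm ?_ ?_
    · rintro _ ⟨_, ⟨h, rfl⟩, rfl⟩
      obtain ⟨h', hh'⟩ := h2 h
      refine ⟨h', ?_⟩
      ext i
      change (act h' (dp c)) i = (pm π (act h (dp c))) i
      rw [pm_apply, act_dp, act_dp, hh']
    · rintro _ ⟨h, rfl⟩
      obtain ⟨h', hh'⟩ := h3 h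
      refine ⟨act h' (dp c), ⟨h', rfl⟩, ?_⟩
      ext i
      change (pm π (act h' (dp c))) i = (act h (dp c)) i
      rw [pm_apply, act_dp, act_dp, ← hh', Equiv.apply_symm_apply]
  have h4 := weight_iso (pm π) (orb Gam (dp c)) (dp c) (act si (dp c))
  rw [e1, e2, e3] at h4
  exact h4

end OrbPoly
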