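import Pool.Agent.OrbPoly.Local

set_option autoImplicit false

open Set Filter Topology

namespace OrbPoly

lemma amax_add {ι : Type} [Fintype ι] [Nonempty ι] {k : ℕ} {f : ι → E k} {y z : E k} {S : Set ι}
    (hy : amax f y = S) (hz : amax f z = S) : amax f (y + z) = S := by
  have hne : S.Nonempty := hy ▸ exists_amax_mem f y
  obtain ⟨i0, hi0⟩ := hne
  have h1 : i0 ∈ amax f y := by rw [hy]; exact hi0
  have h2 : i0 ∈ amax f z := by rw [hz]; exact hi0
  ext i
  constructor
  · intro h
    have h3 := h i0
    rw [inner_add_left, inner_add_left] at h3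
    have h4 := h1 i
    have h5 := h2 i
    rw [← hy]
    intro j
    have h6 := h1 j
    linarith
  · intro h j
    have h3 : i ∈ amax f y := by rw [hy]; exact h
    have h4 : i ∈ amax f z := by rw [hz]; exact h
    rw [inner_add_left, inner_add_left]
    exact add_le_add (h3 j) (h4 j)

/-- If `S` is stable under left multiplication by `g`, then the rotated functional exposes it as
well. -/
lemma amax_rot {w y : E 5} {S : Set G} (g : G) (hS : ∀ h, mulG g h ∈ S ↔ h ∈ S)
    (hy : amax (fam w) y = S) : amax (fam w) (act (invG g) y) = S := by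
  ext h
  rw [mem_amax_act, hy]
  exact hS h

/-- The argmax set of a functional fixed by `invG g` is stable under left multiplication. -/
lemma stable_of_fixed {w y0 : E 5} (g : G) (h0 : act (invG g) y0 = y0) (h : G) :
    mulG g h ∈ amax (fam w) y0 ↔ h ∈ amax (fam w) y0 := by
  rw [← mem_amax_act, h0]

/-- The index `(x, -z, t)`. -/
def n2 : G := (false, false, false, true)
/-- The index `(-x, z, t)`. -/
def n1 : G := (false, false, true, false)
/-- The index `(conj x, z, -t)`. -/
def si : G := (true, false, false, false)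
/-- The index `(-conj x, z, -t)`. -/
def si' : G := (true, false, true, false)
/-- The index `(i conj x, i z, -t)`. -/
def th : G := (true, true, false, false)
/-- The index `(-i conj x, i z, -t)`. -/
def th' : G := (true, true, true, false)

lemma five (a b c d e : ℝ) : ((!₂[a, b, c, d, e] : E 5) 0 = a) ∧ ((!₂[a, b, c, d, e] : E 5) 1 = b) ∧
    ((!₂[a, b, c, d, e] : E 5) 2 = c) ∧ ((!₂[a, b, c, d, e] : E 5) 3 = d) ∧
    ((!₂[a, b, c, d, e] : E 5) 4 = e) := ⟨rfl, rfl, rfl, rfl, rfl⟩

/-- Functional `(1,1,0,0,0)`. -/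
noncomputable def ya : E 5 := !₂[1, 1, 0, 0, 0]
/-- Functional `(1,0,0,0,0)`. -/
noncomputable def yb : E 5 := !₂[1, 0, 0, 0, 0]

/-- `S` exposed by `ya` for `w` and exposed for `p`: it is exposed for `p` by a multiple of
`ya`. -/
lemma exists_ya {w p y : E 5} (h : amax (fam p) y = amax (fam w) ya) :
    ∃ c : ℝ, amax (fam p) !₂[c, c, 0, 0, 0] = amax (fam w) ya := by
  have f1 : act (invG n2) ya = ya := by
    ext i; fin_cases i <;> simp [act, invG, n2, ya]
  have f2 : act (invG th) ya = ya := by
    ext i; fin_cases i <;> simp [act, invG, th, ya]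
  have s1 := stable_of_fixed (w := w) n2 f1
  have s2 := stable_of_fixed (w := w) th f2
  have g1 := amax_add h (amax_rot n2 s1 h)
  have g2 := amax_add g1 (amax_rot th s2 g1)
  refine ⟨2 * (y 0 + y 1), ?_⟩
  rw [← g2]
  congr 1
  ext i
  fin_cases i <;> simp [act, invG, th, n2] <;> ring

lemma exists_yb {w p y : E 5} (h : amax (fam p) y = amax (fam w) yb) :
    ∃ c : ℝ, amax (fam p) !₂[c, 0, 0, 0, 0] = amax (fam w) yb := by
  have f1 : act (invG n2) yb = yb := by
    ext i; fin_cases i <;> simp [act, invG, n2, yb]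
  have f2 : act (invG si) yb = yb := by
    ext i; fin_cases i <;> simp [act, invG, si, yb]
  have s1 := stable_of_fixed (w := w) n2 f1
  have s2 := stable_of_fixed (w := w) si f2
  have g1 := amax_add h (amax_rot n2 s1 h)
  have g2 := amax_add g1 (amax_rot si s2 g1)
  refine ⟨4 * y 0, ?_⟩
  rw [← g2]
  congr 1
  ext i
  fin_cases i <;> simp [act, invG, si, n2] <;> ring

/-- If the functional `y` does not separate `g` and `g σ` on the orbit of `p`, then neither does
`y0` on the orbit of `w`. -/
lemma transfer {w p y y0 : E 5} (h : amax (fam p) y = amax (fam w) y0) (σ : G)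
    (hp : ∀ g, inner ℝ y (fam p (mulG g σ)) = inner ℝ y (fam p g)) :
    ∃ g, inner ℝ y0 (fam w (mulG g σ)) = inner ℝ y0 (fam w g) := by
  obtain ⟨g, hg⟩ := exists_amax_mem (fam w) y0
  refine ⟨g, ?_⟩
  have h1 : g ∈ amax (fam p) y := by rw [h]; exact hg
  have h2 : mulG g σ ∈ amax (fam p) y := by
    intro j
    rw [hp]
    exact h1 j
  rw [h] at h2
  exact le_antisymm (hg _) (h2 _)

/-- Equality of the exposed families forces the linear equations. -/
theorem mem_L_of_expo_eq {w p : E 5} (h : expo (fam w) = expo (fam p)) : w ∈ L p := by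
  have hex : ∀ y0 : E 5, ∃ y, amax (fam p) y = amax (fam w) y0 := by
    intro y0
    have : amax (fam w) y0 ∈ expo (fam p) := by rw [← h]; exact ⟨y0, rfl⟩
    exact this
  rw [mem_L]
  refine ⟨fun hp => ?_, fun hp => ?_, fun hp => ?_, fun hp => ?_, fun hp => ?_, fun hp => ?_⟩
  · obtain ⟨y, hy⟩ := hex ya
    obtain ⟨c, hc⟩ := exists_ya hy
    obtain ⟨g, hg⟩ := transfer hc si' (by
      rintro ⟨e, j, a, b⟩
      rw [fam, fam, inner_act, inner_act]
      cases e <;> cases j <;> cases a <;> simp [val, mulG, si', hp])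
    obtain ⟨e, j, a, b⟩ := g
    rw [fam, fam, inner_act, inner_act] at hg
    cases e <;> cases j <;> cases a <;> simp [val, mulG, si', ya] at hg <;> linarith
  · obtain ⟨y, hy⟩ := hex ya
    obtain ⟨c, hc⟩ := exists_ya hy
    obtain ⟨g, hg⟩ := transfer hc si (by
      rintro ⟨e, j, a, b⟩
      rw [fam, fam, inner_act, inner_act]
      cases e <;> cases j <;> cases a <;> simp [val, mulG, si, hp])
    obtain ⟨e, j, a, b⟩ := g
    rw [fam, fam, inner_act, inner_act] at hg
    cases e <;> cases j <;> cases a <;> simp [val, mulG, si, ya] at hg <;> linarith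
  · obtain ⟨y, hy⟩ := hex yb
    obtain ⟨c, hc⟩ := exists_yb hy
    obtain ⟨g, hg⟩ := transfer hc th (by
      rintro ⟨e, j, a, b⟩
      rw [fam, fam, inner_act, inner_act]
      cases e <;> cases j <;> cases a <;> simp [val, mulG, th, hp])
    obtain ⟨e, j, a, b⟩ := g
    rw [fam, fam, inner_act, inner_act] at hg
    cases e <;> cases j <;> cases a <;> simp [val, mulG, th, yb] at hg <;> linarith
  · obtain ⟨y, hy⟩ := hex yb
    obtain ⟨c, hc⟩ := exists_yb hy
    obtain ⟨g, hg⟩ := transfer hc th' (by
      rintro ⟨e, j, a, b⟩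
      rw [fam, fam, inner_act, inner_act]
      cases e <;> cases j <;> cases a <;> simp [val, mulG, th', hp])
    obtain ⟨e, j, a, b⟩ := g
    rw [fam, fam, inner_act, inner_act] at hg
    cases e <;> cases j <;> cases a <;> simp [val, mulG, th', yb] at hg <;> linarith
  · obtain ⟨y, hy⟩ := hex (fam w oneG)
    rw [amax_self (fam_norm w)] at hy
    have h1 : oneG ∈ amax (fam p) y := by rw [hy]; rfl
    have h2 : n2 ∈ amax (fam p) y := by
      intro j
      have h3 : fam p n2 = fam p oneG := by
        ext i; fin_cases i <;> simp [fam, act, n2, oneG, hp.1, hp.2]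
      rw [h3]
      exact h1 j
    rw [hy] at h2
    have h3 : fam w n2 = fam w oneG := h2
    have e2 : (fam w n2) 2 = (fam w oneG) 2 := by rw [h3]
    have e3 : (fam w n2) 3 = (fam w oneG) 3 := by rw [h3]
    simp [fam, act, n2, oneG] at e2 e3
    exact ⟨by linarith, by linarith⟩
  · by_contra hw
    obtain ⟨y, hy⟩ := hex !₂[0, 0, 0, 0, w 4]
    have hS : amax (fam w) !₂[0, 0, 0, 0, w 4] = {g : G | g.1 = false} := by
      have hpos : 0 < w 4 * w 4 := mul_self_pos.2 hw
      ext ⟨e, j, a, b⟩
      constructor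
      · intro hh
        have h1 := hh oneG
        rw [fam, fam, inner_act, inner_act] at h1
        cases e
        · rfl
        · exfalso
          simp [val, oneG] at h1
          linarith
      · intro hh
        have hh' : e = false := hh
        subst hh'
        rintro ⟨e', j', a', b'⟩
        rw [fam, fam, inner_act, inner_act]
        cases e' <;> simp [val] <;> linarith
    rw [hS] at hy
    have s1 : ∀ h, mulG n1 h ∈ {g : G | g.1 = false} ↔ h ∈ {g : G | g.1 = false} := by
      rintro ⟨e, j, a, b⟩; simp [mulG, n1]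
    have s2 : ∀ h, mulG n2 h ∈ {g : G | g.1 = false} ↔ h ∈ {g : G | g.1 = false} := by
      rintro ⟨e, j, a, b⟩; simp [mulG, n2]
    have g1 := amax_add hy (amax_rot n1 s1 hy)
    have g2 := amax_add g1 (amax_rot n2 s2 g1)
    have h1 : si ∈ amax (fam p) (y + act (invG n1) y + act (invG n2) (y + act (invG n1) y)) := by
      rintro ⟨e, j, a, b⟩
      rw [fam, fam, inner_act, inner_act]
      cases e <;> cases j <;> cases a <;> simp [val, si, act, invG, n1, n2, hp]
    rw [g2] at h1
    have h3 : si.1 = false := h1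
    simp [si] at h3

/-- Near `p`, a point with the combinatorial type of `p` lies in `L p`. -/
theorem eventually_mem_L (p : E 5) : ∀ᶠ w in 𝓝 p, SameType Gam p w → w ∈ L p := by
  have h1 := eventually_expo_eq' (fam p) (fam_norm p)
  have h2 : Tendsto fam (𝓝 p) (𝓝 (fam p)) := continuous_fam.continuousAt
  filter_upwards [h2.eventually h1] with w hw hs
  refine mem_L_of_expo_eq (hw (fam_norm w) ?_)
  rw [SameType, Q_eq, Q_eq] at hs
  exact hs

end OrbPoly
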