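import Pool.Agent.OrbPoly.Weight
import Pool.Agent.OrbPoly.LocalB

set_option autoImplicit false

open Set

namespace OrbPoly

/-- The open cell: `0 < x₁ < x₀`, `z ≠ 0`, `t > 0`. -/
def Cell (w : E 5) : Prop := 0 < w 1 ∧ w 1 < w 0 ∧ ¬ (w 2 = 0 ∧ w 3 = 0) ∧ 0 < w 4

lemma Cell.stab {w : E 5} (hw : Cell w) {g : G} (h : act g w = w) : g = oneG := by
  obtain ⟨h1, h2, hz, ht⟩ := hw
  have e0 : (act g w) 0 = w 0 := by rw [h]
  have e1 : (act g w) 1 = w 1 := by rw [h]
  have e2 : (act g w) 2 = w 2 := by rw [h]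
  have e3 : (act g w) 3 = w 3 := by rw [h]
  obtain ⟨e, j, a, b⟩ := g
  cases e <;> cases j <;> cases a <;> cases b <;> simp [act] at e0 e1 e2 e3 <;>
    first
    | rfl
    | (exfalso; linarith)
    | (exfalso; exact hz ⟨by linarith, by linarith⟩)

lemma fam_injective {w : E 5} (hst : ∀ g, act g w = w → g = oneG) :
    Function.Injective (fam w) := by
  intro g h hgh
  have h1 : act (mulG (invG h) g) w = w := by
    rw [← act_act]
    change act (invG h) (fam w g) = w
    rw [hgh]
    change act (invG h) (act h w) = w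
    rw [act_act, invG_mul, act_one]
  have h2 := hst _ h1
  have h3 : mulG h (mulG (invG h) g) = mulG h oneG := by rw [h2]
  rwa [mul_invG_cancel, mulG_one] at h3

/-- Edges from functionals. -/
lemma isEdge_of_amax {w : E 5} {g : G} (hne : w ≠ act g w) {y : E 5}
    (hy : amax (fam w) y = {oneG, g}) : IsEdge (orb Gam w) w (act g w) := by
  refine ⟨hne, fun _ => ⟨innerSL ℝ y, ?_⟩⟩
  have ho : orb Gam w = range (fam w) := orb_eq w
  rw [ho]
  have h1 : oneG ∈ amax (fam w) y := by rw [hy]; simp
  have h2 : g ∈ amax (fam w) y := by rw [hy]; simp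
  have hw1 : fam w oneG = w := act_one w
  have h12 : inner ℝ y (act g w) = inner ℝ y w := by
    have a := h1 g
    have b := h2 oneG
    rw [hw1] at a b
    exact le_antisymm a b
  ext x
  constructor
  · intro hx
    have hx' : x ∈ convexHull ℝ (range (fam w)) := by
      refine (convex_convexHull ℝ _).segment_subset ?_ ?_ hx
      · exact subset_convexHull ℝ _ ⟨oneG, hw1⟩
      · exact subset_convexHull ℝ _ ⟨g, rfl⟩
    refine ⟨hx', fun z hz => ?_⟩
    change inner ℝ y z ≤ inner ℝ y x
    have h3 : inner ℝ y x = inner ℝ y w := by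
      obtain ⟨a, b, ha, hb, hab, rfl⟩ := hx
      rw [inner_add_right, real_inner_smul_right, real_inner_smul_right, h12, ← add_mul, hab,
        one_mul]
    rw [h3]
    refine le_of_mem_convexHull (fun i => ?_) hz
    have := h1 i
    rwa [hw1] at this
  · rintro ⟨hx1, hx2⟩
    have hx3 : ∀ i, inner ℝ y (fam w i) ≤ inner ℝ y x := fun i =>
      hx2 _ (subset_convexHull ℝ _ ⟨i, rfl⟩)
    have h4 := mem_convexHull_amax hx1 hx3
    have h5 : inner ℝ y x = inner ℝ y w := by
      refine le_antisymm ?_ ?_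
      · refine le_of_mem_convexHull (fun i => ?_) hx1
        have := h1 i
        rwa [hw1] at this
      · have := hx3 oneG
        rwa [hw1] at this
    have h6 : (fam w) '' {i | inner ℝ y (fam w i) = inner ℝ y x} ⊆ {w, act g w} := by
      rintro _ ⟨i, hi, rfl⟩
      have h7 : i ∈ amax (fam w) y := by
        intro j
        have h8 : inner ℝ y (fam w i) = inner ℝ y x := hi
        rw [h8, h5]
        have := h1 j
        rwa [hw1] at this
      rw [hy] at h7
      rcases h7 with rfl | h7
      · left; exact hw1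
      · right; rw [mem_singleton_iff] at h7; rw [h7]; rfl
    have h7 := convexHull_mono h6 h4
    rwa [convexHull_pair] at h7

/-- A point of a segment between two points of the same norm, having that norm, is an end
point. -/
lemma endpoint {k : ℕ} {s t x : E k} {r : ℝ} (hs : ‖s‖ = r) (ht : ‖t‖ = r) (hx : ‖x‖ = r)
    (h : x ∈ segment ℝ s t) : x = s ∨ x = t := by
  obtain ⟨a, b, ha, hb, hab, hxe⟩ := h
  have key : ∀ u : E k, ‖u‖ = r → inner ℝ x u ≤ r ^ 2 ∧ (inner ℝ x u = r ^ 2 → x = u) := by
    intro u hu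
    have h1 : ‖x - u‖ ^ 2 = r ^ 2 - 2 * inner ℝ x u + r ^ 2 := by
      rw [@norm_sub_sq_real, hx, hu]
    constructor
    · nlinarith [sq_nonneg ‖x - u‖]
    · intro h2
      rw [h2] at h1
      have h3 : ‖x - u‖ ^ 2 = 0 := by rw [h1]; ring
      have h4 : ‖x - u‖ = 0 := by simpa using h3
      exact sub_eq_zero.1 (norm_eq_zero.1 h4)
  obtain ⟨s1, s2⟩ := key s hs
  obtain ⟨t1, t2⟩ := key t ht
  have h5 : r ^ 2 = a * inner ℝ x s + b * inner ℝ x t := by
    have h6 : inner ℝ x x = r ^ 2 := by rw [real_inner_self_eq_norm_sq, hx]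
    rw [← h6]
    conv_lhs => rw [← hxe]
    rw [hxe, ← real_inner_smul_right, ← real_inner_smul_right, ← inner_add_right, hxe]
  by_cases ha0 : a = 0
  · right
    apply t2
    have hb1 : b = 1 := by linarith
    rw [ha0, hb1] at h5
    linarith
  · left
    apply s2
    have hapos : 0 < a := lt_of_le_of_ne ha (Ne.symm ha0)
    by_contra hne
    have hlt : inner ℝ x s < r ^ 2 := lt_of_le_of_ne s1 hne
    nlinarith [mul_lt_mul_of_pos_left hlt hapos, mul_le_mul_of_nonneg_left t1 hb]

/-- Functionals from edges. -/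
lemma exists_of_isEdge {w : E 5} {g : G} (he : IsEdge (orb Gam w) w (act g w)) :
    ∃ y, oneG ∈ amax (fam w) y ∧ g ∈ amax (fam w) y ∧
      ∀ h ∈ amax (fam w) y, act h w = w ∨ act h w = act g w := by
  obtain ⟨hne, hexp⟩ := he
  rw [orb_eq w] at hexp
  obtain ⟨l, hl⟩ := hexp ⟨w, left_mem_segment ℝ _ _⟩
  obtain ⟨y, hy⟩ := exists_inner_eq l
  simp only [hy] at hl
  have hmem : ∀ h : G, act h w ∈ segment ℝ w (act g w) ↔ h ∈ amax (fam w) y := by
    intro h
    rw [← exposed_index, hl]
    rfl
  refine ⟨y, ?_, ?_, ?_⟩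
  · rw [← hmem, act_one]
    exact left_mem_segment ℝ _ _
  · rw [← hmem]
    exact right_mem_segment ℝ _ _
  · intro h hh
    rw [← hmem] at hh
    exact endpoint rfl (norm_act g w) (norm_act h w) hh

lemma far_zero {w0 w1 y0 y1 a1 a2 b1 b2 : ℝ} (q1 : 0 < w1) (q2 : w1 < w0)
    (ha1 : a1 = y0 * w0 + y1 * w1) (ha2 : a2 = y1 * w0 - y0 * w1) (hb1 : b1 = y0 * w0 - y1 * w1)
    (hb2 : b2 = y0 * w1 + y1 * w0) (h : |a2| + |b1| ≤ a1 - b2) : a1 = 0 := by
  have e1 : a1 - b2 = (y0 - y1) * (w0 - w1) := by rw [ha1, hb2]; ring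
  have e2 : b1 - a2 = (y0 - y1) * (w0 + w1) := by rw [hb1, ha2]; ring
  have h1 : b1 - a2 ≤ |a2| + |b1| := by linarith [le_abs_self b1, neg_abs_le a2]
  have h2 : 0 ≤ |a2| + |b1| := by positivity
  have hy : y0 - y1 = 0 := by
    rcases lt_trichotomy (y0 - y1) 0 with hlt | heq | hgt
    · exfalso
      have : (y0 - y1) * (w0 - w1) < 0 := mul_neg_of_neg_of_pos hlt (by linarith)
      linarith
    · exact heq
    · exfalso
      have : 0 < (y0 - y1) * w1 := mul_pos hgt q1
      nlinarith
  have h3 : |a2| + |b1| ≤ 0 := by rw [e1, hy, zero_mul] at h; exact h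
  have h4 : b1 = 0 := abs_eq_zero.1 (by linarith [abs_nonneg a2, abs_nonneg b1])
  have h5 : y0 = y1 := by linarith
  rw [hb1, h5] at h4
  have h6 : y1 * (w0 - w1) = 0 := by linarith
  have h7 : y1 = 0 := (mul_eq_zero.1 h6).resolve_right (by linarith)
  rw [ha1, h5, h7]; ring

/-- The five indices that are never neighbours of the base vertex. -/
lemma not_isEdge {w : E 5} (hw : Cell w) {g : G}
    (hg : g = (false, false, true, true) ∨ g = (true, false, false, true) ∨
      g = (true, false, true, true) ∨ g = (true, true, true, false) ∨ g = (true, true, true, true)) :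
    ¬ IsEdge (orb Gam w) w (act g w) := by
  intro he
  obtain ⟨y, h1, h2, h3⟩ := exists_of_isEdge he
  have hinj := fam_injective (fun g h => hw.stab (g := g) h)
  have h3' : ∀ h ∈ amax (fam w) y, h = oneG ∨ h = g := by
    intro h hh
    rcases h3 h hh with h4 | h4
    · left; exact hw.stab h4
    · right; exact hinj h4
  obtain ⟨q1, q2, q3, q4⟩ := hw
  rw [amax_fam] at h1 h2 h3'
  set a1 := y 0 * w 0 + y 1 * w 1 with ha1
  set a2 := y 1 * w 0 - y 0 * w 1 with ha2
  set b1 := y 0 * w 0 - y 1 * w 1 with hb1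
  set b2 := y 0 * w 1 + y 1 * w 0 with hb2
  set k1 := y 2 * w 2 + y 3 * w 3 with hk1
  set k2 := y 3 * w 2 - y 2 * w 3 with hk2
  set t := y 4 * w 4 with ht
  have hb := h1
  rw [base_mem_iff] at hb
  obtain ⟨c1, c2, c3, c4, c5⟩ := hb
  have hval1 : val a1 a2 b1 b2 k1 k2 t oneG = a1 + k1 + t := by simp [val, oneG]
  -- membership of an index with the same value
  have hin : ∀ h : G, val a1 a2 b1 b2 k1 k2 t h = a1 + k1 + t → h ∈ am a1 a2 b1 b2 k1 k2 t := by
    intro h hh j
    rw [hh, ← hval1]
    exact h1 j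
  have hge := h2 oneG
  rw [hval1] at hge
  have l1 := le_abs_self b1
  have l2 := neg_abs_le b1
  have l3 := le_abs_self b2
  have l4 := neg_abs_le b2
  have l5 := le_abs_self k2
  have l6 := neg_abs_le k2
  rcases hg with rfl | rfl | rfl | rfl | rfl
  · -- `(-x, -z, t)`
    simp [val] at hge
    have hk : k1 = 0 := by linarith
    have := h3' (false, false, false, true) (hin _ (by simp [val, hk]))
    revert this; decide
  · simp [val] at hge
    have hk : k1 = 0 := by linarith
    have := h3' (false, false, false, true) (hin _ (by simp [val, hk]))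
    revert this; decide
  · simp [val] at hge
    have hk : k1 = 0 := by linarith
    have := h3' (false, false, false, true) (hin _ (by simp [val, hk]))
    revert this; decide
  · simp [val] at hge
    have hle : |a2| + |b1| ≤ a1 - b2 := by linarith
    have haz := far_zero q1 q2 ha1 ha2 hb1 hb2 hle
    have := h3' (false, false, true, false) (hin _ (by simp [val, haz]))
    revert this; decide
  · simp [val] at hge
    have hle : |a2| + |b1| ≤ a1 - b2 := by linarith
    have haz := far_zero q1 q2 ha1 ha2 hb1 hb2 hle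
    have := h3' (false, false, true, false) (hin _ (by simp [val, haz]))
    revert this; decide

end OrbPoly
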