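import Pool.Agent.OrbPoly.Defs

set_option autoImplicit false

open Set

namespace OrbPoly

variable {ι : Type} [Fintype ι] [Nonempty ι] {k : ℕ}

/-- The set of indices where the functional `⟨y, ·⟩` is maximal. -/
def amax (f : ι → E k) (y : E k) : Set ι := {i | ∀ j, inner ℝ y (f j) ≤ inner ℝ y (f i)}

/-- The vertex sets of the nonempty exposed faces of `conv (range f)`. -/
def expo (f : ι → E k) : Set (Set ι) := {S | ∃ y, amax f y = S}

omit [Fintype ι] [Nonempty ι] in
lemma le_of_mem_convexHull {f : ι → E k} {y : E k} {M : ℝ} (h : ∀ i, inner ℝ y (f i) ≤ M)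
    {x : E k} (hx : x ∈ convexHull ℝ (range f)) : inner ℝ y x ≤ M := by
  have hc : Convex ℝ {x : E k | inner ℝ y x ≤ M} := by
    have := convex_halfSpace_le (𝕜 := ℝ) (f := fun x : E k => inner ℝ y x)
      (by constructor
          · intro a b; exact inner_add_right _ _ _
          · intro c a; exact real_inner_smul_right _ _ _) M
    exact this
  exact convexHull_min (by rintro _ ⟨i, rfl⟩; exact h i) hc hx

omit [Nonempty ι] in
/-- A point of the hull where a functional is maximal is in the hull of the maximal generators. -/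
lemma mem_convexHull_amax {f : ι → E k} {y : E k} {x : E k}
    (hx : x ∈ convexHull ℝ (range f)) (h : ∀ i, inner ℝ y (f i) ≤ inner ℝ y x) :
    x ∈ convexHull ℝ (f '' {i | inner ℝ y (f i) = inner ℝ y x}) := by
  classical
  rw [convexHull_range_eq_exists_affineCombination] at hx
  obtain ⟨s, w, hw0, hw1, hx⟩ := hx
  rw [Finset.affineCombination_eq_linear_combination _ _ _ hw1] at hx
  have hyx : inner ℝ y x = ∑ i ∈ s, w i * inner ℝ y (f i) := by
    rw [← hx, inner_sum]
    refine Finset.sum_congr rfl fun i _ => ?_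
    rw [real_inner_smul_right]
  generalize hM : inner ℝ y x = M at h hyx ⊢
  have hzero : ∀ i ∈ s, w i * (M - inner ℝ y (f i)) = 0 := by
    have hnn : ∀ i ∈ s, 0 ≤ w i * (M - inner ℝ y (f i)) := fun i hi =>
      mul_nonneg (hw0 i hi) (sub_nonneg.2 (h i))
    have hsum : ∑ i ∈ s, w i * (M - inner ℝ y (f i)) = 0 := by
      simp only [mul_sub, Finset.sum_sub_distrib, ← Finset.sum_mul, hw1, one_mul]
      rw [← hyx]; ring
    exact fun i hi => (Finset.sum_eq_zero_iff_of_nonneg hnn).1 hsum i hi
  have hx' : ∑ i ∈ s.filter (fun i => inner ℝ y (f i) = M), w i • f i = x := by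
    rw [← hx]
    refine Finset.sum_subset (Finset.filter_subset _ _) ?_
    intro i hi hni
    have : w i = 0 := by
      rcases mul_eq_zero.1 (hzero i hi) with h0 | h0
      · exact h0
      · exact absurd (Finset.mem_filter.2 ⟨hi, by linarith⟩) hni
    simp [this]
  have hw1' : ∑ i ∈ s.filter (fun i => inner ℝ y (f i) = M), w i = 1 := by
    rw [← hw1]
    refine Finset.sum_subset (Finset.filter_subset _ _) ?_
    intro i hi hni
    rcases mul_eq_zero.1 (hzero i hi) with h0 | h0
    · exact h0
    · exact absurd (Finset.mem_filter.2 ⟨hi, by linarith⟩) hni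
  rw [← hx']
  refine (convex_convexHull ℝ _).sum_mem (fun i hi => hw0 i (Finset.mem_filter.1 hi).1) hw1' ?_
  intro i hi
  exact subset_convexHull ℝ _ ⟨i, (Finset.mem_filter.1 hi).2, rfl⟩

/-- The poset of the (index sets of the) faces: the empty set and the sets in `expo f`. -/
abbrev FaceSets (f : ι → E k) := {S : Set ι // S = ∅ ∨ S ∈ expo f}

omit [Fintype ι] in
lemma exists_inner_eq (l : E k →L[ℝ] ℝ) : ∃ y : E k, ∀ x, l x = inner ℝ y x :=
  ⟨(InnerProductSpace.toDual ℝ (E k)).symm l, fun x => by
    simp⟩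

omit [Fintype ι] [Nonempty ι] in
/-- Membership of generators in an exposed face. -/
lemma exposed_index {f : ι → E k} {y : E k} (i : ι) :
    f i ∈ {x ∈ convexHull ℝ (range f) | ∀ z ∈ convexHull ℝ (range f), inner ℝ y z ≤ inner ℝ y x} ↔
      i ∈ amax f y := by
  constructor
  · rintro ⟨_, h⟩ j
    exact h _ (subset_convexHull ℝ _ ⟨j, rfl⟩)
  · intro h
    exact ⟨subset_convexHull ℝ _ ⟨i, rfl⟩, fun z hz => le_of_mem_convexHull h hz⟩

lemma exists_amax_mem (f : ι → E k) (y : E k) : (amax f y).Nonempty := by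
  obtain ⟨i, hi⟩ := Finite.exists_max (fun i => inner ℝ y (f i))
  exact ⟨i, hi⟩

/-- The face lattice of `conv (range f)` is isomorphic to `FaceSets f`. -/
noncomputable def faceIso (f : ι → E k) :
    FaceLattice (convexHull ℝ (range f)) ≃o FaceSets f := by
  classical
  have key : ∀ F : FaceLattice (convexHull ℝ (range f)),
      {i | f i ∈ F.1} = ∅ ∨ {i | f i ∈ F.1} ∈ expo f := by
    rintro ⟨F, hF⟩
    rcases F.eq_empty_or_nonempty with h0 | hne
    · left; simp [h0]
    · right
      obtain ⟨l, hl⟩ := hF hne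
      obtain ⟨y, hy⟩ := exists_inner_eq l
      refine ⟨y, ?_⟩
      ext i
      change i ∈ amax f y ↔ f i ∈ F
      rw [← exposed_index]
      rw [hl]
      simp only [hy]
  refine RelIso.ofSurjective (OrderEmbedding.ofMapLEIff
    (fun F => (⟨{i | f i ∈ F.1}, key F⟩ : FaceSets f)) ?_) ?_
  · rintro ⟨F, hF⟩ ⟨G, hG⟩
    constructor
    · intro h x hx
      change {i | f i ∈ F} ⊆ {i | f i ∈ G} at h
      change x ∈ F at hx
      obtain ⟨l, hl⟩ := hF ⟨x, hx⟩
      obtain ⟨y, hy⟩ := exists_inner_eq l
      simp only [hy] at hl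
      have hx' := hx
      rw [hl] at hx'
      have h1 := mem_convexHull_amax hx'.1
        (fun i => hx'.2 _ (subset_convexHull ℝ _ ⟨i, rfl⟩))
      refine convexHull_min ?_ (hG.convex (convex_convexHull ℝ _)) h1
      rintro _ ⟨i, hi, rfl⟩
      apply h
      change f i ∈ F
      rw [hl]
      refine ⟨subset_convexHull ℝ _ ⟨i, rfl⟩, fun z hz => ?_⟩
      have := hx'.2 z hz
      change inner ℝ y (f i) = inner ℝ y x at hi
      linarith
    · intro h i hi
      exact h hi
  · rintro ⟨S, hS⟩
    rcases hS with rfl | ⟨y, rfl⟩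
    · refine ⟨⟨∅, isExposed_empty⟩, ?_⟩
      apply Subtype.ext
      simp
    · refine ⟨⟨{x ∈ convexHull ℝ (range f) | ∀ z ∈ convexHull ℝ (range f),
        inner ℝ y z ≤ inner ℝ y x}, fun _ => ⟨innerSL ℝ y, rfl⟩⟩, ?_⟩
      apply Subtype.ext
      ext i
      exact exposed_index i

/-- Equal families of exposed index sets give isomorphic face lattices. -/
lemma nonempty_iso_of_expo_eq {f f' : ι → E k} (h : expo f = expo f') :
    Nonempty (FaceLattice (convexHull ℝ (range f)) ≃o FaceLattice (convexHull ℝ (range f'))) := by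
  refine ⟨(faceIso f).trans (OrderIso.trans ?_ (faceIso f').symm)⟩
  exact
    { toFun := fun S => ⟨S.1, by rw [← h]; exact S.2⟩
      invFun := fun S => ⟨S.1, by rw [h]; exact S.2⟩
      left_inv := fun S => rfl
      right_inv := fun S => rfl
      map_rel_iff' := by intro a b; exact Iff.rfl }

end OrbPoly
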