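import Pool.Agent.OrbPoly.Rigid

set_option autoImplicit false

open Set

namespace OrbPoly

/-- Index type of the group: level, class, sign on the first plane, sign on the second plane. -/
abbrev G := Bool × Bool × Bool × Bool

/-- Sign of a Boolean. -/
def sg (b : Bool) : ℝ := if b then -1 else 1

@[simp] lemma sg_true : sg true = -1 := rfl
@[simp] lemma sg_false : sg false = 1 := rfl
lemma sg_sq (b : Bool) : sg b * sg b = 1 := by cases b <;> simp [sg]
lemma sg_not (b : Bool) : sg (!b) = -sg b := by cases b <;> simp [sg]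
lemma sg_xor (a b : Bool) : sg (xor a b) = sg a * sg b := by cases a <;> cases b <;> simp [sg]

/-- The action of the index `g` on `ℝ⁵`. -/
noncomputable def act (g : G) (w : E 5) : E 5 :=
  if g.2.1 then
    !₂[-(sg g.2.2.1 * sg g.1 * w 1), sg g.2.2.1 * w 0, -(sg g.2.2.2 * w 3), sg g.2.2.2 * w 2,
      sg g.1 * w 4]
  else
    !₂[sg g.2.2.1 * w 0, sg g.2.2.1 * sg g.1 * w 1, sg g.2.2.2 * w 2, sg g.2.2.2 * w 3,
      sg g.1 * w 4]

/-- Multiplication of indices. -/
def mulG (g h : G) : G :=
  (xor g.1 h.1, xor g.2.1 h.2.1,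
    xor (xor g.2.2.1 h.2.2.1) (xor (h.2.1 && g.1) (g.2.1 && h.2.1)),
    xor (xor g.2.2.2 h.2.2.2) (g.2.1 && h.2.1))

/-- The neutral index. -/
def oneG : G := (false, false, false, false)

/-- Inverse index. -/
def invG (g : G) : G :=
  (g.1, g.2.1, xor g.2.2.1 (g.2.1 && !g.1), xor g.2.2.2 g.2.1)

lemma mul_invG : ∀ g : G, mulG g (invG g) = oneG := by decide
lemma invG_mul : ∀ g : G, mulG (invG g) g = oneG := by decide
lemma mulG_one : ∀ g : G, mulG g oneG = g := by decide
lemma one_mulG : ∀ g : G, mulG oneG g = g := by decide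
lemma invG_mul_cancel : ∀ g h : G, mulG (invG g) (mulG g h) = h := by decide
lemma mul_invG_cancel : ∀ g h : G, mulG g (mulG (invG g) h) = h := by decide

lemma act_one (w : E 5) : act oneG w = w := by
  ext i
  fin_cases i <;> simp [act, oneG]

lemma act_act (g h : G) (w : E 5) : act g (act h w) = act (mulG g h) w := by
  obtain ⟨e, j, a, b⟩ := g
  obtain ⟨e', j', a', b'⟩ := h
  ext i
  cases e <;> cases j <;> cases j' <;> fin_cases i <;>
    simp [act, mulG, sg_xor, sg_not] <;> ring

/-- The linear map attached to an index. -/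
noncomputable def actL (g : G) : E 5 →ₗ[ℝ] E 5 where
  toFun := act g
  map_add' x y := by
    obtain ⟨e, j, a, b⟩ := g
    ext i
    cases j <;> fin_cases i <;> simp [act] <;> ring
  map_smul' c x := by
    obtain ⟨e, j, a, b⟩ := g
    ext i
    cases j <;> fin_cases i <;> simp [act] <;> ring

lemma norm_act (g : G) (w : E 5) : ‖act g w‖ = ‖w‖ := by
  obtain ⟨e, j, a, b⟩ := g
  rw [EuclideanSpace.norm_eq, EuclideanSpace.norm_eq]
  congr 1
  simp only [Real.norm_eq_abs, sq_abs, Fin.sum_univ_five]
  have h1 := sg_sq e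
  have h2 := sg_sq a
  have h3 := sg_sq b
  cases e <;> cases j <;> cases a <;> cases b <;> simp [act] <;> ring

/-- The isometry attached to an index. -/
noncomputable def actI (g : G) : E 5 ≃ₗᵢ[ℝ] E 5 where
  toLinearEquiv :=
    { actL g with
      invFun := act (invG g)
      left_inv := fun w => by
        change act (invG g) (act g w) = w
        rw [act_act, invG_mul, act_one]
      right_inv := fun w => by
        change act g (act (invG g) w) = w
        rw [act_act, mul_invG, act_one] }
  norm_map' := norm_act g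

@[simp] lemma actI_apply (g : G) (w : E 5) : actI g w = act g w := rfl

/-- The group `Γ` of order 16. -/
noncomputable def Gam : Subgroup (E 5 ≃ₗᵢ[ℝ] E 5) where
  carrier := range actI
  mul_mem' := by
    rintro _ _ ⟨g, rfl⟩ ⟨h, rfl⟩
    refine ⟨mulG g h, ?_⟩
    ext1 w
    exact (act_act g h w).symm
  one_mem' := by
    refine ⟨oneG, ?_⟩
    ext1 w
    exact act_one w
  inv_mem' := by
    rintro _ ⟨g, rfl⟩
    refine ⟨invG g, ?_⟩
    ext1 w
    exact rfl

instance : Finite Gam := by
  have : Finite (range actI) := Set.finite_range actI |>.to_subtype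
  exact this

lemma orb_eq (w : E 5) : orb Gam w = range (fun g => act g w) := by
  ext v
  constructor
  · rintro ⟨_, ⟨g, rfl⟩, h⟩
    exact ⟨g, h⟩
  · rintro ⟨g, h⟩
    exact ⟨actI g, ⟨g, rfl⟩, h⟩

/-- The family of orbit points. -/
noncomputable def fam (w : E 5) : G → E 5 := fun g => act g w

lemma Q_eq (w : E 5) : Q Gam w = convexHull ℝ (range (fam w)) := by
  rw [Q, orb_eq]; rfl

lemma continuous_act (g : G) : Continuous (act g) := (actI g).continuous

lemma continuous_fam : Continuous fam := continuous_pi fun g => continuous_act g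

lemma fam_norm (w : E 5) (g h : G) : ‖fam w g‖ = ‖fam w h‖ := by
  rw [fam, fam, norm_act, norm_act]

lemma orb_act (g : G) (w : E 5) : orb Gam (act g w) = orb Gam w := by
  rw [orb_eq, orb_eq]
  ext v
  constructor
  · rintro ⟨h, rfl⟩
    exact ⟨mulG h g, (act_act h g w).symm⟩
  · rintro ⟨h, rfl⟩
    refine ⟨mulG h (invG g), ?_⟩
    change act (mulG h (invG g)) (act g w) = act h w
    rw [act_act]
    congr 1
    revert g h
    decide

end OrbPoly
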