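import Pool.Agent.OrbPoly.Adj

set_option autoImplicit false

open Set MeasureTheory Filter Topology Module

namespace OrbPoly

lemma cw_si_ge {w : E 5} (hw : Cell w) :
    1 / (2 * w 0 * w 1 * (w 2 ^ 2 + w 3 ^ 2) * w 4) *
      (4 * (1 / (6 * (1 + w 1 / w 0 + (w 1 / w 0) ^ 2)) -
        (1 - w 1 / w 0) ^ 3 / (6 * (1 + w 1 / w 0)))) ≤ cw w si := by
  have d := hw.dat
  obtain ⟨pb, hab, -, -⟩ := id hw
  have pa : 0 < w 0 := d.pa
  have pm : 0 < w 2 ^ 2 + w 3 ^ 2 := d.pm
  have pt : 0 < w 4 := d.pt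
  have hKpos : 0 < 1 / (2 * w 0 * w 1 * (w 2 ^ 2 + w 3 ^ 2) * w 4) := by positivity
  have c0 : cw w si = 1 / (2 * w 0 * w 1 * (w 2 ^ 2 + w 3 ^ 2) * w 4) *
      (volume (D0 (w 0) (w 1))).toReal :=
    weight_eq (isEdge_si hw) (ridge0 d) hKpos (gd0 d).2 (gd0 d).1
  rw [c0]
  exact mul_le_mul_of_nonneg_left (volume_D0_ge pb hab) hKpos.le

/-- The path towards the demicube point. -/
noncomputable def wp (c ρ : ℝ) : E 5 := !₂[c, c * ρ, c, c, c]

lemma wp_one (c : ℝ) : wp c 1 = dp c := by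
  rw [wp, mul_one]; rfl

lemma continuous_wp (c : ℝ) : Continuous (wp c) := by
  unfold wp
  refine (PiLp.continuous_toLp 2 _).comp ?_
  refine continuous_pi fun i => ?_
  fin_cases i
  · exact continuous_const
  · exact continuous_const.mul continuous_id
  · exact continuous_const
  · exact continuous_const
  · exact continuous_const

lemma wp_cell {c ρ : ℝ} (hc : 0 < c) (h0 : 0 < ρ) (h1 : ρ < 1) : Cell (wp c ρ) := by
  obtain ⟨f0, f1, f2, f3, f4⟩ := five c (c * ρ) c c c
  refine ⟨?_, ?_, ?_, ?_⟩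
  · rw [wp, f1]; positivity
  · rw [wp, f1, f0]; nlinarith
  · rw [wp, f2, f3]
    exact fun h => hc.ne' h.1
  · rw [wp, f4]; exact hc

lemma C1_pos {c : ℝ} (hc : 0 < c) : 0 < cw (dp c) si := by
  have h1 : Tendsto (fun ρ => cw (wp c ρ) si) (𝓝 1) (𝓝 (cw (dp c) si)) := by
    have h2 := cw_tendsto_dp hc (g := si) (by decide)
    have h3 := (continuous_wp c).tendsto 1
    rw [wp_one] at h3
    exact h2.comp h3
  have h1' : Tendsto (fun ρ => cw (wp c ρ) si) (𝓝[<] 1) (𝓝 (cw (dp c) si)) :=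
    h1.mono_left nhdsWithin_le_nhds
  set φ : ℝ → ℝ := fun ρ => 1 / (2 * c * (c * ρ) * (c ^ 2 + c ^ 2) * c) *
      (4 * (1 / (6 * (1 + ρ + ρ ^ 2)) - (1 - ρ) ^ 3 / (6 * (1 + ρ)))) with hφ
  have hφc : ContinuousAt φ 1 := by
    rw [hφ]
    refine ContinuousAt.mul (ContinuousAt.div continuousAt_const (by fun_prop) ?_)
      (continuousAt_const.mul (ContinuousAt.sub (ContinuousAt.div continuousAt_const
        (by fun_prop) ?_) (ContinuousAt.div (by fun_prop) (by fun_prop) ?_)))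
    · have : (0 : ℝ) < 2 * c * (c * 1) * (c ^ 2 + c ^ 2) * c := by positivity
      exact this.ne'
    · norm_num
    · norm_num
  have hφ' : Tendsto φ (𝓝[<] 1) (𝓝 (φ 1)) := hφc.tendsto.mono_left nhdsWithin_le_nhds
  have hev : ∀ᶠ ρ in 𝓝[<] (1 : ℝ), φ ρ ≤ cw (wp c ρ) si := by
    have h3 : ∀ᶠ ρ in 𝓝[<] (1 : ℝ), ρ < 1 := self_mem_nhdsWithin
    have h4 : ∀ᶠ ρ in 𝓝[<] (1 : ℝ), 0 < ρ :=
      (lt_mem_nhds (by norm_num : (0 : ℝ) < 1)).filter_mono nhdsWithin_le_nhds
    filter_upwards [h3, h4] with ρ q1 q2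
    have h5 := cw_si_ge (wp_cell hc q2 q1)
    obtain ⟨f0, f1, f2, f3, f4⟩ := five c (c * ρ) c c c
    have e : (wp c ρ) 1 / (wp c ρ) 0 = ρ := by
      rw [wp, f0, f1]; field_simp
    rw [e] at h5
    rw [wp, f0, f1, f2, f3, f4] at h5
    exact h5
  have hge := le_of_tendsto_of_tendsto hφ' h1' hev
  have hpos : 0 < φ 1 := by
    rw [hφ]
    norm_num
    positivity
  exact hpos.trans_le hge

lemma NN_cases : ∀ g : G, NN oneG g = 1 ∨ g = oneG ∨ (g = (false, false, true, true) ∨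
    g = (true, false, false, true) ∨ g = (true, false, true, true) ∨
    g = (true, true, true, false) ∨ g = (true, true, true, true)) := by decide

/-- `λ₁` is almost at most `1/5` near the demicube point. -/
theorem limit_le {c ε : ℝ} (hc : 0 < c) (hε : 0 < ε) :
    ∀ᶠ w in 𝓝 (dp c), Cell w → lambda1 Gam w ≤ 1 / 5 + ε := by
  set C1 := cw (dp c) si with hC1
  have hpos : 0 < C1 := C1_pos hc
  set δ := 10 * ε * C1 / (12 + 10 * ε) with hδ
  have hδ0 : 0 < δ := by rw [hδ]; positivity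
  have hδe : δ * (12 + 10 * ε) = 10 * ε * C1 := by rw [hδ]; field_simp
  have hev : ∀ᶠ w in 𝓝 (dp c), ∀ g, NN oneG g = 1 → |cw w g - C1| ≤ δ := by
    refine eventually_all.2 fun g => ?_
    by_cases hg : NN oneG g = 1
    · have h1 := cw_tendsto_dp hc hg
      rw [cw_dp_eq c hg, ← hC1] at h1
      have h2 := (Metric.tendsto_nhds.1 h1) δ hδ0
      filter_upwards [h2] with w hw _
      exact le_of_lt hw
    · exact Eventually.of_forall fun w h => absurd h hg
  filter_upwards [hev] with w hw hcell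
  have hinj := fam_injective (fun g h => hcell.stab (g := g) h)
  have hd := (lt_lambda1 hcell).1
  have hall : ∀ g, |cw w g - C1 * aj g| ≤ δ * aj g := by
    intro g
    rcases NN_cases g with h | h | h
    · have : aj g = 1 := by rw [aj, ajZ, if_pos h]; norm_num
      rw [this, mul_one, mul_one]
      exact hw g h
    · have h1 : aj g = 0 := by rw [h]; simp [aj, ajZ, NN_one]
      have h2 : cw w g = 0 := by rw [h, cw, act_one, weight_self]
      rw [h1, h2]
      simp
    · have h1 : aj g = 0 := by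
        rw [aj, ajZ, if_neg]
        · norm_num
        · rcases h with rfl | rfl | rfl | rfl | rfl <;> decide
      have h2 : cw w g = 0 := by rw [cw, weight, if_neg (not_isEdge hcell h)]
      rw [h1, h2]
      simp
  have hdw : 10 * (C1 - δ) ≤ dw w := by
    have h1 : ∀ g, (C1 - δ) * aj g ≤ cw w g := by
      intro g
      have := (abs_le.1 (hall g)).1
      linarith
    have h2 : ∑ g, (C1 - δ) * aj g ≤ ∑ g, cw w g := Finset.sum_le_sum fun g _ => h1 g
    rw [← Finset.mul_sum, aj_sum] at h2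
    have h3 : dw w = ∑ g, cw w g := rfl
    linarith
  refine lambda1_le hinj hd fun u hu => ?_
  have h1 := qf_perturb hpos.le hall hu
  refine h1.trans (mul_le_mul_of_nonneg_right ?_ (Finset.sum_nonneg fun g _ => sq_nonneg _))
  have h2 : (1 / 5 + ε) * (10 * (C1 - δ)) ≤ (1 / 5 + ε) * dw w :=
    mul_le_mul_of_nonneg_left hdw (by positivity)
  linarith

end OrbPoly
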