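import Pool.Agent.OrbPoly.Cell

set_option autoImplicit false

open Set Filter Topology

namespace OrbPoly

/-- The linear space of points satisfying the special linear equations of `p`. -/
def L (p : E 5) : Submodule ℝ (E 5) where
  carrier := {v | (p 0 = 0 → v 0 = 0) ∧ (p 1 = 0 → v 1 = 0) ∧ (p 0 = p 1 → v 0 = v 1) ∧
    (p 0 = -p 1 → v 0 = -v 1) ∧ (p 2 = 0 ∧ p 3 = 0 → v 2 = 0 ∧ v 3 = 0) ∧ (p 4 = 0 → v 4 = 0)}
  add_mem' := by
    rintro a b ⟨a1, a2, a3, a4, a5, a6⟩ ⟨b1, b2, b3, b4, b5, b6⟩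
    refine ⟨fun h => ?_, fun h => ?_, fun h => ?_, fun h => ?_, fun h => ⟨?_, ?_⟩, fun h => ?_⟩
    · simp [a1 h, b1 h]
    · simp [a2 h, b2 h]
    · simp [a3 h, b3 h]
    · simp only [PiLp.add_apply, a4 h, b4 h]; ring
    · simp [(a5 h).1, (b5 h).1]
    · simp [(a5 h).2, (b5 h).2]
    · simp [a6 h, b6 h]
  zero_mem' := by simp
  smul_mem' := by
    rintro c a ⟨a1, a2, a3, a4, a5, a6⟩
    refine ⟨fun h => ?_, fun h => ?_, fun h => ?_, fun h => ?_, fun h => ⟨?_, ?_⟩, fun h => ?_⟩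
    · simp [a1 h]
    · simp [a2 h]
    · simp [a3 h]
    · simp [a4 h]
    · simp [(a5 h).1]
    · simp [(a5 h).2]
    · simp [a6 h]

lemma mem_L {p v : E 5} : v ∈ L p ↔ (p 0 = 0 → v 0 = 0) ∧ (p 1 = 0 → v 1 = 0) ∧
    (p 0 = p 1 → v 0 = v 1) ∧ (p 0 = -p 1 → v 0 = -v 1) ∧
    (p 2 = 0 ∧ p 3 = 0 → v 2 = 0 ∧ v 3 = 0) ∧ (p 4 = 0 → v 4 = 0) := Iff.rfl

lemma self_mem_L (p : E 5) : p ∈ L p := by
  rw [mem_L]; tauto

/-- The open conditions near `p`. -/
def Near (p w : E 5) : Prop := (p 0 ≠ 0 → w 0 ≠ 0) ∧ (p 1 ≠ 0 → w 1 ≠ 0) ∧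
    (p 0 ≠ p 1 → w 0 ≠ w 1) ∧ (p 0 ≠ -p 1 → w 0 ≠ -w 1) ∧
    (¬ (p 2 = 0 ∧ p 3 = 0) → ¬ (w 2 = 0 ∧ w 3 = 0)) ∧ (p 4 ≠ 0 → w 4 ≠ 0)

lemma continuous_coord (i : Fin 5) : Continuous fun w : E 5 => w i := by fun_prop

lemma eventually_imp_ne {f g : E 5 → ℝ} (hf : Continuous f) (hg : Continuous g) (p : E 5) :
    ∀ᶠ w in 𝓝 p, f p ≠ g p → f w ≠ g w := by
  by_cases h : f p = g p
  · exact Eventually.of_forall fun w h' => absurd h h'
  · have hc : ContinuousAt (fun w => f w - g w) p := (hf.sub hg).continuousAt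
    filter_upwards [hc.eventually_ne (sub_ne_zero.2 h)] with w hw _
    exact sub_ne_zero.1 hw

lemma eventually_near (p : E 5) : ∀ᶠ w in 𝓝 p, Near p w := by
  have c0 := continuous_coord 0
  have c1 := continuous_coord 1
  have c2 := continuous_coord 2
  have c3 := continuous_coord 3
  have c4 := continuous_coord 4
  have cz : Continuous fun _ : E 5 => (0 : ℝ) := continuous_const
  filter_upwards [eventually_imp_ne c0 cz p, eventually_imp_ne c1 cz p, eventually_imp_ne c0 c1 p,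
    eventually_imp_ne c0 c1.neg p, eventually_imp_ne c2 cz p, eventually_imp_ne c3 cz p,
    eventually_imp_ne c4 cz p] with w h0 h1 h2 h3 h4 h5 h6
  refine ⟨h0, h1, h2, h3, fun h h' => ?_, h6⟩
  rcases not_and_or.1 h with h | h
  · exact h4 h h'.1
  · exact h5 h h'.2

lemma L_eq_of_near {p w : E 5} (hn : Near p w) (hw : w ∈ L p) : L w = L p := by
  obtain ⟨n1, n2, n3, n4, n5, n6⟩ := hn
  rw [mem_L] at hw
  obtain ⟨m1, m2, m3, m4, m5, m6⟩ := hw
  ext v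
  rw [mem_L, mem_L]
  have e1 : w 0 = 0 ↔ p 0 = 0 := ⟨fun h => by_contra fun h' => n1 h' h, m1⟩
  have e2 : w 1 = 0 ↔ p 1 = 0 := ⟨fun h => by_contra fun h' => n2 h' h, m2⟩
  have e3 : w 0 = w 1 ↔ p 0 = p 1 := ⟨fun h => by_contra fun h' => n3 h' h, m3⟩
  have e4 : w 0 = -w 1 ↔ p 0 = -p 1 := ⟨fun h => by_contra fun h' => n4 h' h, m4⟩
  have e5 : (w 2 = 0 ∧ w 3 = 0) ↔ (p 2 = 0 ∧ p 3 = 0) := ⟨fun h => by_contra fun h' => n5 h' h, m5⟩
  have e6 : w 4 = 0 ↔ p 4 = 0 := ⟨fun h => by_contra fun h' => n6 h' h, m6⟩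
  rw [e1, e2, e3, e4, e5, e6]

/-! ### Points related by commuting linear maps -/

lemma expo_subset_cm {w p : E 5} (hx : ∃ l : ℝ, w 0 = l * p 0 ∧ w 1 = l * p 1)
    (hz : ∃ a b : ℝ, w 2 = a * p 2 - b * p 3 ∧ w 3 = a * p 3 + b * p 2)
    (ht : ∃ t : ℝ, w 4 = t * p 4) : expo (fam w) ⊆ expo (fam p) := by
  obtain ⟨l, hx0, hx1⟩ := hx
  obtain ⟨a, b, hz0, hz1⟩ := hz
  obtain ⟨t, ht⟩ := ht
  rintro S ⟨y, rfl⟩
  refine ⟨!₂[l * y 0, l * y 1, a * y 2 + b * y 3, a * y 3 - b * y 2, t * y 4], ?_⟩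
  rw [amax_fam, amax_fam]
  have e0 : (!₂[l * y 0, l * y 1, a * y 2 + b * y 3, a * y 3 - b * y 2, t * y 4] : E 5) 0
    = l * y 0 := rfl
  have e1 : (!₂[l * y 0, l * y 1, a * y 2 + b * y 3, a * y 3 - b * y 2, t * y 4] : E 5) 1
    = l * y 1 := rfl
  have e2 : (!₂[l * y 0, l * y 1, a * y 2 + b * y 3, a * y 3 - b * y 2, t * y 4] : E 5) 2
    = a * y 2 + b * y 3 := rfl
  have e3 : (!₂[l * y 0, l * y 1, a * y 2 + b * y 3, a * y 3 - b * y 2, t * y 4] : E 5) 3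
    = a * y 3 - b * y 2 := rfl
  have e4 : (!₂[l * y 0, l * y 1, a * y 2 + b * y 3, a * y 3 - b * y 2, t * y 4] : E 5) 4
    = t * y 4 := rfl
  rw [e0, e1, e2, e3, e4, hx0, hx1, hz0, hz1, ht]
  congr 1 <;> ring

lemma expo_eq_cm {w p : E 5} (hx : ∃ l : ℝ, l ≠ 0 ∧ w 0 = l * p 0 ∧ w 1 = l * p 1)
    (hz : (w 2 = 0 ∧ w 3 = 0) ↔ (p 2 = 0 ∧ p 3 = 0)) (ht : w 4 = 0 ↔ p 4 = 0) :
    expo (fam w) = expo (fam p) := by
  obtain ⟨l, hl, hx0, hx1⟩ := hx
  have key : ∀ w p : E 5, ((w 2 = 0 ∧ w 3 = 0) ↔ (p 2 = 0 ∧ p 3 = 0)) →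
      ∃ a b : ℝ, w 2 = a * p 2 - b * p 3 ∧ w 3 = a * p 3 + b * p 2 := by
    intro w p hz
    by_cases hp : p 2 = 0 ∧ p 3 = 0
    · have := hz.2 hp
      exact ⟨0, 0, by rw [this.1]; ring, by rw [this.2]; ring⟩
    · have hpos : 0 < p 2 ^ 2 + p 3 ^ 2 := by
        rcases not_and_or.1 hp with h | h
        · have := sq_pos_of_ne_zero h
          have := sq_nonneg (p 3)
          linarith
        · have := sq_pos_of_ne_zero h
          have := sq_nonneg (p 2)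
          linarith
      refine ⟨(p 2 * w 2 + p 3 * w 3) / (p 2 ^ 2 + p 3 ^ 2),
        (p 2 * w 3 - p 3 * w 2) / (p 2 ^ 2 + p 3 ^ 2), ?_, ?_⟩
      · field_simp; ring
      · field_simp; ring
  have key2 : ∀ w p : E 5, (w 4 = 0 ↔ p 4 = 0) → ∃ t : ℝ, w 4 = t * p 4 := by
    intro w p ht
    by_cases hp : p 4 = 0
    · exact ⟨0, by rw [ht.2 hp]; ring⟩
    · exact ⟨w 4 / p 4, by field_simp⟩
  refine Subset.antisymm (expo_subset_cm ⟨l, hx0, hx1⟩ (key w p hz) (key2 w p ht))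
    (expo_subset_cm ⟨l⁻¹, ?_, ?_⟩ (key p w hz.symm) (key2 p w ht.symm))
  · rw [hx0]; field_simp
  · rw [hx1]; field_simp

lemma sameType_of_expo {w p : E 5} (h : expo (fam w) = expo (fam p)) : SameType Gam w p := by
  rw [SameType, Q_eq, Q_eq]
  exact nonempty_iso_of_expo_eq h

lemma Q_act (g : G) (w : E 5) : Q Gam (act g w) = Q Gam w := by
  rw [Q, Q, orb_act]

lemma exists_move {p : E 5} (h0 : p 0 ≠ 0) (h1 : p 1 ≠ 0) (h2 : p 0 ≠ p 1) (h3 : p 0 ≠ -p 1) :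
    ∃ g : G, 0 < (act g p) 1 ∧ (act g p) 1 < (act g p) 0 := by
  have key : ∀ e j a : Bool, ((act (e, j, a, false) p) 0 =
      if j then -(sg a * sg e * p 1) else sg a * p 0) ∧
      ((act (e, j, a, false) p) 1 = if j then sg a * p 0 else sg a * sg e * p 1) := by
    intro e j a
    cases j <;> exact ⟨rfl, rfl⟩
  rcases lt_or_gt_of_ne h0 with q0 | q0 <;> rcases lt_or_gt_of_ne h1 with q1 | q1
  · rcases lt_or_gt_of_ne h2 with q | q
    · refine ⟨(false, false, true, false), ?_⟩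
      rw [(key _ _ _).1, (key _ _ _).2]; simp [sg]; constructor <;> linarith
    · refine ⟨(true, true, true, false), ?_⟩
      rw [(key _ _ _).1, (key _ _ _).2]; simp [sg]; constructor <;> linarith
  · rcases lt_or_gt_of_ne h3 with q | q
    · refine ⟨(true, false, true, false), ?_⟩
      rw [(key _ _ _).1, (key _ _ _).2]; simp [sg]; constructor <;> linarith
    · refine ⟨(false, true, true, false), ?_⟩
      rw [(key _ _ _).1, (key _ _ _).2]; simp [sg]; constructor <;> linarith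
  · rcases lt_or_gt_of_ne h3 with q | q
    · refine ⟨(false, true, false, false), ?_⟩
      rw [(key _ _ _).1, (key _ _ _).2]; simp [sg]; constructor <;> linarith
    · refine ⟨(true, false, false, false), ?_⟩
      rw [(key _ _ _).1, (key _ _ _).2]; simp [sg]; constructor <;> linarith
  · rcases lt_or_gt_of_ne h2 with q | q
    · refine ⟨(true, true, false, false), ?_⟩
      rw [(key _ _ _).1, (key _ _ _).2]; simp [sg]; constructor <;> linarith
    · refine ⟨(false, false, false, false), ?_⟩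
      rw [(key _ _ _).1, (key _ _ _).2]; simp [sg]; constructor <;> linarith

lemma act_z_zero (g : G) (p : E 5) :
    ((act g p) 2 = 0 ∧ (act g p) 3 = 0) ↔ (p 2 = 0 ∧ p 3 = 0) := by
  obtain ⟨e, j, a, b⟩ := g
  cases j <;> cases b <;> simp [act, sg] <;> tauto

lemma act_t_zero (g : G) (p : E 5) : (act g p) 4 = 0 ↔ p 4 = 0 := by
  obtain ⟨e, j, a, b⟩ := g
  cases j <;> cases e <;> simp [act, sg]

lemma exists_scale {p0 p1 w0 w1 : ℝ} (h : p0 = 0 ∨ p1 = 0 ∨ p0 = p1 ∨ p0 = -p1)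
    (n1 : p0 ≠ 0 → w0 ≠ 0) (n2 : p1 ≠ 0 → w1 ≠ 0) (m1 : p0 = 0 → w0 = 0) (m2 : p1 = 0 → w1 = 0)
    (m3 : p0 = p1 → w0 = w1) (m4 : p0 = -p1 → w0 = -w1) :
    ∃ l : ℝ, l ≠ 0 ∧ w0 = l * p0 ∧ w1 = l * p1 := by
  by_cases h0 : p0 = 0
  · by_cases h1 : p1 = 0
    · exact ⟨1, one_ne_zero, by rw [m1 h0, h0]; ring, by rw [m2 h1, h1]; ring⟩
    · exact ⟨w1 / p1, div_ne_zero (n2 h1) h1, by rw [m1 h0, h0]; ring, by field_simp⟩
  · have hl : w0 = w0 / p0 * p0 := by field_simp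
    refine ⟨w0 / p0, div_ne_zero (n1 h0) h0, hl, ?_⟩
    rcases h with h | h | h | h
    · exact absurd h h0
    · rw [m2 h, h]; ring
    · have e := m3 h
      rw [← e, ← h]; exact hl
    · have e := m4 h
      have e1 : w1 = -w0 := by linarith
      have e2 : p1 = -p0 := by linarith
      rw [e1, e2]
      linarith

/-- Near `p`, the points of `L p` have the combinatorial type of `p`. -/
theorem eventually_sameType (p : E 5) : ∀ᶠ w in 𝓝 p, w ∈ L p → SameType Gam p w := by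
  by_cases hgen : p 0 ≠ 0 ∧ p 1 ≠ 0 ∧ p 0 ≠ p 1 ∧ p 0 ≠ -p 1
  · obtain ⟨h0, h1, h2, h3⟩ := hgen
    obtain ⟨g, g1, g2⟩ := exists_move h0 h1 h2 h3
    have c1 : ∀ᶠ w in 𝓝 p, 0 < (act g w) 1 := by
      have : Continuous fun w => (act g w) 1 := (continuous_coord 1).comp (continuous_act g)
      exact continuousAt_const.eventually_lt this.continuousAt g1
    have c2 : ∀ᶠ w in 𝓝 p, (act g w) 1 < (act g w) 0 := by
      have i1 : Continuous fun w => (act g w) 1 := (continuous_coord 1).comp (continuous_act g)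
      have i0 : Continuous fun w => (act g w) 0 := (continuous_coord 0).comp (continuous_act g)
      exact i1.continuousAt.eventually_lt i0.continuousAt g2
    filter_upwards [c1, c2, eventually_near p] with w hw1 hw2 hn hw
    obtain ⟨n1, n2, n3, n4, n5, n6⟩ := hn
    rw [mem_L] at hw
    have h := expo_fam_eq g1 g2 hw1 hw2
      (by rw [act_z_zero, act_z_zero]; exact ⟨hw.2.2.2.2.1, fun h => by_contra fun h' => n5 h' h⟩)
      (by rw [act_t_zero, act_t_zero]; exact ⟨hw.2.2.2.2.2, fun h => by_contra fun h' => n6 h' h⟩)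
    have h' := sameType_of_expo h
    rw [SameType, Q_act, Q_act] at h'
    exact h'
  · filter_upwards [eventually_near p] with w hn hw
    obtain ⟨n1, n2, n3, n4, n5, n6⟩ := hn
    rw [mem_L] at hw
    obtain ⟨m1, m2, m3, m4, m5, m6⟩ := hw
    have hgen' : p 0 = 0 ∨ p 1 = 0 ∨ p 0 = p 1 ∨ p 0 = -p 1 := by
      by_contra hcon
      push Not at hcon
      exact hgen hcon
    have hex := exists_scale hgen' n1 n2 m1 m2 m3 m4
    exact (sameType_of_expo (expo_eq_cm hex ⟨fun h => by_contra fun h' => n5 h' h, m5⟩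
      ⟨fun h => by_contra fun h' => n6 h' h, m6⟩)).elim fun e => ⟨e.symm⟩

end OrbPoly
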