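import Pool.Agent.OrbPoly.DVol

set_option autoImplicit false

open Set MeasureTheory

namespace OrbPoly

lemma isEdge_si {w : E 5} (hw : Cell w) : IsEdge (orb Gam w) w (act si w) := by
  have hst := fun g (h : act g w = w) => hw.stab (g := g) h
  obtain ⟨q1, q2, q3, q4⟩ := hw
  refine isEdge_of_amax (y := !₂[w 0, 0, w 2, w 3, 0]) ?_ ?_
  · intro h
    have := hst si h.symm
    revert this; decide
  · obtain ⟨f0, f1, f2, f3, f4⟩ := five (w 0) 0 (w 2) (w 3) 0
    rw [amax_fam, f0, f1, f2, f3, f4]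
    have hm : 0 < w 2 * w 2 + w 3 * w 3 := by
      rcases not_and_or.1 q3 with h | h
      · have := mul_self_pos.2 h
        have := mul_self_nonneg (w 3)
        linarith
      · have := mul_self_pos.2 h
        have := mul_self_nonneg (w 2)
        linarith
    have ha : 0 < w 0 := q1.trans q2
    have hab : w 0 * w 1 < w 0 * w 0 := mul_lt_mul_of_pos_left q2 ha
    have hab0 : 0 < w 0 * w 1 := mul_pos ha q1
    have e1 : w 3 * w 2 - w 2 * w 3 = 0 := by ring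
    rw [e1]
    ext ⟨e, j, ε, δ⟩
    constructor
    · intro h
      have h1 := h oneG
      cases e <;> cases j <;> cases ε <;> cases δ <;>
        first
        | (left; rfl)
        | (right; rfl)
        | (exfalso; simp [val, oneG] at h1; linarith)
    · intro h
      rcases h with h | h
      · rw [h]
        rintro ⟨e', j', ε', δ'⟩
        cases e' <;> cases j' <;> cases ε' <;> cases δ' <;> simp [val, oneG] <;> linarith
      · rw [mem_singleton_iff] at h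
        rw [h]
        rintro ⟨e', j', ε', δ'⟩
        cases e' <;> cases j' <;> cases ε' <;> cases δ' <;> simp [val, si] <;> linarith

lemma real_pos {r : ℝ} (r0 : 0 < r) (r1 : r < 1) :
    0 < 4 * (1 / (6 * (1 + r + r ^ 2)) - (1 - r) ^ 3 / (6 * (1 + r))) := by
  have hcube : (1 - r) ^ 3 * (1 + r + r ^ 2) < 1 + r := by
    have e1 : (1 - r) ^ 3 * (1 + r + r ^ 2) = (1 - r) ^ 2 * (1 - r ^ 3) := by ring
    have e2 : (1 - r) ^ 2 ≤ 1 := pow_le_one₀ (by linarith) (by linarith)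
    have e3 : (1 - r ^ 3) ≤ 1 := by have := pow_pos r0 3; linarith
    have e4 : 0 ≤ 1 - r ^ 3 := by
      have := pow_le_one₀ r0.le r1.le (n := 3)
      linarith
    rw [e1]
    have e5 : (1 - r) ^ 2 * (1 - r ^ 3) ≤ 1 * 1 := mul_le_mul e2 e3 e4 zero_le_one
    linarith
  have h1 : 1 / (6 * (1 + r + r ^ 2)) - (1 - r) ^ 3 / (6 * (1 + r)) =
      ((1 + r) - (1 - r) ^ 3 * (1 + r + r ^ 2)) / (6 * (1 + r + r ^ 2) * (1 + r)) := by
    field_simp
  rw [h1]
  have h2 : 0 < (1 + r) - (1 - r) ^ 3 * (1 + r + r ^ 2) := by linarith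
  positivity

lemma real_id {r a K : ℝ} (r0 : 0 < r) :
    (a + r * a) * (K * (4 * (1 / (6 * (1 + r + r ^ 2)) - (1 - r) ^ 3 / (6 * (1 + r)))) -
      K * (4 * (r ^ 2 / (6 * (1 + r + r ^ 2))))) -
      (a - r * a) * (4 * K * (2 * (r / (6 * (1 + r + r ^ 2))))) =
      2 / 3 * a * K * ((1 - r) * r * (1 + r + r ^ 2 - r ^ 3)) / (1 + r + r ^ 2) := by
  field_simp
  ring

lemma real_pos2 {r a K : ℝ} (r0 : 0 < r) (r1 : r < 1) (ha : 0 < a) (hK : 0 < K) :
    0 < 2 / 3 * a * K * ((1 - r) * r * (1 + r + r ^ 2 - r ^ 3)) / (1 + r + r ^ 2) := by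
  have h1 : 0 < 1 - r := by linarith
  have h2 : 0 < 1 + r + r ^ 2 - r ^ 3 := by
    have h3 : r ^ 3 ≤ 1 := pow_le_one₀ r0.le r1.le
    have h4 : 0 < r ^ 2 := by positivity
    linarith
  positivity

/-- The strict inequality on the open cell. -/
theorem lt_lambda1 {w : E 5} (hw : Cell w) : 0 < dw w ∧ 1 / 5 < lambda1 Gam w := by
  have d := hw.dat
  obtain ⟨pb, hab, -, -⟩ := id hw
  have pa : 0 < w 0 := d.pa
  have pm : 0 < w 2 ^ 2 + w 3 ^ 2 := d.pm
  have pt : 0 < w 4 := d.pt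
  obtain ⟨K, hK⟩ : ∃ K, K = 1 / (2 * w 0 * w 1 * (w 2 ^ 2 + w 3 ^ 2) * w 4) := ⟨_, rfl⟩
  have hKpos : 0 < K := by rw [hK]; positivity
  have hK4 : 1 / (w 0 * w 1 * (w 2 ^ 2 + w 3 ^ 2) * w 4) = 2 * K := by rw [hK]; field_simp
  have c0 : cw w si = K * (volume (D0 (w 0) (w 1))).toReal :=
    weight_eq (isEdge_si hw) (ridge0 d) hKpos (gd0 d).2 (by rw [hK]; exact (gd0 d).1)
  have c2 : cw w si' ≤ K * (volume (D2 (w 0) (w 1))).toReal :=
    weight_le (ridge2 d) hKpos (gd2 d).2 (by rw [hK]; exact (gd2 d).1)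
  have c4 : cw w th ≤ 2 * K * (volume (D4 (w 0) (w 1) 1)).toReal := by
    rw [← hK4]
    exact weight_le (ridge4 d (Or.inl ⟨rfl, rfl⟩)) (by positivity) (gd4 d (Or.inl ⟨rfl, rfl⟩)).2
      (gd4 d (Or.inl ⟨rfl, rfl⟩)).1
  have c4' : cw w th2 ≤ 2 * K * (volume (D4 (w 0) (w 1) (-1))).toReal := by
    rw [← hK4]
    exact weight_le (ridge4 d (Or.inr ⟨rfl, rfl⟩)) (by positivity) (gd4 d (Or.inr ⟨rfl, rfl⟩)).2
      (gd4 d (Or.inr ⟨rfl, rfl⟩)).1
  have v0 := volume_D0_ge pb hab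
  have v2 := volume_D2_le pb hab
  have v4 := volume_D4_le pb hab (s := 1) (Or.inl rfl)
  have v4' := volume_D4_le pb hab (s := -1) (Or.inr rfl)
  obtain ⟨r, hr⟩ : ∃ r, r = w 1 / w 0 := ⟨_, rfl⟩
  rw [← hr] at v0 v2 v4 v4'
  have r0 : 0 < r := by rw [hr]; exact div_pos pb pa
  have r1 : r < 1 := by rw [hr]; exact (div_lt_one pa).2 hab
  have hbr : w 1 = r * w 0 := by rw [hr]; field_simp
  have hc0 : 0 < cw w si := by
    rw [c0]
    exact mul_pos hKpos ((real_pos r0 r1).trans_le v0)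
  have hd : 0 < dw w := Finset.sum_pos' (fun g _ => cw_nonneg w g) ⟨si, Finset.mem_univ _, hc0⟩
  refine ⟨hd, ?_⟩
  have htest := test_bound hw hd
  -- the bracket is positive
  have g0 : K * (4 * (1 / (6 * (1 + r + r ^ 2)) - (1 - r) ^ 3 / (6 * (1 + r)))) ≤ cw w si := by
    rw [c0]; exact mul_le_mul_of_nonneg_left v0 hKpos.le
  have g2 : cw w si' ≤ K * (4 * (r ^ 2 / (6 * (1 + r + r ^ 2)))) :=
    c2.trans (mul_le_mul_of_nonneg_left v2 hKpos.le)
  have g4 : cw w th + cw w th2 ≤ 4 * K * (2 * (r / (6 * (1 + r + r ^ 2)))) := by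
    have i1 := c4.trans (mul_le_mul_of_nonneg_left v4 (by positivity : 0 ≤ 2 * K))
    have i2 := c4'.trans (mul_le_mul_of_nonneg_left v4' (by positivity : 0 ≤ 2 * K))
    linarith
  have hpos : 0 < (w 0 + w 1) * (cw w si - cw w si') - (w 0 - w 1) * (cw w th + cw w th2) := by
    have e1 := real_pos2 r0 r1 pa hKpos
    rw [← real_id r0, ← hbr] at e1
    have e2 := mul_le_mul_of_nonneg_left (sub_le_sub g0 g2) (by linarith : 0 ≤ w 0 + w 1)
    have e3 := mul_le_mul_of_nonneg_left g4 (by linarith : 0 ≤ w 0 - w 1)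
    linarith
  have hpos2 : 0 < (w 0 ^ 2 + w 1 ^ 2) * ((5 * lambda1 Gam w - 1) * dw w) :=
    lt_of_lt_of_le (mul_pos (by linarith) hpos) htest
  have hpos3 : 0 < (5 * lambda1 Gam w - 1) * dw w :=
    (mul_pos_iff_of_pos_left (by positivity)).1 hpos2
  have hpos4 : 0 < 5 * lambda1 Gam w - 1 := (mul_pos_iff_of_pos_right hd).1 hpos3
  linarith

end OrbPoly
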