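import Pool.Agent.OrbPoly.Vol

set_option autoImplicit false

open Set MeasureTheory Filter Topology Module
open scoped Pointwise

namespace OrbPoly

variable {ι : Type} [Fintype ι]

/-- The polyhedron with normals `m i`. -/
def Po (m : ι → E 3) : Set (E 3) := {v | ∀ i, inner ℝ v (m i) ≤ 1}

omit [Fintype ι] in
lemma Po_subset {m m₀ : ι → E 3} {κ ε : ℝ} (hκ : 0 < κ) (hε : 0 < ε) (hε1 : ε < 1)
    (hco : ∀ v, ∃ i, κ * ‖v‖ ≤ inner ℝ v (m₀ i)) (hm : ∀ i, ‖m i - m₀ i‖ ≤ ε * κ) :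
    Po m ⊆ (1 - ε)⁻¹ • Po m₀ := by
  intro v hv
  have h1 : 0 < 1 - ε := by linarith
  rw [mem_smul_set_iff_inv_smul_mem₀ (inv_ne_zero h1.ne'), inv_inv]
  have h2 : ∀ i, inner ℝ v (m₀ i) ≤ 1 + ε * κ * ‖v‖ := by
    intro i
    have h3 : inner ℝ v (m₀ i) = inner ℝ v (m i) - inner ℝ v (m i - m₀ i) := by
      rw [inner_sub_right]; ring
    have h4 := abs_real_inner_le_norm v (m i - m₀ i)
    have h5 := neg_abs_le (inner ℝ v (m i - m₀ i))
    have h6 : ‖v‖ * ‖m i - m₀ i‖ ≤ ‖v‖ * (ε * κ) := mul_le_mul_of_nonneg_left (hm i) (norm_nonneg _)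
    have h7 := hv i
    rw [h3]
    linarith
  obtain ⟨i, hi⟩ := hco v
  have h8 : κ * ‖v‖ * (1 - ε) ≤ 1 := by
    have := h2 i
    nlinarith
  intro k
  rw [real_inner_smul_left]
  have h9 := mul_le_mul_of_nonneg_left (h2 k) h1.le
  nlinarith

omit [Fintype ι] in
lemma subset_Po {m m₀ : ι → E 3} {κ ε : ℝ} (hκ : 0 < κ) (hε : 0 < ε)
    (hco : ∀ v, ∃ i, κ * ‖v‖ ≤ inner ℝ v (m₀ i)) (hm : ∀ i, ‖m i - m₀ i‖ ≤ ε * κ) :
    (1 + ε)⁻¹ • Po m₀ ⊆ Po m := by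
  rintro _ ⟨v, hv, rfl⟩ k
  have h1 : 0 < 1 + ε := by linarith
  change inner ℝ ((1 + ε)⁻¹ • v) (m k) ≤ 1
  rw [real_inner_smul_left, inv_mul_le_iff₀ h1, mul_one]
  obtain ⟨i, hi⟩ := hco v
  have h2 : κ * ‖v‖ ≤ 1 := hi.trans (hv i)
  have h3 : inner ℝ v (m k) = inner ℝ v (m₀ k) + inner ℝ v (m k - m₀ k) := by
    rw [inner_sub_right]; ring
  have h4 := abs_real_inner_le_norm v (m k - m₀ k)
  have h5 := le_abs_self (inner ℝ v (m k - m₀ k))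
  have h6 : ‖v‖ * ‖m k - m₀ k‖ ≤ ‖v‖ * (ε * κ) := mul_le_mul_of_nonneg_left (hm k) (norm_nonneg _)
  have h7 := hv k
  rw [h3]
  nlinarith

omit [Fintype ι] in
lemma Po_bounded {m₀ : ι → E 3} {κ : ℝ} (hκ : 0 < κ)
    (hco : ∀ v, ∃ i, κ * ‖v‖ ≤ inner ℝ v (m₀ i)) : volume (Po m₀) ≠ ⊤ := by
  have h1 : Po m₀ ⊆ Metric.closedBall 0 κ⁻¹ := by
    intro v hv
    obtain ⟨i, hi⟩ := hco v
    rw [mem_closedBall_zero_iff]
    have h2 : κ * ‖v‖ ≤ 1 := hi.trans (hv i)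
    rw [← mul_one κ⁻¹, ← inv_mul_cancel_left₀ hκ.ne' ‖v‖]
    exact mul_le_mul_of_nonneg_left h2 (inv_nonneg.2 hκ.le)
  exact ne_top_of_le_ne_top measure_closedBall_lt_top.ne (measure_mono h1)

lemma vol_smul_toReal (r : ℝ) (hr : 0 < r) (s : Set (E 3)) :
    (volume (r • s)).toReal = r ^ 3 * (volume s).toReal := by
  rw [Measure.addHaar_smul, ENNReal.toReal_mul, finrank_euclideanSpace, Fintype.card_fin,
    ENNReal.toReal_ofReal (abs_nonneg _), abs_of_pos (by positivity)]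

/-- The volume of a bounded polyhedron depends continuously on its normals. -/
theorem Po_tendsto {m₀ : ι → E 3} {κ : ℝ} (hκ : 0 < κ)
    (hco : ∀ v, ∃ i, κ * ‖v‖ ≤ inner ℝ v (m₀ i)) :
    Tendsto (fun m => (volume (Po m)).toReal) (𝓝 m₀) (𝓝 (volume (Po m₀)).toReal) := by
  set V := (volume (Po m₀)).toReal with hV
  have hfin := Po_bounded hκ hco
  have hnear : ∀ ε : ℝ, 0 < ε → ∀ᶠ m in 𝓝 m₀, ∀ i, ‖m i - m₀ i‖ ≤ ε * κ := by
    intro ε hε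
    refine eventually_all.2 fun i => ?_
    have h1 : Tendsto (fun m : ι → E 3 => ‖m i - m₀ i‖) (𝓝 m₀) (𝓝 0) := by
      have h2 : Continuous fun m : ι → E 3 => ‖m i - m₀ i‖ := by fun_prop
      have h3 := h2.tendsto m₀
      simpa using h3
    exact (h1.eventually (gt_mem_nhds (mul_pos hε hκ))).mono fun m hm => le_of_lt hm
  have hup : ∀ ε : ℝ, 0 < ε → ε < 1 → ∀ᶠ m in 𝓝 m₀, volume (Po m) ≠ ⊤ ∧
      (volume (Po m)).toReal ≤ ((1 - ε)⁻¹) ^ 3 * V := by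
    intro ε hε hε1
    filter_upwards [hnear ε hε] with m hm
    have h1 := measure_mono (μ := volume) (Po_subset hκ hε hε1 hco hm)
    have h2 : volume ((1 - ε)⁻¹ • Po m₀) ≠ ⊤ := by
      rw [Measure.addHaar_smul]
      exact ENNReal.mul_ne_top ENNReal.ofReal_ne_top hfin
    refine ⟨ne_top_of_le_ne_top h2 h1, ?_⟩
    have h3 := ENNReal.toReal_mono h2 h1
    rwa [vol_smul_toReal _ (inv_pos.2 (by linarith))] at h3
  have hlow : ∀ ε : ℝ, 0 < ε → ∀ᶠ m in 𝓝 m₀, ((1 + ε)⁻¹) ^ 3 * V ≤ (volume (Po m)).toReal := by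
    intro ε hε
    filter_upwards [hnear ε hε, hup (1 / 2) (by norm_num) (by norm_num)] with m hm hm2
    have h1 := measure_mono (μ := volume) (subset_Po hκ hε hco hm)
    have h3 := ENNReal.toReal_mono hm2.1 h1
    rwa [vol_smul_toReal _ (inv_pos.2 (by linarith))] at h3
  refine tendsto_order.2 ⟨fun a ha => ?_, fun a ha => ?_⟩
  · have hc : ContinuousAt (fun ε : ℝ => ((1 + ε)⁻¹) ^ 3 * V) 0 := by
      refine ContinuousAt.mul (ContinuousAt.pow (ContinuousAt.inv₀ (by fun_prop) (by norm_num)) 3)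
        continuousAt_const
    have h1 : ∀ᶠ ε in 𝓝 (0 : ℝ), a < ((1 + ε)⁻¹) ^ 3 * V := by
      refine hc.eventually (lt_mem_nhds ?_)
      simpa using ha
    obtain ⟨ε, h2, h3⟩ := ((h1.filter_mono nhdsWithin_le_nhds).and
      (self_mem_nhdsWithin : Ioi (0 : ℝ) ∈ 𝓝[>] (0 : ℝ))).exists
    filter_upwards [hlow ε h3] with m hm
    exact h2.trans_le hm
  · have hc : ContinuousAt (fun ε : ℝ => ((1 - ε)⁻¹) ^ 3 * V) 0 := by
      refine ContinuousAt.mul (ContinuousAt.pow (ContinuousAt.inv₀ (by fun_prop) (by norm_num)) 3)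
        continuousAt_const
    have h1 : ∀ᶠ ε in 𝓝 (0 : ℝ), ((1 - ε)⁻¹) ^ 3 * V < a := by
      refine hc.eventually (gt_mem_nhds ?_)
      simpa using ha
    have h4 : ∀ᶠ ε in 𝓝 (0 : ℝ), ε < 1 := gt_mem_nhds one_pos
    obtain ⟨ε, ⟨h2, h5⟩, h3⟩ := (((h1.and h4).filter_mono nhdsWithin_le_nhds).and
      (self_mem_nhdsWithin : Ioi (0 : ℝ) ∈ 𝓝[>] (0 : ℝ))).exists
    filter_upwards [hup ε h3 h5] with m hm
    exact hm.2.trans_lt h2

end OrbPoly
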