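import Pool.Agent.OrbPoly.Test

set_option autoImplicit false

open Set MeasureTheory

namespace OrbPoly

/-! ### Linear maps with explicit determinants -/

/-- The endomorphism of `ℝ³` with matrix `M`. -/
noncomputable def lin3 (M : Matrix (Fin 3) (Fin 3) ℝ) : E 3 →ₗ[ℝ] E 3 := Matrix.toEuclideanLin M

lemma lin3_apply (M : Matrix (Fin 3) (Fin 3) ℝ) (v : E 3) (i : Fin 3) :
    (lin3 M v) i = M i 0 * v 0 + M i 1 * v 1 + M i 2 * v 2 := by
  simp [lin3, Matrix.toLpLin_apply, Matrix.mulVec, dotProduct, Fin.sum_univ_three]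

lemma det_lin3 (M : Matrix (Fin 3) (Fin 3) ℝ) : LinearMap.det (lin3 M) = M.det := by
  rw [lin3, Matrix.toEuclideanLin_eq_toLin_orthonormal, LinearMap.det_toLin]

/-- The parametrisation with columns `c0, c1, c2`. -/
noncomputable def par (c0 c1 c2 : E 5) : E 3 →ₗ[ℝ] E 5 where
  toFun v := v 0 • c0 + v 1 • c1 + v 2 • c2
  map_add' u v := by
    simp only [PiLp.add_apply, add_smul]
    abel
  map_smul' r v := by
    simp only [PiLp.smul_apply, smul_eq_mul, mul_smul, smul_add, RingHom.id_apply]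

lemma par_apply (c0 c1 c2 : E 5) (v : E 3) (i : Fin 5) :
    (par c0 c1 c2 v) i = v 0 * c0 i + v 1 * c1 i + v 2 * c2 i := rfl

lemma gd_par (c0 c1 c2 : E 5) : gd (par c0 c1 c2) =
    inner ℝ c0 c0 * (inner ℝ c1 c1 * inner ℝ c2 c2 - inner ℝ c1 c2 ^ 2) -
    inner ℝ c0 c1 * (inner ℝ c0 c1 * inner ℝ c2 c2 - inner ℝ c1 c2 * inner ℝ c0 c2) +
    inner ℝ c0 c2 * (inner ℝ c0 c1 * inner ℝ c1 c2 - inner ℝ c1 c1 * inner ℝ c0 c2) := by
  have h0 : par c0 c1 c2 (EuclideanSpace.basisFun (Fin 3) ℝ 0) = c0 := by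
    ext i; simp [par_apply]
  have h1 : par c0 c1 c2 (EuclideanSpace.basisFun (Fin 3) ℝ 1) = c1 := by
    ext i; simp [par_apply]
  have h2 : par c0 c1 c2 (EuclideanSpace.basisFun (Fin 3) ℝ 2) = c2 := by
    ext i; simp [par_apply]
  rw [gd, Matrix.det_fin_three]
  simp only [Matrix.gram_apply]
  rw [h0, h1, h2, real_inner_comm c0 c1, real_inner_comm c0 c2, real_inner_comm c1 c2]
  ring

lemma inner_five (u v : E 5) : inner ℝ u v =
    u 0 * v 0 + u 1 * v 1 + u 2 * v 2 + u 3 * v 3 + u 4 * v 4 := by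
  rw [PiLp.inner_apply]
  simp only [Fin.sum_univ_five]
  simp [mul_comm]

lemma norm_sq_five (u : E 5) : ‖u‖ ^ 2 = u 0 ^ 2 + u 1 ^ 2 + u 2 ^ 2 + u 3 ^ 2 + u 4 ^ 2 := by
  rw [← real_inner_self_eq_norm_sq, inner_five]
  ring

/-! ### Ridges -/

lemma mem_ridge_iff (w : E 5) (g : G) (y : E 5) : y ∈ ridge (orb Gam w) w (act g w) ↔
    inner ℝ y w = 1 ∧ inner ℝ y (act g w) = 1 ∧ oneG ∈ amax (fam w) y := by
  have ho : orb Gam w = range (fam w) := orb_eq w
  rw [ridge, ho]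
  have h1 : fam w oneG = w := act_one w
  constructor
  · rintro ⟨hp, ha, hb⟩
    refine ⟨ha, hb, fun j => ?_⟩
    rw [h1, ha]
    exact hp _ (subset_convexHull ℝ _ ⟨j, rfl⟩)
  · rintro ⟨ha, hb, hm⟩
    refine ⟨fun x hx => le_of_mem_convexHull (fun i => ?_) hx, ha, hb⟩
    have := hm i
    rwa [h1, ha] at this

/-- Cell data. -/
structure Dat (w : E 5) (a b z0 z1 t m : ℝ) : Prop where
  ha : w 0 = a
  hb : w 1 = b
  h2 : w 2 = z0
  h3 : w 3 = z1
  h4 : w 4 = t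
  hm : m = z0 ^ 2 + z1 ^ 2
  pa : 0 < a
  pb : 0 < b
  pt : 0 < t
  pm : 0 < m

lemma Cell.dat {w : E 5} (hw : Cell w) :
    Dat w (w 0) (w 1) (w 2) (w 3) (w 4) (w 2 ^ 2 + w 3 ^ 2) := by
  obtain ⟨q1, q2, q3, q4⟩ := hw
  refine ⟨rfl, rfl, rfl, rfl, rfl, rfl, q1.trans q2, q1, q4, ?_⟩
  rcases not_and_or.1 q3 with h | h
  · have := sq_pos_of_ne_zero h
    have := sq_nonneg (w 3)
    linarith
  · have := sq_pos_of_ne_zero h
    have := sq_nonneg (w 2)
    linarith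

section faces

variable {w : E 5} {a b z0 z1 t m : ℝ} (d : Dat w a b z0 z1 t m)

/-- Columns for the face `(conj x, z, -t)`. -/
noncomputable def A0 (a b z0 z1 t m : ℝ) : E 3 →ₗ[ℝ] E 5 :=
  par !₂[1 / a, 0, -z0 / m, -z1 / m, 0] !₂[0, 1 / b, 0, 0, -1 / t] !₂[0, 0, -z1 / m, z0 / m, 0]

/-- Parameter domain for the face `(conj x, z, -t)`. -/
def D0 (a b : ℝ) : Set (E 3) :=
  {v | oneG ∈ am (v 0 + v 1) (v 1 * a / b - v 0 * b / a) (v 0 - v 1) (v 0 * b / a + v 1 * a / b)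
    (1 - v 0) (v 2) (-v 1)}

include d

lemma ridge0 : ridge (orb Gam w) w (act si w) =
    (fun v => !₂[0, 0, z0 / m, z1 / m, 0] + A0 a b z0 z1 t m v) '' D0 a b := by
  obtain ⟨ha, hb, h2, h3, h4, hm, pa, pb, pt, pm⟩ := d
  have ha0 := pa.ne'
  have hb0 := pb.ne'
  have ht0 := pt.ne'
  have hm0 := pm.ne'
  -- coordinates of the parametrised points
  have hy : ∀ v : E 3, (!₂[0, 0, z0 / m, z1 / m, 0] + A0 a b z0 z1 t m v : E 5) =
      !₂[v 0 / a, v 1 / b, ((1 - v 0) * z0 - v 2 * z1) / m, ((1 - v 0) * z1 + v 2 * z0) / m,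
        -v 1 / t] := by
    intro v
    ext i
    rw [PiLp.add_apply, A0, par_apply]
    fin_cases i <;> simp <;> field_simp <;> ring
  have hval : ∀ v : E 3, inner ℝ (!₂[v 0 / a, v 1 / b, ((1 - v 0) * z0 - v 2 * z1) / m,
      ((1 - v 0) * z1 + v 2 * z0) / m, -v 1 / t] : E 5) w = 1 ∧
      inner ℝ (!₂[v 0 / a, v 1 / b, ((1 - v 0) * z0 - v 2 * z1) / m,
      ((1 - v 0) * z1 + v 2 * z0) / m, -v 1 / t] : E 5) (act si w) = 1 ∧
      amax (fam w) (!₂[v 0 / a, v 1 / b, ((1 - v 0) * z0 - v 2 * z1) / m,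
      ((1 - v 0) * z1 + v 2 * z0) / m, -v 1 / t] : E 5) =
      am (v 0 + v 1) (v 1 * a / b - v 0 * b / a) (v 0 - v 1) (v 0 * b / a + v 1 * a / b)
        (1 - v 0) (v 2) (-v 1) := by
    intro v
    obtain ⟨f0, f1, f2, f3, f4⟩ := five (v 0 / a) (v 1 / b) (((1 - v 0) * z0 - v 2 * z1) / m)
      (((1 - v 0) * z1 + v 2 * z0) / m) (-v 1 / t)
    refine ⟨?_, ?_, ?_⟩
    · rw [inner_five, f0, f1, f2, f3, f4, ha, hb, h2, h3, h4]
      rw [hm] at pm hm0 ⊢
      field_simp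
      ring
    · rw [inner_act, f0, f1, f2, f3, f4, ha, hb, h2, h3, h4]
      simp only [val, si, sg_false, sg_true, one_mul, if_true, Bool.false_eq_true, if_false]
      rw [hm] at pm hm0 ⊢
      field_simp
      ring
    · rw [amax_fam, f0, f1, f2, f3, f4, ha, hb, h2, h3, h4]
      rw [hm] at pm hm0 ⊢
      congr 1 <;> field_simp <;> ring
  ext y
  rw [mem_ridge_iff]
  constructor
  · rintro ⟨e1, e2, e3⟩
    have i1 := e1
    have i2 := e2
    rw [inner_five] at i1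
    rw [inner_act] at i2
    simp only [val, si, sg_false, sg_true, one_mul, if_true] at i2
    simp at i2
    rw [ha, hb, h2, h3, h4] at i1 i2
    have hyy : y = !₂[(y 0 * a) / a, (y 1 * b) / b,
        ((1 - y 0 * a) * z0 - (y 3 * z0 - y 2 * z1) * z1) / m,
        ((1 - y 0 * a) * z1 + (y 3 * z0 - y 2 * z1) * z0) / m, -(y 1 * b) / t] := by
      have j1 : y 2 * z0 + y 3 * z1 = 1 - y 0 * a := by linarith
      have j2 : y 4 * t = -(y 1 * b) := by linarith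
      ext i
      fin_cases i
      · simp; field_simp
      · simp; field_simp
      · simp
        rw [← j1, hm]
        rw [hm] at hm0
        field_simp
        ring
      · simp
        rw [← j1, hm]
        rw [hm] at hm0
        field_simp
        ring
      · simp
        rw [← j2]
        field_simp
    refine ⟨!₂[y 0 * a, y 1 * b, y 3 * z0 - y 2 * z1], ?_, ?_⟩
    · have e4 := (hval !₂[y 0 * a, y 1 * b, y 3 * z0 - y 2 * z1]).2.2
      have e5 : (!₂[(!₂[y 0 * a, y 1 * b, y 3 * z0 - y 2 * z1] : E 3) 0 / a,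
        (!₂[y 0 * a, y 1 * b, y 3 * z0 - y 2 * z1] : E 3) 1 / b,
        ((1 - (!₂[y 0 * a, y 1 * b, y 3 * z0 - y 2 * z1] : E 3) 0) * z0 -
          (!₂[y 0 * a, y 1 * b, y 3 * z0 - y 2 * z1] : E 3) 2 * z1) / m,
        ((1 - (!₂[y 0 * a, y 1 * b, y 3 * z0 - y 2 * z1] : E 3) 0) * z1 +
          (!₂[y 0 * a, y 1 * b, y 3 * z0 - y 2 * z1] : E 3) 2 * z0) / m,
        -(!₂[y 0 * a, y 1 * b, y 3 * z0 - y 2 * z1] : E 3) 1 / t] : E 5) = y := by
        conv_rhs => rw [hyy]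
        rfl
      rw [e5] at e4
      rw [e4] at e3
      exact e3
    · change _ + A0 a b z0 z1 t m _ = y
      rw [hy]
      conv_rhs => rw [hyy]
      rfl
  · rintro ⟨v, hv, rfl⟩
    obtain ⟨e1, e2, e3⟩ := hval v
    change inner ℝ (_ + A0 a b z0 z1 t m v) w = 1 ∧ inner ℝ (_ + A0 a b z0 z1 t m v) _ = 1 ∧
      oneG ∈ amax (fam w) (_ + A0 a b z0 z1 t m v)
    rw [hy]
    refine ⟨e1, e2, ?_⟩
    rw [e3]
    exact hv

lemma gd0 : gd (A0 a b z0 z1 t m) = (1 / (2 * a * b * m * t)) ^ 2 * ar w (act si w) ∧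
    0 < ar w (act si w) := by
  obtain ⟨ha, hb, h2, h3, h4, hm, pa, pb, pt, pm⟩ := d
  have har : ar w (act si w) = 4 * (b ^ 2 + t ^ 2) * (a ^ 2 + m) := by
    rw [ar, norm_act, norm_sq_five, inner_act]
    simp only [val, si, sg_false, sg_true, one_mul, if_true]
    simp
    rw [ha, hb, h2, h3, h4, hm]
    ring
  refine ⟨?_, by rw [har]; positivity⟩
  rw [har, A0, gd_par]
  simp only [inner_five]
  simp
  have hm0 := pm.ne'
  rw [hm] at hm0 ⊢
  field_simp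
  ring

end faces

end OrbPoly
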