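import Pool.Agent.OrbPoly.Ridge

set_option autoImplicit false

open Set MeasureTheory

namespace OrbPoly

lemma ridge_param {w : E 5} {g : G} {A : E 3 →ₗ[ℝ] E 5} {p : E 5} {D : Set (E 3)}
    (h1 : ∀ v, inner ℝ (p + A v) w = 1 ∧ inner ℝ (p + A v) (act g w) = 1 ∧
      (oneG ∈ amax (fam w) (p + A v) ↔ v ∈ D))
    (h2 : ∀ y, inner ℝ y w = 1 → inner ℝ y (act g w) = 1 → ∃ v, p + A v = y) :
    ridge (orb Gam w) w (act g w) = (fun v => p + A v) '' D := by
  ext y
  rw [mem_ridge_iff]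
  constructor
  · rintro ⟨e1, e2, e3⟩
    obtain ⟨v, rfl⟩ := h2 y e1 e2
    exact ⟨v, (h1 v).2.2.1 e3, rfl⟩
  · rintro ⟨v, hv, rfl⟩
    exact ⟨(h1 v).1, (h1 v).2.1, (h1 v).2.2.2 hv⟩

section faces

variable {w : E 5} {a b z0 z1 t m : ℝ} (d : Dat w a b z0 z1 t m)

/-- Columns for the face `(-conj x, z, -t)`. -/
noncomputable def A2 (a b z0 z1 t m : ℝ) : E 3 →ₗ[ℝ] E 5 :=
  par !₂[1 / a, 0, 0, 0, -1 / t] !₂[0, 1 / b, -z0 / m, -z1 / m, 0] !₂[0, 0, -z1 / m, z0 / m, 0]

/-- Parameter domain for the face `(-conj x, z, -t)`. -/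
def D2 (a b : ℝ) : Set (E 3) :=
  {v | oneG ∈ am (v 0 + v 1) (v 1 * a / b - v 0 * b / a) (v 0 - v 1) (v 0 * b / a + v 1 * a / b)
    (1 - v 1) (v 2) (-v 0)}

/-- Columns for the faces `(i conj x, ± i z, -t)`. -/
noncomputable def A4 (a b z0 z1 t m s : ℝ) : E 3 →ₗ[ℝ] E 5 :=
  par !₂[1 / a, 0, (-z0 + s * (b / a) * z1) / m, (-z1 - s * (b / a) * z0) / m, 0]
    !₂[0, 1 / b, (-z0 + s * (a / b) * z1) / m, (-z1 - s * (a / b) * z0) / m, 0]
    !₂[0, 0, (-z0 - s * z1) / m, (-z1 + s * z0) / m, 1 / t]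

/-- Parameter domain for the faces `(i conj x, ± i z, -t)`. -/
def D4 (a b s : ℝ) : Set (E 3) :=
  {v | oneG ∈ am (v 0 + v 1) (v 1 * a / b - v 0 * b / a) (v 0 - v 1) (v 0 * b / a + v 1 * a / b)
    (1 - v 2 - v 0 - v 1) (s * (1 + v 2 - (v 0 * b / a + v 1 * a / b))) (v 2)}

include d

lemma ridge2 : ridge (orb Gam w) w (act si' w) =
    (fun v => !₂[0, 0, z0 / m, z1 / m, 0] + A2 a b z0 z1 t m v) '' D2 a b := by
  obtain ⟨ha, hb, h2, h3, h4, hm, pa, pb, pt, pm⟩ := d
  have ha0 := pa.ne'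
  have hb0 := pb.ne'
  have ht0 := pt.ne'
  have hm0 := pm.ne'
  have hy : ∀ v : E 3, (!₂[0, 0, z0 / m, z1 / m, 0] + A2 a b z0 z1 t m v : E 5) =
      !₂[v 0 / a, v 1 / b, ((1 - v 1) * z0 - v 2 * z1) / m, ((1 - v 1) * z1 + v 2 * z0) / m,
        -v 0 / t] := by
    intro v
    ext i
    rw [PiLp.add_apply, A2, par_apply]
    fin_cases i <;> simp <;> field_simp <;> ring
  refine ridge_param ?_ ?_
  · intro v
    rw [hy]
    obtain ⟨f0, f1, f2, f3, f4⟩ := five (v 0 / a) (v 1 / b) (((1 - v 1) * z0 - v 2 * z1) / m)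
      (((1 - v 1) * z1 + v 2 * z0) / m) (-v 0 / t)
    refine ⟨?_, ?_, ?_⟩
    · rw [inner_five, f0, f1, f2, f3, f4, ha, hb, h2, h3, h4]
      rw [hm] at pm hm0 ⊢
      field_simp
      ring
    · rw [inner_act, f0, f1, f2, f3, f4, ha, hb, h2, h3, h4]
      simp only [val, si', sg_false, sg_true, one_mul, if_true, Bool.false_eq_true, if_false]
      rw [hm] at pm hm0 ⊢
      field_simp
      ring
    · have : amax (fam w) (!₂[v 0 / a, v 1 / b, ((1 - v 1) * z0 - v 2 * z1) / m,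
          ((1 - v 1) * z1 + v 2 * z0) / m, -v 0 / t] : E 5) =
          am (v 0 + v 1) (v 1 * a / b - v 0 * b / a) (v 0 - v 1) (v 0 * b / a + v 1 * a / b)
            (1 - v 1) (v 2) (-v 0) := by
        rw [amax_fam, f0, f1, f2, f3, f4, ha, hb, h2, h3, h4]
        rw [hm] at pm hm0 ⊢
        congr 1 <;> field_simp <;> ring
      rw [this]
      rfl
  · intro y i1 i2
    rw [inner_five] at i1
    rw [inner_act] at i2
    simp only [val, si', sg_false, sg_true, one_mul, if_true, Bool.false_eq_true, if_false] at i2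
    rw [ha, hb, h2, h3, h4] at i1 i2
    refine ⟨!₂[y 0 * a, y 1 * b, y 3 * z0 - y 2 * z1], ?_⟩
    rw [hy]
    have j1 : y 2 * z0 + y 3 * z1 = 1 - y 1 * b := by linarith
    have j2 : y 4 * t = -(y 0 * a) := by linarith
    ext i
    fin_cases i
    · simp; field_simp
    · simp; field_simp
    · simp
      rw [← j1, hm]
      rw [hm] at hm0
      field_simp
      ring
    · simp
      rw [← j1, hm]
      rw [hm] at hm0
      field_simp
      ring
    · simp
      rw [← j2]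
      field_simp

lemma gd2 : gd (A2 a b z0 z1 t m) = (1 / (2 * a * b * m * t)) ^ 2 * ar w (act si' w) ∧
    0 < ar w (act si' w) := by
  obtain ⟨ha, hb, h2, h3, h4, hm, pa, pb, pt, pm⟩ := d
  have har : ar w (act si' w) = 4 * (a ^ 2 + t ^ 2) * (b ^ 2 + m) := by
    rw [ar, norm_act, norm_sq_five, inner_act]
    simp only [val, si', sg_false, sg_true, one_mul, if_true, Bool.false_eq_true, if_false]
    rw [ha, hb, h2, h3, h4, hm]
    ring
  refine ⟨?_, by rw [har]; positivity⟩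
  rw [har, A2, gd_par]
  simp only [inner_five]
  simp
  have hm0 := pm.ne'
  rw [hm] at hm0 ⊢
  field_simp
  ring

lemma ridge4 {s : ℝ} {g : G} (hs : (s = 1 ∧ g = th) ∨ (s = -1 ∧ g = th2)) :
    ridge (orb Gam w) w (act g w) =
    (fun v => !₂[0, 0, (z0 - s * z1) / m, (z1 + s * z0) / m, 0] + A4 a b z0 z1 t m s v) ''
      D4 a b s := by
  obtain ⟨ha, hb, h2, h3, h4, hm, pa, pb, pt, pm⟩ := d
  have ha0 := pa.ne'
  have hb0 := pb.ne'
  have ht0 := pt.ne'
  have hm0 := pm.ne'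
  have hss : s * s = 1 := by rcases hs with ⟨h, _⟩ | ⟨h, _⟩ <;> rw [h] <;> norm_num
  have hy : ∀ v : E 3, (!₂[0, 0, (z0 - s * z1) / m, (z1 + s * z0) / m, 0] +
      A4 a b z0 z1 t m s v : E 5) =
      !₂[v 0 / a, v 1 / b, ((1 - v 2 - v 0 - v 1) * z0 -
        s * (1 + v 2 - (v 0 * b / a + v 1 * a / b)) * z1) / m,
        ((1 - v 2 - v 0 - v 1) * z1 + s * (1 + v 2 - (v 0 * b / a + v 1 * a / b)) * z0) / m,
        v 2 / t] := by
    intro v
    ext i
    rw [PiLp.add_apply, A4, par_apply]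
    fin_cases i <;> simp <;> field_simp <;> ring
  refine ridge_param ?_ ?_
  · intro v
    rw [hy]
    obtain ⟨f0, f1, f2, f3, f4⟩ := five (v 0 / a) (v 1 / b) (((1 - v 2 - v 0 - v 1) * z0 -
        s * (1 + v 2 - (v 0 * b / a + v 1 * a / b)) * z1) / m)
      (((1 - v 2 - v 0 - v 1) * z1 + s * (1 + v 2 - (v 0 * b / a + v 1 * a / b)) * z0) / m) (v 2 / t)
    refine ⟨?_, ?_, ?_⟩
    · rw [inner_five, f0, f1, f2, f3, f4, ha, hb, h2, h3, h4]
      rw [hm] at pm hm0 ⊢
      field_simp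
      ring
    · rw [inner_act, f0, f1, f2, f3, f4, ha, hb, h2, h3, h4]
      rw [hm] at pm hm0 ⊢
      rcases hs with ⟨hs1, hs2⟩ | ⟨hs1, hs2⟩
      · rw [hs1, hs2]
        simp only [val, th, sg_false, sg_true, one_mul, if_true]
        field_simp
        ring
      · rw [hs1, hs2]
        simp only [val, th2, sg_false, sg_true, one_mul, if_true]
        field_simp
        ring
    · have : amax (fam w) (!₂[v 0 / a, v 1 / b, ((1 - v 2 - v 0 - v 1) * z0 -
          s * (1 + v 2 - (v 0 * b / a + v 1 * a / b)) * z1) / m,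
          ((1 - v 2 - v 0 - v 1) * z1 + s * (1 + v 2 - (v 0 * b / a + v 1 * a / b)) * z0) / m,
          v 2 / t] : E 5) =
          am (v 0 + v 1) (v 1 * a / b - v 0 * b / a) (v 0 - v 1) (v 0 * b / a + v 1 * a / b)
            (1 - v 2 - v 0 - v 1) (s * (1 + v 2 - (v 0 * b / a + v 1 * a / b))) (v 2) := by
        rw [amax_fam, f0, f1, f2, f3, f4, ha, hb, h2, h3, h4]
        rw [hm] at pm hm0 ⊢
        congr 1 <;> field_simp <;> ring
      rw [this]
      rfl
  · intro y i1 i2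
    rw [inner_five] at i1
    rw [inner_act] at i2
    rw [ha, hb, h2, h3, h4] at i1 i2
    refine ⟨!₂[y 0 * a, y 1 * b, y 4 * t], ?_⟩
    rw [hy]
    have j1 : 1 - y 4 * t - y 0 * a - y 1 * b = y 2 * z0 + y 3 * z1 := by linarith
    have j2 : s * (1 + y 4 * t - (y 0 * b + y 1 * a)) = y 3 * z0 - y 2 * z1 := by
      rcases hs with ⟨hs1, hs2⟩ | ⟨hs1, hs2⟩
      · rw [hs1]
        rw [hs2] at i2
        simp only [val, th, sg_false, sg_true, one_mul, if_true] at i2
        linarith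
      · rw [hs1]
        rw [hs2] at i2
        simp only [val, th2, sg_false, sg_true, one_mul, if_true] at i2
        linarith
    have j3 : y 0 * a * b / a + y 1 * b * a / b = y 0 * b + y 1 * a := by field_simp
    ext i
    fin_cases i
    · simp; field_simp
    · simp; field_simp
    · simp
      rw [j3, j1, j2, hm]
      rw [hm] at hm0
      field_simp
      ring
    · simp
      rw [j3, j1, j2, hm]
      rw [hm] at hm0
      field_simp
      ring
    · simp
      field_simp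

lemma gd4 {s : ℝ} {g : G} (hs : (s = 1 ∧ g = th) ∨ (s = -1 ∧ g = th2)) :
    gd (A4 a b z0 z1 t m s) = (1 / (a * b * m * t)) ^ 2 * ar w (act g w) ∧
    0 < ar w (act g w) := by
  obtain ⟨ha, hb, h2, h3, h4, hm, pa, pb, pt, pm⟩ := d
  have har : ar w (act g w) = ((a + b) ^ 2 + m) * ((a - b) ^ 2 + m + 2 * t ^ 2) := by
    rw [ar, norm_act, norm_sq_five, inner_act]
    rcases hs with ⟨_, hs2⟩ | ⟨_, hs2⟩
    · rw [hs2]
      simp only [val, th, sg_false, sg_true, one_mul, if_true]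
      rw [ha, hb, h2, h3, h4, hm]
      ring
    · rw [hs2]
      simp only [val, th2, sg_false, sg_true, one_mul, if_true]
      rw [ha, hb, h2, h3, h4, hm]
      ring
  refine ⟨?_, by rw [har]; positivity⟩
  rw [har, A4, gd_par]
  simp only [inner_five]
  simp
  have hm0 := pm.ne'
  rw [hm] at hm0 ⊢
  rcases hs with ⟨hs1, _⟩ | ⟨hs1, _⟩
  · rw [hs1]
    field_simp
    ring
  · rw [hs1]
    field_simp
    ring

end faces

end OrbPoly
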