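import Pool.Agent.OrbPoly.Faces

set_option autoImplicit false

open Set Filter Topology

namespace OrbPoly

variable {ι : Type} [Fintype ι] [Nonempty ι] {k : ℕ}

omit [Fintype ι] [Nonempty ι] in
/-- Two exposed index sets that meet have an exposed intersection. -/
lemma expo_inter {f : ι → E k} {S T : Set ι} (hS : S ∈ expo f) (hT : T ∈ expo f)
    (hne : (S ∩ T).Nonempty) : S ∩ T ∈ expo f := by
  obtain ⟨y, rfl⟩ := hS
  obtain ⟨z, rfl⟩ := hT
  obtain ⟨i0, hi1, hi2⟩ := hne
  refine ⟨y + z, ?_⟩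
  ext i
  constructor
  · intro h
    have h1 := h i0
    rw [inner_add_left, inner_add_left] at h1
    have h2 := hi1 i
    have h3 := hi2 i
    refine ⟨fun j => ?_, fun j => ?_⟩
    · have := hi1 j; linarith
    · have := hi2 j; linarith
  · rintro ⟨h1, h2⟩ j
    rw [inner_add_left, inner_add_left]
    have := h1 j
    have := h2 j
    linarith

omit [Fintype ι] [Nonempty ι] in
lemma univ_mem_expo (f : ι → E k) : (univ : Set ι) ∈ expo f := by
  refine ⟨0, ?_⟩
  ext i
  simp [amax]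

omit [Nonempty ι] in
/-- The closure of an index set in the poset of faces. -/
lemma exists_least (f : ι → E k) (S : Set ι) : ∃ T : FaceSets f, S ⊆ T.1 ∧
    ∀ T' : FaceSets f, S ⊆ T'.1 → T.1 ⊆ T'.1 := by
  classical
  have hfin : ({T : FaceSets f | S ⊆ T.1}).Finite := Set.toFinite _
  have hne : ({T : FaceSets f | S ⊆ T.1}).Nonempty :=
    ⟨⟨univ, Or.inr (univ_mem_expo f)⟩, subset_univ _⟩
  obtain ⟨T, hT⟩ := hfin.exists_minimal hne
  refine ⟨T, hT.1, fun T' hT' => ?_⟩
  have hint : T.1 ∩ T'.1 = ∅ ∨ T.1 ∩ T'.1 ∈ expo f := by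
    rcases (T.1 ∩ T'.1).eq_empty_or_nonempty with h | h
    · exact Or.inl h
    · right
      rcases T.2 with h1 | h1
      · simp [h1] at h
      · rcases T'.2 with h2 | h2
        · simp [h2] at h
        · exact expo_inter h1 h2 h
  have h1 : (⟨T.1 ∩ T'.1, hint⟩ : FaceSets f) ∈ {T : FaceSets f | S ⊆ T.1} :=
    subset_inter hT.1 hT'
  have h2 : (⟨T.1 ∩ T'.1, hint⟩ : FaceSets f) ≤ T := inter_subset_left
  have h3 := hT.2 h1 h2
  exact (h3 : T.1 ⊆ T.1 ∩ T'.1).trans inter_subset_right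

omit [Fintype ι] [Nonempty ι] in
lemma amax_self {f : ι → E k} (hf : ∀ i j, ‖f i‖ = ‖f j‖) (g : ι) :
    amax f (f g) = {h | f h = f g} := by
  ext i
  constructor
  · intro h
    have h1 := h g
    rw [real_inner_self_eq_norm_sq] at h1
    have h2 : ‖f i - f g‖ ^ 2 ≤ 0 := by
      rw [@norm_sub_sq_real, real_inner_comm, hf i g]
      linarith
    have h3 : ‖f i - f g‖ = 0 := by
      have := norm_nonneg (f i - f g)
      nlinarith
    exact sub_eq_zero.1 (norm_eq_zero.1 h3)
  · intro h j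
    change f i = f g at h
    rw [h]
    have := real_inner_le_norm (f g) (f j)
    rw [hf j g] at this
    rw [real_inner_self_eq_norm_sq, pow_two]
    exact this

/-- Optimality condition: a convex combination of the active vectors is orthogonal to `V`. -/
lemma exists_weights (V : Submodule ℝ (E k)) (S : Finset ι) (g : ι → E k)
    (h : ∀ u ∈ V, ∃ i ∈ S, 0 ≤ inner ℝ u (g i)) :
    ∃ lam : ι → ℝ, (∀ i, 0 ≤ lam i) ∧ (∀ i, i ∉ S → lam i = 0) ∧ ∑ i, lam i = 1 ∧
      ∀ u ∈ V, inner ℝ u (∑ i, lam i • g i) = 0 := by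
  classical
  let D : Set (ι → ℝ) := stdSimplex ℝ ι ∩ {l | ∀ i, i ∉ S → l i = 0}
  have hDc : Convex ℝ D := by
    refine (convex_stdSimplex ℝ ι).inter ?_
    intro a ha b hb c d _ _ _ i hi
    simp [ha i hi, hb i hi]
  have hDk : IsCompact D := by
    refine (isCompact_stdSimplex ℝ ι).inter_right ?_
    have : {l : ι → ℝ | ∀ i, i ∉ S → l i = 0} = ⋂ i : ι, ⋂ _ : i ∉ S, {l : ι → ℝ | l i = 0} := by
      ext l; simp
    rw [this]
    exact isClosed_iInter fun i => isClosed_iInter fun _ =>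
      isClosed_eq (continuous_apply i) continuous_const
  let L : (ι → ℝ) →ₗ[ℝ] E k :=
    { toFun := fun l => ∑ i, l i • g i
      map_add' := fun a b => by simp [add_smul, Finset.sum_add_distrib]
      map_smul' := fun a b => by simp [mul_smul, Finset.smul_sum] }
  have hLc : Continuous L := LinearMap.continuous_of_finiteDimensional L
  by_cases hmeet : Disjoint (L '' D) (Vᗮ : Set (E k))
  · exfalso
    obtain ⟨f, u, v, h1, h2, h3⟩ := geometric_hahn_banach_compact_closed
      (hDc.linear_image L) (hDk.image hLc) (Vᗮ).convex (Submodule.isClosed_orthogonal V) hmeet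
    have hv0 : v < 0 := by simpa using h3 0 (Vᗮ).zero_mem
    have hfz : ∀ b ∈ (Vᗮ : Set (E k)), f b = 0 := by
      intro b hb
      by_contra hne
      have hmem : ((v / f b) • b) ∈ (Vᗮ : Set (E k)) := (Vᗮ).smul_mem _ hb
      have h4 := h3 _ hmem
      rw [map_smul, smul_eq_mul, div_mul_cancel₀ _ hne] at h4
      exact lt_irrefl _ h4
    obtain ⟨y, hy⟩ := exists_inner_eq f
    have hyV : y ∈ V := by
      rw [← Submodule.orthogonal_orthogonal V, Submodule.mem_orthogonal]
      intro b hb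
      rw [real_inner_comm, ← hy]
      exact hfz b hb
    obtain ⟨i, hiS, hi⟩ := h y hyV
    have hsingle : (Pi.single i (1 : ℝ) : ι → ℝ) ∈ D := by
      refine ⟨single_mem_stdSimplex ℝ i, ?_⟩
      intro j hj
      have hji : j ≠ i := fun hh => hj (hh ▸ hiS)
      simp [hji]
    have hLs : L (Pi.single i (1 : ℝ)) = g i := by
      simp [L, Pi.single_apply]
    have h4 := h1 _ ⟨_, hsingle, rfl⟩
    rw [hLs, hy] at h4
    linarith
  · rw [Set.not_disjoint_iff] at hmeet
    obtain ⟨_, ⟨l, hl, rfl⟩, hlV⟩ := hmeet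
    refine ⟨l, hl.1.1, hl.2, hl.1.2, fun u hu => ?_⟩
    exact (Submodule.mem_orthogonal V _).1 hlV u hu

omit [Nonempty ι] in
/-- Coercivity on the span of a balanced family. -/
lemma exists_coercive (s : Finset ι) (hs : s.Nonempty) (g : ι → E k) (hsum : ∑ i ∈ s, g i = 0) :
    ∃ c > 0, ∀ v ∈ Submodule.span ℝ (g '' (s : Set ι)), ∃ i ∈ s, c * ‖v‖ ≤ inner ℝ v (g i) := by
  classical
  set V := Submodule.span ℝ (g '' (s : Set ι)) with hV
  let φ : E k → ℝ := fun v => s.sup' hs (fun i => inner ℝ v (g i))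
  have hφc : Continuous φ := by
    refine Continuous.finset_sup'_apply hs fun i _ => ?_
    fun_prop
  let K : Set (E k) := Metric.sphere (0 : E k) 1 ∩ V
  have hK : IsCompact K :=
    (isCompact_sphere (0 : E k) 1).inter_right V.closed_of_finiteDimensional
  rcases K.eq_empty_or_nonempty with h0 | hne
  · refine ⟨1, one_pos, fun v hv => ?_⟩
    have hv0 : v = 0 := by
      by_contra hne
      have : (‖v‖⁻¹ • v) ∈ K := by
        refine ⟨?_, V.smul_mem _ hv⟩
        rw [mem_sphere_zero_iff_norm, norm_smul, norm_inv, norm_norm,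
          inv_mul_cancel₀ (norm_ne_zero_iff.2 hne)]
      rw [h0] at this
      exact this
    obtain ⟨i, hi⟩ := hs
    exact ⟨i, hi, by simp [hv0]⟩
  · obtain ⟨v0, hv0, hmin⟩ := hK.exists_isMinOn hne hφc.continuousOn
    have hpos : 0 < φ v0 := by
      by_contra hle
      push Not at hle
      have h1 : ∀ i ∈ s, inner ℝ v0 (g i) ≤ 0 := fun i hi =>
        (Finset.le_sup' (fun i => inner ℝ v0 (g i)) hi).trans hle
      have h2 : ∑ i ∈ s, inner ℝ v0 (g i) = 0 := by
        rw [← inner_sum, hsum, inner_zero_right]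
      have h3 := (Finset.sum_eq_zero_iff_of_nonpos h1).1 h2
      have h4 : ∀ w ∈ V, inner ℝ v0 w = 0 := by
        intro w hw
        refine Submodule.span_induction ?_ ?_ ?_ ?_ hw
        · rintro _ ⟨i, hi, rfl⟩; exact h3 i hi
        · simp
        · intro a b _ _ ha hb; rw [inner_add_right, ha, hb, add_zero]
        · intro c a _ ha; rw [real_inner_smul_right, ha, mul_zero]
      have h5 := h4 v0 hv0.2
      rw [real_inner_self_eq_norm_sq, mem_sphere_zero_iff_norm.1 hv0.1] at h5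
      norm_num at h5
    refine ⟨φ v0, hpos, fun v hv => ?_⟩
    by_cases hv0' : v = 0
    · obtain ⟨i, hi⟩ := hs
      exact ⟨i, hi, by simp [hv0']⟩
    · have hn : 0 < ‖v‖ := norm_pos_iff.2 hv0'
      have hmem : (‖v‖⁻¹ • v) ∈ K := by
        refine ⟨?_, V.smul_mem _ hv⟩
        rw [mem_sphere_zero_iff_norm, norm_smul, norm_inv, norm_norm, inv_mul_cancel₀ hn.ne']
      have h1 : φ v0 ≤ φ (‖v‖⁻¹ • v) := hmin hmem
      obtain ⟨i, hi, hmax⟩ := Finset.exists_mem_eq_sup' hs (fun i => inner ℝ (‖v‖⁻¹ • v) (g i))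
      refine ⟨i, hi, ?_⟩
      have h2 : φ v0 ≤ ‖v‖⁻¹ * inner ℝ v (g i) := by
        rw [← real_inner_smul_left]
        exact h1.trans hmax.le
      calc φ v0 * ‖v‖ ≤ (‖v‖⁻¹ * inner ℝ v (g i)) * ‖v‖ := by gcongr
        _ = inner ℝ v (g i) := by field_simp

/-- Near `f₀` every face of `f₀` is the closure of a face of `f` contained in it. -/
lemma eventually_exists_sub (f₀ : ι → E k) {S' : Set ι} (hS' : S' ∈ expo f₀) :
    ∀ᶠ f in 𝓝 f₀, ∃ S ∈ expo f, S ⊆ S' ∧ ∀ T ∈ expo f₀, S ⊆ T → S' ⊆ T := by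
  classical
  obtain ⟨y₀, hy₀⟩ := hS'
  set s : Finset ι := Finset.univ.filter (fun i => i ∈ S') with hsdef
  have hmem_s : ∀ i, i ∈ s ↔ i ∈ S' := fun i => by simp [s]
  have hs : s.Nonempty := by
    obtain ⟨i, hi⟩ := exists_amax_mem f₀ y₀
    exact ⟨i, (hmem_s i).2 (hy₀ ▸ hi)⟩
  set n : ℝ := (s.card : ℝ) with hn
  have hnpos : 0 < n := by
    rw [hn]; exact_mod_cast Finset.card_pos.2 hs
  set b : (ι → E k) → E k := fun f => n⁻¹ • ∑ i ∈ s, f i with hb
  have hbsum : ∀ f : ι → E k, ∑ i ∈ s, (f i - b f) = 0 := by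
    intro f
    rw [Finset.sum_sub_distrib, Finset.sum_const, hb]
    simp only
    rw [← Nat.cast_smul_eq_nsmul ℝ, smul_smul, mul_inv_cancel₀ hnpos.ne', one_smul, sub_self]
  set V : Submodule ℝ (E k) :=
    Submodule.span ℝ ((fun i => f₀ i - b f₀) '' (s : Set ι)) with hV
  obtain ⟨c, hc, hcoer⟩ := exists_coercive s hs (fun i => f₀ i - b f₀) (hbsum f₀)
  -- the gap
  have hmax : ∀ i j, i ∈ S' → inner ℝ y₀ (f₀ j) ≤ inner ℝ y₀ (f₀ i) := by
    intro i j hi
    rw [← hy₀] at hi
    exact hi j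
  have hS'eq : ∀ i ∈ s, inner ℝ y₀ (f₀ i - b f₀) = 0 := by
    intro i hi
    have h1 : ∀ j ∈ s, inner ℝ y₀ (f₀ j) = inner ℝ y₀ (f₀ i) := fun j hj =>
      le_antisymm (hmax i j ((hmem_s i).1 hi)) (hmax j i ((hmem_s j).1 hj))
    rw [inner_sub_right, hb]
    simp only
    rw [real_inner_smul_right, inner_sum, Finset.sum_congr rfl h1, Finset.sum_const,
      nsmul_eq_mul, ← hn, ← mul_assoc, inv_mul_cancel₀ hnpos.ne', one_mul, sub_self]
  obtain ⟨δ, hδ, hgap⟩ : ∃ δ > 0, ∀ i, i ∉ S' → inner ℝ y₀ (f₀ i - b f₀) ≤ -δ := by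
    by_cases hall : ∃ i, i ∉ S'
    · have hneg : ∀ i, i ∉ S' → inner ℝ y₀ (f₀ i - b f₀) < 0 := by
        intro i hi
        obtain ⟨j, hj⟩ := hs
        have h1 := hS'eq j hj
        rw [inner_sub_right] at h1 ⊢
        have h2 : inner ℝ y₀ (f₀ i) < inner ℝ y₀ (f₀ j) := by
          by_contra hle
          push Not at hle
          apply hi
          rw [← hy₀]
          intro l
          exact (hmax j l ((hmem_s j).1 hj)).trans hle
        linarith
      let t : Finset ι := Finset.univ.filter (fun i => i ∉ S')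
      have ht : t.Nonempty := by
        obtain ⟨i, hi⟩ := hall
        exact ⟨i, by simp [t, hi]⟩
      obtain ⟨i0, hi0, hm⟩ := t.exists_max_image (fun i => inner ℝ y₀ (f₀ i - b f₀)) ht
      have hi0' : i0 ∉ S' := by simpa [t] using hi0
      refine ⟨-inner ℝ y₀ (f₀ i0 - b f₀), by linarith [hneg i0 hi0'], fun i hi => ?_⟩
      have := hm i (by simp [t, hi])
      linarith
    · push Not at hall
      exact ⟨1, one_pos, fun i hi => absurd (hall i) hi⟩
  obtain ⟨K, hK0, hK⟩ : ∃ K > 0, ∀ i, ‖f₀ i - b f₀‖ ≤ K := by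
    obtain ⟨i0, hi0⟩ := Finite.exists_max (fun i => ‖f₀ i - b f₀‖)
    exact ⟨‖f₀ i0 - b f₀‖ + 1, by positivity, fun i => (hi0 i).trans (by linarith)⟩
  set ρ : ℝ := δ / (4 * K) with hρ
  have hρpos : 0 < ρ := by positivity
  have hρK : ρ * K = δ / 4 := by rw [hρ]; field_simp
  -- the finitely many comparison faces
  have hT : ∀ T : Set ι, ∃ z : E k, T ∈ expo f₀ → ¬ S' ⊆ T →
      amax f₀ z = T ∧ ∃ j ∈ T, 0 < inner ℝ z (f₀ j - b f₀) := by
    intro T
    by_cases hTe : T ∈ expo f₀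
    · obtain ⟨z, hz⟩ := hTe
      refine ⟨z, fun _ hnot => ⟨hz, ?_⟩⟩
      obtain ⟨j, hj⟩ := exists_amax_mem f₀ z
      refine ⟨j, hz ▸ hj, ?_⟩
      obtain ⟨l, hlS, hlT⟩ := Set.not_subset.1 hnot
      have h1 : ∀ i ∈ s, inner ℝ z (f₀ i) ≤ inner ℝ z (f₀ j) := fun i _ => hj i
      have h2 : inner ℝ z (f₀ l) < inner ℝ z (f₀ j) := by
        by_contra hle
        push Not at hle
        apply hlT
        rw [← hz]
        intro m
        exact (hj m).trans hle
      have h3 : ∑ i ∈ s, inner ℝ z (f₀ i) < ∑ i ∈ s, inner ℝ z (f₀ j) :=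
        Finset.sum_lt_sum h1 ⟨l, (hmem_s l).2 hlS, h2⟩
      rw [Finset.sum_const, nsmul_eq_mul, ← hn] at h3
      rw [inner_sub_right, hb]
      simp only
      rw [real_inner_smul_right, inner_sum, sub_pos, inv_mul_lt_iff₀ hnpos]
      exact h3
    · exact ⟨0, fun h => absurd h hTe⟩
  choose z hz using hT
  have hev : ∀ᶠ f in 𝓝 f₀, 2 * dist f f₀ * (‖y₀‖ + ρ) < min (δ / 4) (c * ρ / 4) ∧
      ∀ T : Set ι, ∀ j : ι, 0 < inner ℝ (z T) (f₀ j - b f₀) →
        ‖z T‖ * (2 * dist f f₀) < inner ℝ (z T) (f₀ j - b f₀) := by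
    have hd : Tendsto (fun f : ι → E k => dist f f₀) (𝓝 f₀) (𝓝 0) := by
      have : Continuous fun f : ι → E k => dist f f₀ := by fun_prop
      simpa using this.tendsto f₀
    refine Filter.Eventually.and ?_ ?_
    · have h1 : Tendsto (fun f : ι → E k => 2 * dist f f₀ * (‖y₀‖ + ρ)) (𝓝 f₀)
          (𝓝 (2 * 0 * (‖y₀‖ + ρ))) := (hd.const_mul 2).mul_const _
      refine h1.eventually_lt_const ?_
      simp only [mul_zero, zero_mul]
      positivity
    · refine Filter.eventually_all.2 fun T => Filter.eventually_all.2 fun j => ?_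
      by_cases h0 : 0 < inner ℝ (z T) (f₀ j - b f₀)
      · have h1 : Tendsto (fun f : ι → E k => ‖z T‖ * (2 * dist f f₀)) (𝓝 f₀)
            (𝓝 (‖z T‖ * (2 * 0))) := (hd.const_mul 2).const_mul _
        filter_upwards [h1.eventually_lt_const (u := inner ℝ (z T) (f₀ j - b f₀)) (by simpa using h0)]
          with f hf _
        exact hf
      · exact Filter.Eventually.of_forall fun f h => absurd h h0
  filter_upwards [hev] with f hf
  obtain ⟨hf1, hf2⟩ := hf
  set d := dist f f₀ with hd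
  have hd0 : 0 ≤ d := dist_nonneg
  have hfi : ∀ i, ‖f i - f₀ i‖ ≤ d := fun i => by
    rw [← dist_eq_norm]; exact dist_le_pi_dist f f₀ i
  have hbf : ‖b f - b f₀‖ ≤ d := by
    rw [hb]
    simp only
    rw [← smul_sub, ← Finset.sum_sub_distrib, norm_smul, norm_inv, Real.norm_of_nonneg hnpos.le,
      inv_mul_le_iff₀ hnpos]
    refine (norm_sum_le _ _).trans ?_
    refine (Finset.sum_le_sum fun i _ => hfi i).trans ?_
    rw [Finset.sum_const, nsmul_eq_mul]
  have hdiff : ∀ i, ‖(f i - b f) - (f₀ i - b f₀)‖ ≤ 2 * d := by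
    intro i
    have : (f i - b f) - (f₀ i - b f₀) = (f i - f₀ i) - (b f - b f₀) := by abel
    rw [this]
    refine (norm_sub_le _ _).trans ?_
    linarith [hfi i]
  have hinner : ∀ (y : E k) (i : ι), ‖y‖ ≤ ‖y₀‖ + ρ →
      |inner ℝ y (f i - b f) - inner ℝ y (f₀ i - b f₀)| ≤ 2 * d * (‖y₀‖ + ρ) := by
    intro y i hy
    rw [← inner_sub_right]
    refine (abs_real_inner_le_norm _ _).trans ?_
    calc ‖y‖ * ‖f i - b f - (f₀ i - b f₀)‖ ≤ (‖y₀‖ + ρ) * (2 * d) := by
          gcongr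
          exact hdiff i
      _ = _ := by ring
  have hf1a : 2 * d * (‖y₀‖ + ρ) < δ / 4 := hf1.trans_le (min_le_left _ _)
  have hf1b : 2 * d * (‖y₀‖ + ρ) < c * ρ / 4 := hf1.trans_le (min_le_right _ _)
  -- the convex function
  let Ψ : E k → ℝ := fun v => Finset.univ.sup' Finset.univ_nonempty
    (fun i => inner ℝ (y₀ + v) (f i - b f))
  have hΨc : Continuous Ψ := by
    refine Continuous.finset_sup'_apply _ fun i _ => ?_
    fun_prop
  have hΨge : ∀ v i, inner ℝ (y₀ + v) (f i - b f) ≤ Ψ v := fun v i =>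
    Finset.le_sup' (fun i => inner ℝ (y₀ + v) (f i - b f)) (Finset.mem_univ i)
  let B : Set (E k) := Metric.closedBall (0 : E k) ρ ∩ V
  have hB : IsCompact B :=
    (isCompact_closedBall (0 : E k) ρ).inter_right V.closed_of_finiteDimensional
  obtain ⟨v, hvB, hvmin⟩ := hB.exists_isMinOn
    ⟨0, by simp [B, hρpos.le]⟩ hΨc.continuousOn
  have hvV : v ∈ V := hvB.2
  have hvρ : ‖v‖ ≤ ρ := by simpa using hvB.1
  have hyv : ‖y₀ + v‖ ≤ ‖y₀‖ + ρ := (norm_add_le _ _).trans (by linarith)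
  -- value outside `S'`
  have hout : ∀ i, i ∉ S' → inner ℝ (y₀ + v) (f i - b f) < 0 := by
    intro i hi
    have h1 := abs_le.1 (hinner (y₀ + v) i hyv)
    have h2 : inner ℝ (y₀ + v) (f₀ i - b f₀) ≤ -δ + δ / 4 := by
      rw [inner_add_left]
      have h3 : inner ℝ v (f₀ i - b f₀) ≤ δ / 4 := by
        refine (real_inner_le_norm _ _).trans ?_
        calc ‖v‖ * ‖f₀ i - b f₀‖ ≤ ρ * K := by
              gcongr
              exact hK i
          _ = δ / 4 := hρK
      linarith [hgap i hi]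
    linarith [h1.2]
  have hΨ0 : 0 ≤ Ψ v := by
    by_contra hneg
    push Not at hneg
    have h1 : ∑ i ∈ s, inner ℝ (y₀ + v) (f i - b f) < 0 := by
      refine Finset.sum_neg (fun i _ => (hΨge v i).trans_lt hneg) hs
    rw [← inner_sum, hbsum f, inner_zero_right] at h1
    exact lt_irrefl _ h1
  -- interior minimum
  have hΨzero : Ψ 0 < c * ρ / 2 := by
    refine (Finset.sup'_lt_iff _).2 fun i _ => ?_
    rw [add_zero]
    have h1 := abs_le.1 (hinner y₀ i (by linarith))
    have h2 : inner ℝ y₀ (f₀ i - b f₀) ≤ 0 := by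
      by_cases hi : i ∈ S'
      · exact (hS'eq i ((hmem_s i).2 hi)).le
      · linarith [hgap i hi]
    nlinarith [h1.2]
  have hvlt : ‖v‖ < ρ := by
    by_contra hge
    push Not at hge
    have hveq : ‖v‖ = ρ := le_antisymm hvρ hge
    obtain ⟨i, hi, hci⟩ := hcoer v hvV
    have h1 := abs_le.1 (hinner (y₀ + v) i hyv)
    have h2 : c * ρ ≤ inner ℝ (y₀ + v) (f₀ i - b f₀) := by
      rw [inner_add_left, hS'eq i hi, zero_add, ← hveq]
      exact hci
    have h3 : Ψ v ≤ Ψ 0 := hvmin (by simp [B, hρpos.le])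
    have h4 := hΨge v i
    have h5 : 0 < c * ρ := by positivity
    linarith [h1.1]
  -- the active set
  set A : Finset ι := Finset.univ.filter (fun i => inner ℝ (y₀ + v) (f i - b f) = Ψ v) with hA
  have hAne : A.Nonempty := by
    obtain ⟨i, _, hi⟩ := Finset.exists_mem_eq_sup' (Finset.univ_nonempty (α := ι))
      (fun i => inner ℝ (y₀ + v) (f i - b f))
    exact ⟨i, by simp only [A, Finset.mem_filter, Finset.mem_univ, true_and]; exact hi.symm⟩
  have hAmem : ∀ i, i ∈ A ↔ inner ℝ (y₀ + v) (f i - b f) = Ψ v := fun i => by simp [A]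
  have hAmax : amax f (y₀ + v) = (A : Set ι) := by
    ext i
    rw [Finset.mem_coe, hAmem]
    have hsh : ∀ j, inner ℝ (y₀ + v) (f j - b f) =
        inner ℝ (y₀ + v) (f j) - inner ℝ (y₀ + v) (b f) := fun j => inner_sub_right _ _ _
    constructor
    · intro h
      refine le_antisymm (hΨge v i) (Finset.sup'_le _ _ fun j _ => ?_)
      have := h j
      rw [hsh, hsh]; linarith
    · intro h j
      have h1 := hΨge v j
      rw [← h, hsh, hsh] at h1
      linarith
  have hopt : ∀ u ∈ V, ∃ i ∈ A, 0 ≤ inner ℝ u (f i - b f) := by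
    intro u hu
    by_contra hcon
    push Not at hcon
    -- move a little in direction `u`
    have hlt : ∀ᶠ t in 𝓝[>] (0 : ℝ), ‖v + t • u‖ < ρ ∧ ∀ i, inner ℝ (y₀ + (v + t • u)) (f i - b f)
        < Ψ v := by
      refine Filter.Eventually.and ?_ (Filter.eventually_all.2 fun i => ?_)
      · have h1 : Tendsto (fun t : ℝ => ‖v + t • u‖) (𝓝[>] 0) (𝓝 ‖v + (0 : ℝ) • u‖) :=
          ((by fun_prop : Continuous fun t : ℝ => ‖v + t • u‖).tendsto 0).mono_left
            nhdsWithin_le_nhds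
        refine h1.eventually_lt_const ?_
        simpa using hvlt
      · by_cases hi : i ∈ A
        · filter_upwards [self_mem_nhdsWithin] with t ht
          have h1 := (hAmem i).1 hi
          rw [← add_assoc, inner_add_left, h1, real_inner_smul_left]
          have := mul_neg_of_pos_of_neg (mem_Ioi.1 ht) (hcon i hi)
          linarith
        · have hne : inner ℝ (y₀ + v) (f i - b f) < Ψ v :=
            lt_of_le_of_ne (hΨge v i) fun h => hi ((hAmem i).2 h)
          have h1 : Tendsto (fun t : ℝ => inner ℝ (y₀ + (v + t • u)) (f i - b f)) (𝓝[>] 0)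
              (𝓝 (inner ℝ (y₀ + (v + (0 : ℝ) • u)) (f i - b f))) :=
            ((by fun_prop : Continuous fun t : ℝ =>
              inner ℝ (y₀ + (v + t • u)) (f i - b f)).tendsto 0).mono_left nhdsWithin_le_nhds
          refine h1.eventually_lt_const ?_
          simpa using hne
    obtain ⟨t, ht1, ht2⟩ := hlt.exists
    have hmemB : v + t • u ∈ B :=
      ⟨by simpa using ht1.le, V.add_mem hvV (V.smul_mem _ hu)⟩
    have h1 : Ψ v ≤ Ψ (v + t • u) := hvmin hmemB
    have h2 : Ψ (v + t • u) < Ψ v := (Finset.sup'_lt_iff _).2 fun i _ => ht2 i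
    linarith
  obtain ⟨lam, hl0, hlA, hl1, hlV⟩ := exists_weights V A (fun i => f i - b f) hopt
  have hAS : (A : Set ι) ⊆ S' := by
    intro i hi
    by_contra hiS
    have h1 := (hAmem i).1 hi
    have h2 := hout i hiS
    linarith
  refine ⟨(A : Set ι), ⟨y₀ + v, hAmax⟩, hAS, fun T hTe hAT => ?_⟩
  by_contra hnot
  obtain ⟨hzT, j, hjT, hjpos⟩ := hz T hTe hnot
  have hlt := hf2 T j hjpos
  set q : E k := ∑ i, lam i • (f₀ i - b f₀) with hq
  have hqV : q ∈ V := by
    refine V.sum_mem fun i _ => ?_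
    by_cases hi : i ∈ A
    · exact V.smul_mem _ (Submodule.subset_span ⟨i, (hmem_s i).2 (hAS hi), rfl⟩)
    · rw [hlA i hi, zero_smul]; exact V.zero_mem
  have hqn : ‖q‖ ≤ 2 * d := by
    have h1 := hlV q hqV
    have h2 : inner ℝ q q = inner ℝ q (∑ i, lam i • ((f₀ i - b f₀) - (f i - b f))) := by
      have : ∑ i, lam i • ((f₀ i - b f₀) - (f i - b f)) =
          q - ∑ i, lam i • (f i - b f) := by
        rw [hq, ← Finset.sum_sub_distrib]
        exact Finset.sum_congr rfl fun i _ => smul_sub _ _ _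
      rw [this, inner_sub_right, h1, sub_zero]
    have h3 : ‖∑ i, lam i • ((f₀ i - b f₀) - (f i - b f))‖ ≤ 2 * d := by
      refine (norm_sum_le _ _).trans ?_
      calc ∑ i, ‖lam i • ((f₀ i - b f₀) - (f i - b f))‖ ≤ ∑ i, lam i * (2 * d) := by
            refine Finset.sum_le_sum fun i _ => ?_
            rw [norm_smul, Real.norm_of_nonneg (hl0 i), norm_sub_rev]
            exact mul_le_mul_of_nonneg_left (hdiff i) (hl0 i)
        _ = 2 * d := by rw [← Finset.sum_mul, hl1, one_mul]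
    rw [real_inner_self_eq_norm_sq] at h2
    have h4 := real_inner_le_norm q (∑ i, lam i • ((f₀ i - b f₀) - (f i - b f)))
    rw [← h2] at h4
    by_contra hcon
    push Not at hcon
    have h5 : 0 < ‖q‖ := by linarith
    nlinarith
  have hzq : inner ℝ (z T) q = inner ℝ (z T) (f₀ j - b f₀) := by
    rw [hq, inner_sum]
    have h1 : ∀ i, inner ℝ (z T) (lam i • (f₀ i - b f₀)) =
        lam i * inner ℝ (z T) (f₀ j - b f₀) := by
      intro i
      rw [real_inner_smul_right]
      by_cases hi : i ∈ A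
      · have hiT : i ∈ T := hAT hi
        have h2 : inner ℝ (z T) (f₀ i) = inner ℝ (z T) (f₀ j) := by
          rw [← hzT] at hiT hjT
          exact le_antisymm (hjT i) (hiT j)
        rw [inner_sub_right, inner_sub_right, h2]
      · rw [hlA i hi, zero_mul, zero_mul]
    rw [Finset.sum_congr rfl fun i _ => h1 i, ← Finset.sum_mul, hl1, one_mul]
  have h6 := real_inner_le_norm (z T) q
  rw [hzq] at h6
  have h7 : ‖z T‖ * ‖q‖ ≤ ‖z T‖ * (2 * d) := by gcongr
  linarith

/-- A monotone bijection between isomorphic finite posets reflects the order. -/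
lemma reflect_of_iso {A B : Type} [PartialOrder A] [PartialOrder B] [Finite A] [Finite B]
    (e : A ≃o B) (g : A → B) (hg : Monotone g) (hinj : Function.Injective g) {a b : A}
    (h : g a ≤ g b) : a ≤ b := by
  let e' : {p : A × A // p.1 ≤ p.2} ≃ {q : B × B // q.1 ≤ q.2} :=
    { toFun := fun p => ⟨(e p.1.1, e p.1.2), e.monotone p.2⟩
      invFun := fun q => ⟨(e.symm q.1.1, e.symm q.1.2), e.symm.monotone q.2⟩
      left_inv := fun p => by simp
      right_inv := fun q => by simp }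
  let G : {p : A × A // p.1 ≤ p.2} → {q : B × B // q.1 ≤ q.2} :=
    fun p => ⟨(g p.1.1, g p.1.2), hg p.2⟩
  have hG : Function.Injective G := by
    rintro ⟨⟨a, b⟩, h1⟩ ⟨⟨c, d⟩, h2⟩ hh
    have h3 := congrArg (fun q => q.1.1) hh
    have h4 := congrArg (fun q => q.1.2) hh
    simp only [G] at h3 h4
    apply Subtype.ext
    exact Prod.ext (hinj h3) (hinj h4)
  have hs := (Finite.injective_iff_surjective_of_equiv e').1 hG
  obtain ⟨⟨⟨c, d⟩, hcd⟩, hG'⟩ := hs ⟨(g a, g b), h⟩
  have h3 := congrArg (fun q => q.1.1) hG'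
  have h4 := congrArg (fun q => q.1.2) hG'
  simp only [G] at h3 h4
  rw [← hinj h3, ← hinj h4]
  exact hcd

/-- **Local rigidity.**  For configurations on spheres near `f₀`, isomorphic face lattices force
equal families of faces. -/
theorem eventually_expo_eq (f₀ : ι → E k) (h₀ : ∀ i j, ‖f₀ i‖ = ‖f₀ j‖) :
    ∀ᶠ f in 𝓝 f₀, (∀ i j, ‖f i‖ = ‖f j‖) → Nonempty (FaceSets f ≃o FaceSets f₀) →
      expo f = expo f₀ := by
  classical
  have h1 : ∀ᶠ f in 𝓝 f₀, ∀ S' : Set ι, S' ∈ expo f₀ →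
      ∃ S ∈ expo f, S ⊆ S' ∧ ∀ T ∈ expo f₀, S ⊆ T → S' ⊆ T := by
    refine Filter.eventually_all.2 fun S' => ?_
    by_cases hS' : S' ∈ expo f₀
    · filter_upwards [eventually_exists_sub f₀ hS'] with f hf _ using hf
    · exact Filter.Eventually.of_forall fun f h => absurd h hS'
  have h2 : ∀ᶠ f in 𝓝 f₀, ∀ g h : ι, f h = f g → f₀ h = f₀ g := by
    refine Filter.eventually_all.2 fun g => Filter.eventually_all.2 fun h => ?_
    by_cases hgh : f₀ h = f₀ g
    · exact Filter.Eventually.of_forall fun f _ => hgh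
    · have hopen : IsOpen {f : ι → E k | f h ≠ f g} :=
        isOpen_ne_fun (continuous_apply h) (continuous_apply g)
      filter_upwards [hopen.mem_nhds hgh] with f hf hfe
      exact absurd hfe hf
  filter_upwards [h1, h2] with f hsub hvert hnorm ⟨e⟩
  choose cl hcl hclmin using exists_least f₀
  let g : FaceSets f → FaceSets f₀ := fun S => cl S.1
  have hmono : Monotone g := fun S T hST => hclmin _ _ (subset_trans hST (hcl T.1))
  have hsurj : Function.Surjective g := by
    rintro ⟨S', hS'⟩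
    rcases hS' with rfl | hS'
    · refine ⟨⟨∅, Or.inl rfl⟩, ?_⟩
      apply Subtype.ext
      exact subset_empty_iff.1 (hclmin ∅ ⟨∅, Or.inl rfl⟩ (empty_subset _))
    · obtain ⟨S, hS, hSS', hmin⟩ := hsub S' hS'
      refine ⟨⟨S, Or.inr hS⟩, ?_⟩
      apply Subtype.ext
      refine subset_antisymm (hclmin S ⟨S', Or.inr hS'⟩ hSS') ?_
      have hne : S.Nonempty := by
        obtain ⟨y, rfl⟩ := hS
        exact exists_amax_mem f y
      rcases (cl S).2 with h0 | h0
      · exfalso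
        obtain ⟨i, hi⟩ := hne
        have := hcl S hi
        rw [h0] at this
        exact this
      · exact hmin _ h0 (hcl S)
  have hinj : Function.Injective g :=
    (Finite.injective_iff_surjective_of_equiv e.toEquiv).2 hsurj
  -- every face of `f` is closed
  have hclosed : ∀ S (hS : S ∈ expo f), (cl S).1 = S := by
    intro S hS
    refine subset_antisymm ?_ (hcl S)
    intro i hi
    have hvi : {h | f h = f i} ∈ expo f := ⟨f i, amax_self hnorm i⟩
    have hv0 : {h | f₀ h = f₀ i} ∈ expo f₀ := ⟨f₀ i, amax_self h₀ i⟩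
    have hne : S.Nonempty := by
      obtain ⟨y, rfl⟩ := hS
      exact exists_amax_mem f y
    have hclS : (cl S).1 ∈ expo f₀ := by
      rcases (cl S).2 with h0 | h0
      · rw [h0] at hi; exact absurd hi (by simp)
      · exact h0
    have h3 : {h | f₀ h = f₀ i} ⊆ (cl S).1 := by
      obtain ⟨y, hy⟩ := hclS
      rw [← hy] at hi ⊢
      intro h hh j
      change f₀ h = f₀ i at hh
      rw [hh]
      exact hi j
    have h4 : (cl {h | f h = f i}).1 ⊆ {h | f₀ h = f₀ i} :=
      hclmin _ ⟨_, Or.inr hv0⟩ fun h hh => hvert i h hh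
    have h5 : g ⟨{h | f h = f i}, Or.inr hvi⟩ ≤ g ⟨S, Or.inr hS⟩ := h4.trans h3
    have h6 := reflect_of_iso e g hmono hinj h5
    exact h6 (show f i = f i from rfl)
  apply subset_antisymm
  · intro S hS
    have h3 := hclosed S hS
    rcases (cl S).2 with h0 | h0
    · exfalso
      obtain ⟨y, rfl⟩ := hS
      obtain ⟨i, hi⟩ := exists_amax_mem f y
      rw [← h3, h0] at hi
      exact hi
    · rwa [h3] at h0
  · intro T hT
    obtain ⟨⟨S, hS⟩, hg⟩ := hsurj ⟨T, Or.inr hT⟩
    have hg' : (cl S).1 = T := congrArg Subtype.val hg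
    rcases hS with rfl | hS
    · exfalso
      have h3 : (cl (∅ : Set ι)).1 = ∅ :=
        subset_empty_iff.1 (hclmin ∅ ⟨∅, Or.inl rfl⟩ (empty_subset _))
      obtain ⟨y, rfl⟩ := hT
      obtain ⟨i, hi⟩ := exists_amax_mem f₀ y
      rw [← hg', h3] at hi
      exact hi
    · rw [hclosed S hS] at hg'
      rwa [← hg']

/-- Local rigidity in terms of face lattices. -/
theorem eventually_expo_eq' (f₀ : ι → E k) (h₀ : ∀ i j, ‖f₀ i‖ = ‖f₀ j‖) :
    ∀ᶠ f in 𝓝 f₀, (∀ i j, ‖f i‖ = ‖f j‖) →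
      Nonempty (FaceLattice (convexHull ℝ (range f₀)) ≃o FaceLattice (convexHull ℝ (range f))) →
      expo f = expo f₀ := by
  filter_upwards [eventually_expo_eq f₀ h₀] with f hf hn ⟨e⟩
  exact hf hn ⟨((faceIso f).symm.trans e.symm).trans (faceIso f₀)⟩

end OrbPoly
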