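import Pool.Agent.OrbPoly.Edge

set_option autoImplicit false

open Set

namespace OrbPoly

/-- The weight between the base vertex and the vertex of index `g`. -/
noncomputable def cw (w : E 5) (g : G) : ℝ := weight (orb Gam w) w (act g w)

/-- The row sum. -/
noncomputable def dw (w : E 5) : ℝ := ∑ g, cw w g

lemma cw_nonneg (w : E 5) (g : G) : 0 ≤ cw w g := weight_nonneg _ _ _

lemma orb_image (h : G) (w : E 5) : actI h '' orb Gam w = orb Gam w := by
  rw [orb_eq]
  ext v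
  constructor
  · rintro ⟨_, ⟨g, rfl⟩, rfl⟩
    exact ⟨mulG h g, (act_act h g w).symm⟩
  · rintro ⟨g, rfl⟩
    refine ⟨act (mulG (invG h) g) w, ⟨_, rfl⟩, ?_⟩
    change act h (act (mulG (invG h) g) w) = act g w
    rw [act_act, mul_invG_cancel]

lemma weight_act (w : E 5) (h g : G) :
    weight (orb Gam w) (act h w) (act g w) = cw w (mulG (invG h) g) := by
  have h1 := weight_iso (actI h) (orb Gam w) w (act (mulG (invG h) g) w)
  rw [orb_image] at h1
  rw [cw, ← h1]
  change _ = weight (orb Gam w) (act h w) (act h (act (mulG (invG h) g) w))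
  rw [act_act, mul_invG_cancel]

lemma finsum_orb {w : E 5} (hinj : Function.Injective (fam w)) (F : E 5 → ℝ) :
    (∑ᶠ s ∈ orb Gam w, F s) = ∑ g, F (act g w) := by
  rw [orb_eq w]
  change (∑ᶠ s ∈ range (fam w), F s) = _
  rw [finsum_mem_range hinj, finsum_eq_sum_of_fintype]
  rfl

/-- Translation of an index. -/
def trG (h : G) : G ≃ G where
  toFun := mulG (invG h)
  invFun := mulG h
  left_inv := fun g => mul_invG_cancel h g
  right_inv := fun g => invG_mul_cancel h g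

lemma sum_left (F : G → ℝ) (h : G) : ∑ g, F (mulG (invG h) g) = ∑ g, F g :=
  (trG h).sum_comp F

/-- The map `h ↦ h⁻¹ g`. -/
lemma bij_right (g : G) : Function.Bijective fun h : G => mulG (invG h) g := by
  revert g
  decide

lemma sum_right (F : G → ℝ) (g : G) : ∑ h, F (mulG (invG h) g) = ∑ g, F g :=
  (bij_right g).sum_comp F

lemma rowSum_act {w : E 5} (hinj : Function.Injective (fam w)) (h : G) :
    rowSum (orb Gam w) (act h w) = dw w := by
  rw [rowSum, finsum_orb hinj, dw, ← sum_left (cw w) h]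
  exact Finset.sum_congr rfl fun g _ => weight_act w h g

/-- The quadratic form of the weights. -/
noncomputable def qf (c : G → ℝ) (u : G → ℝ) : ℝ :=
  ∑ h, ∑ g, u h * c (mulG (invG h) g) * u g

lemma qf_T {w : E 5} (hinj : Function.Injective (fam w)) (v : E 5 → ℝ) :
    (∑ᶠ s ∈ orb Gam w, ∑ᶠ t ∈ orb Gam w, v s * T (orb Gam w) s t * v t) =
      qf (cw w) (fun g => v (act g w)) / dw w := by
  rw [finsum_orb hinj, qf, Finset.sum_div]
  refine Finset.sum_congr rfl fun h _ => ?_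
  rw [finsum_orb hinj, Finset.sum_div]
  refine Finset.sum_congr rfl fun g _ => ?_
  rw [T, weight_act, rowSum_act hinj]
  ring

lemma qf_le {c : G → ℝ} (hc : ∀ g, 0 ≤ c g) (u : G → ℝ) :
    qf c u ≤ (∑ g, c g) * ∑ g, u g ^ 2 := by
  have h1 : qf c u ≤ ∑ h, ∑ g, ((u h ^ 2) / 2 * c (mulG (invG h) g) +
      (u g ^ 2) / 2 * c (mulG (invG h) g)) := by
    refine Finset.sum_le_sum fun h _ => Finset.sum_le_sum fun g _ => ?_
    nlinarith [mul_nonneg (hc (mulG (invG h) g)) (sq_nonneg (u h - u g))]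
  have h2 : ∑ h, ∑ g, ((u h ^ 2) / 2 * c (mulG (invG h) g)) = (∑ g, c g) * (∑ g, u g ^ 2) / 2 := by
    have : ∀ h, ∑ g, ((u h ^ 2) / 2 * c (mulG (invG h) g)) = (∑ g, c g) * (u h ^ 2 / 2) := by
      intro h
      rw [← Finset.mul_sum, sum_left c h]; ring
    rw [Finset.sum_congr rfl fun h _ => this h, ← Finset.mul_sum, ← Finset.sum_div]
    ring
  have h3 : ∑ h, ∑ g, ((u g ^ 2) / 2 * c (mulG (invG h) g)) = (∑ g, c g) * (∑ g, u g ^ 2) / 2 := by
    rw [Finset.sum_comm]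
    have : ∀ g, ∑ h, ((u g ^ 2) / 2 * c (mulG (invG h) g)) = (∑ g, c g) * (u g ^ 2 / 2) := by
      intro g
      rw [← Finset.mul_sum, sum_right c g]; ring
    rw [Finset.sum_congr rfl fun h _ => this h, ← Finset.mul_sum, ← Finset.sum_div]
    ring
  have h4 : ∑ h, ∑ g, ((u h ^ 2) / 2 * c (mulG (invG h) g) +
      (u g ^ 2) / 2 * c (mulG (invG h) g)) = (∑ g, c g) * ∑ g, u g ^ 2 := by
    simp only [Finset.sum_add_distrib]
    rw [h2, h3]
    ring
  linarith

section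

variable {w : E 5} (hinj : Function.Injective (fam w)) (hd : 0 < dw w)

include hinj hd

lemma lambda1_eq : lambda1 Gam w = sSup {ρ : ℝ | ∃ u : G → ℝ, ∑ g, u g = 0 ∧ (∃ g, u g ≠ 0) ∧
    ρ = qf (cw w) u / dw w / ∑ g, u g ^ 2} := by
  rw [lambda1, secondEig]
  congr 1
  ext ρ
  constructor
  · rintro ⟨v, h1, ⟨s, hs, hv⟩, h2⟩
    refine ⟨fun g => v (act g w), ?_, ?_, ?_⟩
    · rw [finsum_orb hinj] at h1; exact h1
    · rw [orb_eq] at hs
      obtain ⟨g, rfl⟩ := hs
      exact ⟨g, hv⟩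
    · rw [h2, qf_T hinj, finsum_orb hinj]
  · rintro ⟨u, h1, ⟨g, hg⟩, h2⟩
    have hv : ∀ g, Function.extend (fam w) u 0 (act g w) = u g := fun g =>
      hinj.extend_apply u 0 g
    refine ⟨Function.extend (fam w) u 0, ?_, ⟨act g w, ?_, ?_⟩, ?_⟩
    · rw [finsum_orb hinj]
      simp only [hv]
      exact h1
    · rw [orb_eq]; exact ⟨g, rfl⟩
    · rw [hv]; exact hg
    · rw [h2, qf_T hinj, finsum_orb hinj]
      simp only [hv]

lemma le_lambda1 {u : G → ℝ} (hu : ∑ g, u g = 0) :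
    qf (cw w) u ≤ lambda1 Gam w * dw w * ∑ g, u g ^ 2 := by
  by_cases h0 : ∀ g, u g = 0
  · have h1 : qf (cw w) u = 0 := by
      rw [qf]
      refine Finset.sum_eq_zero fun h _ => Finset.sum_eq_zero fun g _ => ?_
      rw [h0 h]; ring
    have h2 : ∑ g, u g ^ 2 = 0 := by
      refine Finset.sum_eq_zero fun g _ => ?_
      rw [h0 g]; ring
    rw [h1, h2, mul_zero]
  · push Not at h0
    have hpos : 0 < ∑ g, u g ^ 2 := by
      obtain ⟨g, hg⟩ := h0
      exact Finset.sum_pos' (fun g _ => sq_nonneg _) ⟨g, Finset.mem_univ _, by positivity⟩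
    have hle : qf (cw w) u / dw w / ∑ g, u g ^ 2 ≤ lambda1 Gam w := by
      rw [lambda1_eq hinj hd]
      refine le_csSup ⟨1, ?_⟩ ⟨u, hu, h0, rfl⟩
      rintro ρ ⟨u', hu', ⟨g', hg'⟩, rfl⟩
      have hpos' : 0 < ∑ g, u' g ^ 2 :=
        Finset.sum_pos' (fun g _ => sq_nonneg _) ⟨g', Finset.mem_univ _, by positivity⟩
      rw [div_le_one hpos', div_le_iff₀ hd, mul_comm]
      exact qf_le (cw_nonneg w) u'
    rw [div_le_iff₀ hpos, div_le_iff₀ hd] at hle
    linarith

lemma lambda1_le {M : ℝ} (hM : ∀ u : G → ℝ, ∑ g, u g = 0 →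
    qf (cw w) u ≤ M * dw w * ∑ g, u g ^ 2) : lambda1 Gam w ≤ M := by
  rw [lambda1_eq hinj hd]
  refine csSup_le ?_ ?_
  · let u : G → ℝ := fun g => if g = oneG then 1 else if g = n1 then -1 else 0
    refine ⟨_, u, ?_, ⟨oneG, ?_⟩, rfl⟩
    · simp only [Fintype.sum_prod_type, Fintype.sum_bool, u, oneG, n1]
      simp
    · simp [u]
  · rintro ρ ⟨u, hu, ⟨g, hg⟩, rfl⟩
    have hpos : 0 < ∑ g, u g ^ 2 :=
      Finset.sum_pos' (fun g _ => sq_nonneg _) ⟨g, Finset.mem_univ _, by positivity⟩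
    rw [div_le_iff₀ hpos, div_le_iff₀ hd]
    have := hM u hu
    linarith

end

end OrbPoly
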