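import Pool.Agent.OrbPoly.LocalB

set_option autoImplicit false

open Set Filter Topology Module
open scoped ContDiff

namespace OrbPoly

lemma SameType.refl {k : ℕ} (Γ : Subgroup (E k ≃ₗᵢ[ℝ] E k)) (w : E k) : SameType Γ w w :=
  ⟨OrderIso.refl _⟩

lemma SameType.symm {k : ℕ} {Γ : Subgroup (E k ≃ₗᵢ[ℝ] E k)} {w w' : E k}
    (h : SameType Γ w w') : SameType Γ w' w := h.elim fun e => ⟨e.symm⟩

lemma SameType.trans {k : ℕ} {Γ : Subgroup (E k ≃ₗᵢ[ℝ] E k)} {w w' w'' : E k}
    (h : SameType Γ w w') (h' : SameType Γ w' w'') : SameType Γ w w'' :=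
  h.elim fun e => h'.elim fun e' => ⟨e.trans e'⟩

/-- Normalising a cap of a linear space gives a connected piece of the sphere. -/
lemma cap_preconnected {r δ : ℝ} (hδ : δ < r) {p : E 5} (hp : ‖p‖ = r)
    (V : Submodule ℝ (E 5)) :
    IsPreconnected ((fun v : E 5 => (r / ‖v‖) • v) '' ((V : Set (E 5)) ∩ Metric.ball p δ)) := by
  refine IsPreconnected.image ?_ _ ?_
  · exact ((V.convex).inter (convex_ball p δ)).isPreconnected
  · intro v hv
    have hv0 : ‖v‖ ≠ 0 := by
      intro h0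
      have h1 : v = 0 := norm_eq_zero.1 h0
      have h2 := hv.2
      rw [h1, Metric.mem_ball, dist_comm, dist_zero_right, hp] at h2
      linarith
    have h1 : ContinuousAt (fun v : E 5 => r / ‖v‖) v :=
      ContinuousAt.div continuousAt_const (continuous_norm.continuousAt (x := v)) hv0
    have : ContinuousAt (fun v : E 5 => (r / ‖v‖) • v) v := h1.smul continuousAt_id
    exact this.continuousWithinAt

/-- Local description of a stratum. -/
theorem stratum_local {r : ℝ} (hr : 0 < r) {w₀ p : E 5}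
    (hp : p ∈ connectedComponentIn (typeClass Gam r w₀) w₀) :
    ∃ δ > 0, (∀ w ∈ Metric.ball p δ, Near p w) ∧
      connectedComponentIn (typeClass Gam r w₀) w₀ ∩ Metric.ball p δ =
        {w | w ∈ Metric.ball p δ ∧ ‖w‖ = r ∧ w ∈ L p} := by
  have hpT : p ∈ typeClass Gam r w₀ := connectedComponentIn_subset _ _ hp
  obtain ⟨hpr, hpS⟩ := hpT
  obtain ⟨ε, hε, hball⟩ := Metric.eventually_nhds_iff.1
    ((eventually_near p).and ((eventually_sameType p).and (eventually_mem_L p)))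
  set δ := min (ε / 2) (r / 2) with hδ
  have hδ0 : 0 < δ := lt_min (by linarith) (by linarith)
  have hδε : δ + δ ≤ ε := by have := min_le_left (ε / 2) (r / 2); linarith
  have hδr : δ < r := by have := min_le_right (ε / 2) (r / 2); linarith
  refine ⟨δ, hδ0, fun w hw => (hball ?_).1, ?_⟩
  · exact lt_of_lt_of_le hw (by linarith)
  · ext w
    constructor
    · rintro ⟨hw1, hw2⟩
      have hwT : w ∈ typeClass Gam r w₀ := connectedComponentIn_subset _ _ hw1
      refine ⟨hw2, hwT.1, ?_⟩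
      have hlt : dist w p < ε := lt_of_lt_of_le hw2 (by linarith)
      exact (hball hlt).2.2 (hpS.symm.trans hwT.2)
    · rintro ⟨hw1, hw2, hw3⟩
      refine ⟨?_, hw1⟩
      rw [connectedComponentIn_eq hp]
      have hsub : ((fun v : E 5 => (r / ‖v‖) • v) '' ((L p : Set (E 5)) ∩ Metric.ball p δ)) ⊆
          typeClass Gam r w₀ := by
        rintro _ ⟨v, ⟨hv1, hv2⟩, rfl⟩
        have hv0 : ‖v‖ ≠ 0 := by
          intro h0
          have h1 : v = 0 := norm_eq_zero.1 h0
          rw [h1, Metric.mem_ball, dist_comm, dist_zero_right, hpr] at hv2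
          linarith
        have hvpos : 0 < ‖v‖ := lt_of_le_of_ne (norm_nonneg _) (Ne.symm hv0)
        have hn : ‖(r / ‖v‖) • v‖ = r := by
          rw [norm_smul, Real.norm_of_nonneg (by positivity)]
          field_simp
        refine ⟨hn, ?_⟩
        have hd : dist ((r / ‖v‖) • v) p < ε := by
          have h1 : dist ((r / ‖v‖) • v) v = |r - ‖v‖| := by
            rw [dist_eq_norm]
            have : (r / ‖v‖) • v - v = (r / ‖v‖ - 1) • v := by rw [sub_smul, one_smul]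
            rw [this, norm_smul, Real.norm_eq_abs]
            have h2 : |r / ‖v‖ - 1| * ‖v‖ = |(r / ‖v‖ - 1) * ‖v‖| := by
              rw [abs_mul, abs_of_pos hvpos]
            rw [h2]
            congr 1
            field_simp
          have h2 : |r - ‖v‖| ≤ dist v p := by
            rw [← hpr, dist_comm, dist_eq_norm]
            exact abs_norm_sub_norm_le p v
          have h3 : dist v p < δ := hv2
          calc dist ((r / ‖v‖) • v) p ≤ dist ((r / ‖v‖) • v) v + dist v p := dist_triangle _ _ _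
            _ < ε := by linarith
        exact hpS.trans ((hball hd).2.1 ((L p).smul_mem _ hv1))
      have hcap := cap_preconnected hδr hpr (L p)
      have hself : p ∈ ((fun v : E 5 => (r / ‖v‖) • v) '' ((L p : Set (E 5)) ∩ Metric.ball p δ)) := by
        refine ⟨p, ⟨self_mem_L p, Metric.mem_ball_self hδ0⟩, ?_⟩
        change (r / ‖p‖) • p = p
        rw [hpr, div_self hr.ne', one_smul]
      refine hcap.subset_connectedComponentIn hself hsub ⟨w, ⟨hw3, hw1⟩, ?_⟩
      change (r / ‖w‖) • w = w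
      rw [hw2, div_self hr.ne', one_smul]

/-- The codimension of the linear space attached to a point. -/
noncomputable def cd (p : E 5) : ℕ := finrank ℝ (E 5 ⧸ L p)

theorem cd_const {r : ℝ} (hr : 0 < r) {w₀ p q : E 5}
    (hp : p ∈ connectedComponentIn (typeClass Gam r w₀) w₀)
    (hq : q ∈ connectedComponentIn (typeClass Gam r w₀) w₀) : cd p = cd q := by
  refine IsPreconnected.constant (isPreconnected_connectedComponentIn) (f := cd) ?_ hp hq
  intro x hx
  obtain ⟨δ, hδ, hnear, hloc⟩ := stratum_local hr hx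
  refine (continuousWithinAt_const (b := cd x)).congr_of_eventuallyEq ?_ rfl
  have h1 : ∀ᶠ w in 𝓝[connectedComponentIn (typeClass Gam r w₀) w₀] x,
      w ∈ connectedComponentIn (typeClass Gam r w₀) w₀ ∩ Metric.ball x δ :=
    inter_mem self_mem_nhdsWithin (nhdsWithin_le_nhds (Metric.ball_mem_nhds x hδ))
  filter_upwards [h1] with w hw
  have hw' := hw
  rw [hloc] at hw'
  change cd w = cd x
  rw [cd, cd, L_eq_of_near (hnear w hw.2) hw'.2.2]

/-- A regular level set description of a piece of a sphere in a linear space. -/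
lemma level_set (V : Submodule ℝ (E 5)) (n : ℕ) (hn : finrank ℝ (E 5 ⧸ V) = n) (r : ℝ)
    {p : E 5} (hpV : p ∈ V) : ∃ f : E 5 → E (n + 1), ContDiff ℝ ∞ f ∧
      (∀ x, 0 < inner ℝ x p → Function.Surjective (fderiv ℝ f x)) ∧
      ∀ x, f x = 0 ↔ (‖x‖ ^ 2 = r ^ 2 ∧ x ∈ V) := by
  have e1 : (E 5 ⧸ V) ≃ₗ[ℝ] E n := LinearEquiv.ofFinrankEq _ _ (by
    rw [hn, finrank_euclideanSpace, Fintype.card_fin])
  have e2 : (ℝ × E n) ≃L[ℝ] E (n + 1) := ContinuousLinearEquiv.ofFinrankEq (by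
    rw [finrank_prod, finrank_self, finrank_euclideanSpace, Fintype.card_fin,
      finrank_euclideanSpace, Fintype.card_fin, add_comm])
  let ℓ : E 5 →L[ℝ] E n := LinearMap.toContinuousLinearMap ((e1 : (E 5 ⧸ V) →ₗ[ℝ] E n) ∘ₗ V.mkQ)
  have hℓ : ∀ x, ℓ x = e1 (V.mkQ x) := fun x => rfl
  have hℓ0 : ∀ x, ℓ x = 0 ↔ x ∈ V := by
    intro x
    rw [hℓ, map_eq_zero_iff _ e1.injective, Submodule.mkQ_apply, Submodule.Quotient.mk_eq_zero]
  have hℓs : Function.Surjective ℓ := by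
    intro b
    obtain ⟨x, hx⟩ := V.mkQ_surjective (e1.symm b)
    exact ⟨x, by rw [hℓ, hx, LinearEquiv.apply_symm_apply]⟩
  refine ⟨fun x => e2 (‖x‖ ^ 2 - r ^ 2, ℓ x), ?_, ?_, ?_⟩
  · refine e2.contDiff.comp ?_
    exact ((contDiff_norm_sq ℝ).sub contDiff_const).prodMk ℓ.contDiff
  · intro x hx
    have hd : HasFDerivAt (fun x : E 5 => (‖x‖ ^ 2 - r ^ 2, ℓ x))
        ((2 • innerSL ℝ x : E 5 →L[ℝ] ℝ).prod ℓ) x := by
      have h1 : HasFDerivAt (fun x : E 5 => ‖x‖ ^ 2) (2 • innerSL ℝ x : E 5 →L[ℝ] ℝ) x :=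
        (hasStrictFDerivAt_norm_sq x).hasFDerivAt
      exact (h1.sub_const (r ^ 2)).prodMk ℓ.hasFDerivAt
    have hd' := (e2 : (ℝ × E n) →L[ℝ] E (n + 1)).hasFDerivAt.comp x hd
    have hd'' : fderiv ℝ (fun x => e2 (‖x‖ ^ 2 - r ^ 2, ℓ x)) x =
        (e2 : (ℝ × E n) →L[ℝ] E (n + 1)).comp ((2 • innerSL ℝ x : E 5 →L[ℝ] ℝ).prod ℓ) :=
      hd'.fderiv
    rw [hd'']
    intro b
    obtain ⟨v0, hv0⟩ := hℓs (e2.symm b).2
    have hℓp : ℓ p = 0 := (hℓ0 p).2 hpV
    refine ⟨v0 + (((e2.symm b).1 - 2 * inner ℝ x v0) / (2 * inner ℝ x p)) • p, ?_⟩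
    have h1 : (((2 • innerSL ℝ x : E 5 →L[ℝ] ℝ).prod ℓ)
        (v0 + (((e2.symm b).1 - 2 * inner ℝ x v0) / (2 * inner ℝ x p)) • p)) = e2.symm b := by
      refine Prod.ext ?_ ?_
      · have : (((2 • innerSL ℝ x : E 5 →L[ℝ] ℝ).prod ℓ)
            (v0 + (((e2.symm b).1 - 2 * inner ℝ x v0) / (2 * inner ℝ x p)) • p)).1 =
            2 * inner ℝ x (v0 + (((e2.symm b).1 - 2 * inner ℝ x v0) / (2 * inner ℝ x p)) • p) := by
          simp [two_smul, two_mul]
        rw [this, inner_add_right, real_inner_smul_right]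
        field_simp
        ring
      · change ℓ (v0 + _ • p) = _
        rw [map_add, map_smul, hℓp, smul_zero, add_zero, hv0]
    change e2 (((2 • innerSL ℝ x : E 5 →L[ℝ] ℝ).prod ℓ)
        (v0 + (((e2.symm b).1 - 2 * inner ℝ x v0) / (2 * inner ℝ x p)) • p)) = b
    rw [h1, ContinuousLinearEquiv.apply_symm_apply]
  · intro x
    change e2 _ = 0 ↔ _
    rw [map_eq_zero_iff _ e2.injective, Prod.mk_eq_zero, hℓ0, sub_eq_zero]

/-- Every stratum is a submanifold. -/
theorem isSubmanifold_of_isStratum {r : ℝ} (hr : 0 < r) {S : Set (E 5)}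
    (hS : IsStratum Gam r S) : IsSubmanifold S := by
  obtain ⟨w₀, hw₀, rfl⟩ := hS
  have hself : w₀ ∈ connectedComponentIn (typeClass Gam r w₀) w₀ :=
    mem_connectedComponentIn ⟨hw₀, SameType.refl _ _⟩
  refine ⟨cd w₀ + 1, fun p hp => ?_⟩
  obtain ⟨δ, hδ, hnear, hloc⟩ := stratum_local hr hp
  obtain ⟨f, hf1, hf2, hf3⟩ := level_set (L p) (cd w₀) (cd_const hr hp hself) r (self_mem_L p)
  have hpr : ‖p‖ = r := (connectedComponentIn_subset _ _ hp).1
  refine ⟨Metric.ball p δ ∩ {x | 0 < inner ℝ x p}, f, ?_, ?_, hf1.contDiffOn, ?_, ?_⟩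
  · refine Metric.isOpen_ball.inter ?_
    exact isOpen_lt continuous_const (by fun_prop)
  · refine ⟨Metric.mem_ball_self hδ, ?_⟩
    change 0 < inner ℝ p p
    rw [real_inner_self_eq_norm_sq, hpr]
    positivity
  · intro x hx
    exact hf2 x hx.2
  · ext x
    constructor
    · rintro ⟨hx1, hx2, hx3⟩
      have hx : x ∈ connectedComponentIn (typeClass Gam r w₀) w₀ ∩ Metric.ball p δ := ⟨hx1, hx2⟩
      rw [hloc] at hx
      exact ⟨⟨hx2, hx3⟩, (hf3 x).2 ⟨by rw [hx.2.1], hx.2.2⟩⟩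
    · rintro ⟨⟨hx2, hx3⟩, hx4⟩
      obtain ⟨h1, h2⟩ := (hf3 x).1 hx4
      have h3 : ‖x‖ = r := (sq_eq_sq₀ (norm_nonneg _) hr.le).1 h1
      have hx : x ∈ {w | w ∈ Metric.ball p δ ∧ ‖w‖ = r ∧ w ∈ L p} := ⟨hx2, h3, h2⟩
      rw [← hloc] at hx
      exact ⟨hx.1, hx2, hx3⟩

end OrbPoly
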