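import Pool.Agent.OrbPoly.Limit
import Pool.Agent.OrbPoly.Subman

set_option autoImplicit false

open Set MeasureTheory Filter Topology Module

namespace OrbPoly

/-- Normalised path towards the demicube point. -/
noncomputable def np (r ρ : ℝ) : E 5 := (r / ‖wp 1 ρ‖) • wp 1 ρ

lemma wp_ne (ρ : ℝ) : ‖wp 1 ρ‖ ≠ 0 := by
  intro h
  have h1 : wp 1 ρ = 0 := norm_eq_zero.1 h
  have h2 : (wp 1 ρ) 0 = 0 := by rw [h1]; rfl
  rw [wp, (five 1 (1 * ρ) 1 1 1).1] at h2
  exact one_ne_zero h2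

lemma norm_np {r : ℝ} (hr : 0 < r) (ρ : ℝ) : ‖np r ρ‖ = r := by
  rw [np, norm_smul, Real.norm_of_nonneg (by positivity)]
  have := wp_ne ρ
  field_simp

lemma continuous_np (r : ℝ) : Continuous (np r) := by
  unfold np
  exact (continuous_const.div (continuous_wp 1).norm wp_ne).smul (continuous_wp 1)

lemma Cell.smul {w : E 5} (hw : Cell w) {s : ℝ} (hs : 0 < s) : Cell (s • w) := by
  obtain ⟨q1, q2, q3, q4⟩ := hw
  refine ⟨?_, ?_, ?_, ?_⟩
  · exact mul_pos hs q1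
  · exact mul_lt_mul_of_pos_left q2 hs
  · rintro ⟨h1, h2⟩
    have h1' : s * w 2 = 0 := h1
    have h2' : s * w 3 = 0 := h2
    exact q3 ⟨(mul_eq_zero.1 h1').resolve_left hs.ne', (mul_eq_zero.1 h2').resolve_left hs.ne'⟩
  · exact mul_pos hs q4

lemma np_cell {r ρ : ℝ} (hr : 0 < r) (h0 : 0 < ρ) (h1 : ρ < 1) : Cell (np r ρ) := by
  refine (wp_cell one_pos h0 h1).smul (div_pos hr ?_)
  exact lt_of_le_of_ne (norm_nonneg _) (Ne.symm (wp_ne ρ))

lemma np_one (r : ℝ) : np r 1 = dp (r / √5) := by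
  have h1 : ‖wp 1 1‖ = √5 := by
    rw [wp_one, ← Real.sqrt_sq (norm_nonneg _), norm_dp]
    norm_num
  rw [np, h1, wp_one]
  ext i
  have e1 : ∀ k : Fin 5, (dp 1) k = 1 := by intro k; fin_cases k <;> rfl
  have e2 : ∀ k : Fin 5, (dp (r / √5)) k = r / √5 := by intro k; fin_cases k <;> rfl
  rw [PiLp.smul_apply, e1, e2]
  simp

lemma Cell.sameType {w w' : E 5} (hw : Cell w) (hw' : Cell w') : SameType Gam w w' := by
  obtain ⟨q1, q2, q3, q4⟩ := hw
  obtain ⟨p1, p2, p3, p4⟩ := hw'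
  refine sameType_of_expo (expo_fam_eq q1 q2 p1 p2 ?_ ?_)
  · exact ⟨fun h => absurd h q3, fun h => absurd h p3⟩
  · exact ⟨fun h => absurd h q4.ne', fun h => absurd h p4.ne'⟩

/-- The stratum of the counterexample. -/
noncomputable def St (r : ℝ) : Set (E 5) :=
  connectedComponentIn (typeClass Gam r (np r (1 / 2))) (np r (1 / 2))

lemma isStratum_St {r : ℝ} (hr : 0 < r) : IsStratum Gam r (St r) :=
  ⟨np r (1 / 2), norm_np hr _, rfl⟩

lemma np_mem {r ρ : ℝ} (hr : 0 < r) (h0 : 0 < ρ) (h1 : ρ < 1) : np r ρ ∈ St r := by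
  have hpre : IsPreconnected (np r '' Ioo (0 : ℝ) 1) :=
    isPreconnected_Ioo.image _ (continuous_np r).continuousOn
  have hsub : np r '' Ioo (0 : ℝ) 1 ⊆ typeClass Gam r (np r (1 / 2)) := by
    rintro _ ⟨σ, hσ, rfl⟩
    exact ⟨norm_np hr σ, (np_cell hr (by norm_num) (by norm_num)).sameType
      (np_cell hr hσ.1 hσ.2)⟩
  exact hpre.subset_connectedComponentIn ⟨1 / 2, ⟨by norm_num, by norm_num⟩, rfl⟩ hsub
    ⟨ρ, ⟨h0, h1⟩, rfl⟩

lemma L_eq_top {w : E 5} (hw : Cell w) : L w = ⊤ := by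
  obtain ⟨q1, q2, q3, q4⟩ := hw
  rw [eq_top_iff]
  intro v _
  rw [mem_L]
  refine ⟨fun h => ?_, fun h => ?_, fun h => ?_, fun h => ?_, fun h => ?_, fun h => ?_⟩
  · exfalso; linarith
  · exfalso; linarith
  · exfalso; linarith
  · exfalso; linarith
  · exact absurd h q3
  · exfalso; linarith

lemma of_L_eq_top {w : E 5} (h : L w = ⊤) :
    w 0 ≠ 0 ∧ w 1 ≠ 0 ∧ w 0 ≠ w 1 ∧ ¬ (w 2 = 0 ∧ w 3 = 0) ∧ w 4 ≠ 0 := by
  have h1 : (!₂[1, 2, 1, 1, 1] : E 5) ∈ L w := by rw [h]; exact Submodule.mem_top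
  rw [mem_L] at h1
  obtain ⟨f0, f1, f2, f3, f4⟩ := five 1 2 1 1 1
  rw [f0, f1, f2, f3, f4] at h1
  obtain ⟨a0, a1, a2, a3, a4, a5⟩ := h1
  refine ⟨fun h => ?_, fun h => ?_, fun h => ?_, fun h => ?_, fun h => ?_⟩
  · exact absurd (a0 h) (by norm_num)
  · exact absurd (a1 h) (by norm_num)
  · exact absurd (a2 h) (by norm_num)
  · exact absurd (a4 h).1 (by norm_num)
  · exact absurd (a5 h) (by norm_num)

lemma pos_on {S : Set (E 5)} (hS : IsPreconnected S) {f : E 5 → ℝ} (hf : Continuous f)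
    (h0 : ∀ w ∈ S, f w ≠ 0) {w₀ : E 5} (hw₀ : w₀ ∈ S) (hpos : 0 < f w₀) {w : E 5} (hw : w ∈ S) :
    0 < f w := by
  by_contra hcon
  push Not at hcon
  obtain ⟨x, hx, hx0⟩ := hS.intermediate_value hw hw₀ hf.continuousOn ⟨hcon, hpos.le⟩
  exact h0 x hx hx0

/-- The stratum is contained in the open cell. -/
theorem St_subset {r : ℝ} (hr : 0 < r) {w : E 5} (hw : w ∈ St r) : Cell w := by
  have hself : np r (1 / 2) ∈ St r := np_mem hr (by norm_num) (by norm_num)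
  have hcell := np_cell (ρ := 1 / 2) hr (by norm_num) (by norm_num)
  have hpre : IsPreconnected (St r) := isPreconnected_connectedComponentIn
  have htop : ∀ x ∈ St r, L x = ⊤ := by
    intro x hx
    have h1 : cd x = cd (np r (1 / 2)) := cd_const hr hx hself
    have h2 : cd (np r (1 / 2)) = 0 := by
      rw [cd, L_eq_top hcell, finrank_zero_iff, Submodule.Quotient.subsingleton_iff]
    rw [h2, cd, finrank_zero_iff, Submodule.Quotient.subsingleton_iff] at h1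
    exact h1
  obtain ⟨q1, q2, q3, q4⟩ := hcell
  have c0 := continuous_coord 0
  have c1 := continuous_coord 1
  have c4 := continuous_coord 4
  refine ⟨?_, ?_, (of_L_eq_top (htop w hw)).2.2.2.1, ?_⟩
  · exact pos_on hpre c1 (fun x hx => (of_L_eq_top (htop x hx)).2.1) hself q1 hw
  · have := pos_on hpre (c0.sub c1) (fun x hx => sub_ne_zero.2 (of_L_eq_top (htop x hx)).2.2.1)
      hself (sub_pos.2 q2) hw
    exact sub_pos.1 this
  · exact pos_on hpre c4 (fun x hx => (of_L_eq_top (htop x hx)).2.2.2.2) hself q4 hw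

lemma interior_Q {w : E 5} (hw : Cell w) : (interior (Q Gam w)).Nonempty := by
  have d := hw.dat
  rw [Q_eq, interior_convexHull_nonempty_iff_affineSpan_eq_top,
    AffineSubspace.affineSpan_eq_top_iff_vectorSpan_eq_top_of_nonempty _ _ _ (range_nonempty _),
    eq_top_iff, ← span_top (w := w) (by have := d.pa; positivity) d.pm d.pt.ne',
    Submodule.span_le]
  rintro _ ⟨h, rfl⟩
  have h1 : (16 : ℝ) • fam w h = ∑ g : G, (fam w h - fam w g) := by
    rw [Finset.sum_sub_distrib, sum_fam, sub_zero, Finset.sum_const]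
    have hc : (Finset.univ : Finset G).card = 16 := by decide
    rw [hc, ← Nat.cast_smul_eq_nsmul ℝ]
    norm_num
  have h2 : fam w h = (16 : ℝ)⁻¹ • ∑ g : G, (fam w h - fam w g) := by
    rw [← h1, smul_smul]; norm_num
  rw [h2]
  refine Submodule.smul_mem _ _ (Submodule.sum_mem _ fun g _ => ?_)
  exact vsub_mem_vectorSpan ℝ ⟨h, rfl⟩ ⟨g, rfl⟩

theorem isGLB_St {r : ℝ} (hr : 0 < r) : IsGLB (lambda1 Gam '' St r) (1 / 5) := by
  refine ⟨?_, ?_⟩
  · rintro _ ⟨w, hw, rfl⟩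
    exact (lt_lambda1 (St_subset hr hw)).2.le
  · intro b hb
    by_contra hcon
    push Not at hcon
    have hc : 0 < r / √5 := by positivity
    have h1 := limit_le hc (ε := (b - 1 / 5) / 2) (by linarith)
    have h2 : Tendsto (np r) (𝓝[<] 1) (𝓝 (dp (r / √5))) := by
      rw [← np_one]
      exact ((continuous_np r).tendsto 1).mono_left nhdsWithin_le_nhds
    have h3 := h2.eventually h1
    have h4 : ∀ᶠ ρ in 𝓝[<] (1 : ℝ), 0 < ρ :=
      (lt_mem_nhds (by norm_num : (0 : ℝ) < 1)).filter_mono nhdsWithin_le_nhds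
    have h5 : ∀ᶠ ρ in 𝓝[<] (1 : ℝ), ρ < 1 := self_mem_nhdsWithin
    obtain ⟨ρ, h6, h7, h8⟩ := (h3.and (h4.and h5)).exists
    have h9 := h6 (np_cell hr h7 h8)
    have h10 := hb ⟨np r ρ, np_mem hr h7 h8, rfl⟩
    linarith

end OrbPoly
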