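import Pool.Agent.OrbPoly.Spec

set_option autoImplicit false

open Set

namespace OrbPoly

/-- The index `(i conj x, -i z, -t)`. -/
def th2 : G := (true, true, false, true)

/-- The weighted inner product. -/
noncomputable def Bf (n m t : ℝ) (v v' : E 5) : ℝ :=
  2 * m * t ^ 2 * (v 0 * v' 0 + v 1 * v' 1) + 2 * n * t ^ 2 * (v 2 * v' 2 + v 3 * v' 3) +
    n * m * (v 4 * v' 4)

lemma Bf_act (n m t : ℝ) (g : G) (v v' : E 5) :
    Bf n m t (act g v) (act g v') = Bf n m t v v' := by
  obtain ⟨e, j, a, b⟩ := g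
  cases e <;> cases j <;> cases a <;> cases b <;> simp [Bf, act] <;> ring

lemma Bf_act' (n m t : ℝ) (g h : G) (w : E 5) :
    Bf n m t (act h w) (act g w) = Bf n m t w (act (mulG (invG h) g) w) := by
  rw [← Bf_act n m t h w, act_act, mul_invG_cancel]

lemma sum_coord (w : E 5) (i : Fin 5) : ∑ g : G, (act g w) i = 0 := by
  simp only [Fintype.sum_prod_type, Fintype.sum_bool]
  fin_cases i <;> simp [act] <;> ring

lemma sum_const_left (F : G → ℝ) : ∑ h : G, ∑ g : G, F (mulG (invG h) g) = 16 * ∑ g, F g := by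
  have : ∀ h : G, ∑ g : G, F (mulG (invG h) g) = ∑ g, F g := fun h => sum_left F h
  rw [Finset.sum_congr rfl fun h _ => this h, Finset.sum_const, nsmul_eq_mul]
  have hc : (Finset.univ : Finset G).card = 16 := by decide
  rw [hc]
  norm_num

theorem rayleigh {w : E 5} (hinj : Function.Injective (fam w)) (hd : 0 < dw w) {n m t : ℝ}
    (hn : n = w 0 ^ 2 + w 1 ^ 2) (hm : m = w 2 ^ 2 + w 3 ^ 2) (ht : t = w 4) :
    ∑ g, cw w g * Bf n m t w (act g w) ≤ 5 * n * m * t ^ 2 * (lambda1 Gam w * dw w) := by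
  have hN : ∀ i : Fin 5, qf (cw w) (fun g => (act g w) i) ≤
      lambda1 Gam w * dw w * ∑ g, (act g w) i ^ 2 := fun i => le_lambda1 hinj hd (sum_coord w i)
  have hn0 : 0 ≤ n := by rw [hn]; positivity
  have hm0 : 0 ≤ m := by rw [hm]; positivity
  have e0 := mul_le_mul_of_nonneg_left (hN 0) (by positivity : 0 ≤ 2 * m * t ^ 2)
  have e1 := mul_le_mul_of_nonneg_left (hN 1) (by positivity : 0 ≤ 2 * m * t ^ 2)
  have e2 := mul_le_mul_of_nonneg_left (hN 2) (by positivity : 0 ≤ 2 * n * t ^ 2)
  have e3 := mul_le_mul_of_nonneg_left (hN 3) (by positivity : 0 ≤ 2 * n * t ^ 2)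
  have e4 := mul_le_mul_of_nonneg_left (hN 4) (by positivity : 0 ≤ n * m)
  have hB : ∀ g, Bf n m t (act g w) (act g w) = 5 * n * m * t ^ 2 := by
    intro g
    rw [Bf_act, Bf, hn, hm, ht]
    ring
  have hsum : 2 * m * t ^ 2 * (∑ g, (act g w) 0 ^ 2) + 2 * m * t ^ 2 * (∑ g, (act g w) 1 ^ 2) +
      2 * n * t ^ 2 * (∑ g, (act g w) 2 ^ 2) + 2 * n * t ^ 2 * (∑ g, (act g w) 3 ^ 2) +
      n * m * (∑ g, (act g w) 4 ^ 2) = 16 * (5 * n * m * t ^ 2) := by
    have h1 : ∑ g : G, Bf n m t (act g w) (act g w) = 16 * (5 * n * m * t ^ 2) := by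
      rw [Finset.sum_congr rfl fun g _ => hB g, Finset.sum_const, nsmul_eq_mul]
      have hc : (Finset.univ : Finset G).card = 16 := by decide
      rw [hc]
      norm_num
    rw [← h1]
    simp only [Finset.mul_sum, ← Finset.sum_add_distrib]
    refine Finset.sum_congr rfl fun g _ => ?_
    rw [Bf]; ring
  have hq : 2 * m * t ^ 2 * qf (cw w) (fun g => (act g w) 0) +
      2 * m * t ^ 2 * qf (cw w) (fun g => (act g w) 1) +
      2 * n * t ^ 2 * qf (cw w) (fun g => (act g w) 2) +
      2 * n * t ^ 2 * qf (cw w) (fun g => (act g w) 3) +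
      n * m * qf (cw w) (fun g => (act g w) 4) =
      16 * ∑ g, cw w g * Bf n m t w (act g w) := by
    rw [← sum_const_left]
    simp only [qf, Finset.mul_sum, ← Finset.sum_add_distrib]
    refine Finset.sum_congr rfl fun h _ => Finset.sum_congr rfl fun g _ => ?_
    rw [← Bf_act' n m t g h w, Bf]; ring
  have hle : 16 * ∑ g, cw w g * Bf n m t w (act g w) ≤
      lambda1 Gam w * dw w * (16 * (5 * n * m * t ^ 2)) := by
    rw [← hq, ← hsum]
    linarith
  linarith

/-- The consequence of the Rayleigh bound on the cell. -/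
theorem test_bound {w : E 5} (hw : Cell w) (hd : 0 < dw w) :
    2 * (w 0 - w 1) * ((w 0 + w 1) * (cw w si - cw w si') -
      (w 0 - w 1) * (cw w th + cw w th2)) ≤
      (w 0 ^ 2 + w 1 ^ 2) * ((5 * lambda1 Gam w - 1) * dw w) := by
  have hinj := fam_injective (fun g h => hw.stab (g := g) h)
  have h := rayleigh hinj hd rfl rfl rfl
  have hw' := hw
  obtain ⟨q1, q2, q3, q4⟩ := hw'
  have hz : ∀ g : G, (g = (false, false, true, true) ∨ g = (true, false, false, true) ∨
      g = (true, false, true, true) ∨ g = (true, true, true, false) ∨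
      g = (true, true, true, true)) → cw w g = 0 := by
    intro g hg
    rw [cw, weight, if_neg (not_isEdge hw hg)]
  have z0 : cw w (false, false, false, false) = 0 := by
    have : act (false, false, false, false) w = w := act_one w
    rw [cw, this, weight_self]
  have z1 := hz (false, false, true, true) (by tauto)
  have z2 := hz (true, false, false, true) (by tauto)
  have z3 := hz (true, false, true, true) (by tauto)
  have z4 := hz (true, true, true, false) (by tauto)
  have z5 := hz (true, true, true, true) (by tauto)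
  have hdw : dw w = ∑ g, cw w g := rfl
  have hm : 0 < w 2 ^ 2 + w 3 ^ 2 := by
    rcases not_and_or.1 q3 with h | h
    · have := sq_pos_of_ne_zero h
      have := sq_nonneg (w 3)
      linarith
    · have := sq_pos_of_ne_zero h
      have := sq_nonneg (w 2)
      linarith
  set n := w 0 ^ 2 + w 1 ^ 2 with hn
  set m := w 2 ^ 2 + w 3 ^ 2 with hmd
  set t := w 4 with htd
  have key : ∑ g, cw w g * (Bf n m t w (act g w) - n * m * t ^ 2) =
      m * t ^ 2 * (2 * (w 0 - w 1) * ((w 0 + w 1) * (cw w si - cw w si') -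
      (w 0 - w 1) * (cw w th + cw w th2))) := by
    simp only [Fintype.sum_prod_type, Fintype.sum_bool, z0, z1, z2, z3, z4, z5, zero_mul, add_zero,
      zero_add]
    simp only [si, si', th, th2]
    simp only [Bf, act]
    simp
    rw [hn, hmd, htd]
    ring
  have h2 : ∑ g, cw w g * (Bf n m t w (act g w) - n * m * t ^ 2) =
      ∑ g, cw w g * Bf n m t w (act g w) - n * m * t ^ 2 * dw w := by
    rw [hdw, Finset.mul_sum, ← Finset.sum_sub_distrib]
    refine Finset.sum_congr rfl fun g _ => ?_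
    ring
  rw [h2] at key
  have hmt : 0 < m * t ^ 2 := by positivity
  have h3 : m * t ^ 2 * (2 * (w 0 - w 1) * ((w 0 + w 1) * (cw w si - cw w si') -
      (w 0 - w 1) * (cw w th + cw w th2))) ≤
      m * t ^ 2 * (n * ((5 * lambda1 Gam w - 1) * dw w)) := by
    rw [← key]
    linarith
  exact le_of_mul_le_mul_left h3 hmt

end OrbPoly
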