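import Pool.Agent.OrbPoly.Group

set_option autoImplicit false

open Set

namespace OrbPoly

/-- Value of a functional with parameters `(a1,a2,b1,b2,k1,k2,t)` at the index `g`. -/
noncomputable def val (a1 a2 b1 b2 k1 k2 t : ℝ) (g : G) : ℝ :=
  sg g.2.2.1 * (if g.1 then (if g.2.1 then b2 else b1) else (if g.2.1 then a2 else a1)) +
    sg g.2.2.2 * (if g.2.1 then k2 else k1) + sg g.1 * t

/-- The argmax set of `val`. -/
def am (a1 a2 b1 b2 k1 k2 t : ℝ) : Set G :=
  {g | ∀ h, val a1 a2 b1 b2 k1 k2 t h ≤ val a1 a2 b1 b2 k1 k2 t g}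

lemma inner_act (y w : E 5) (g : G) : inner ℝ y (act g w) =
    val (y 0 * w 0 + y 1 * w 1) (y 1 * w 0 - y 0 * w 1) (y 0 * w 0 - y 1 * w 1)
      (y 0 * w 1 + y 1 * w 0) (y 2 * w 2 + y 3 * w 3) (y 3 * w 2 - y 2 * w 3) (y 4 * w 4) g := by
  obtain ⟨e, j, a, b⟩ := g
  rw [PiLp.inner_apply]
  simp only [Fin.sum_univ_five]
  cases e <;> cases j <;> cases a <;> cases b <;> simp [act, val] <;> ring

lemma amax_fam (y w : E 5) : amax (fam w) y =
    am (y 0 * w 0 + y 1 * w 1) (y 1 * w 0 - y 0 * w 1) (y 0 * w 0 - y 1 * w 1)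
      (y 0 * w 1 + y 1 * w 0) (y 2 * w 2 + y 3 * w 3) (y 3 * w 2 - y 2 * w 3) (y 4 * w 4) := by
  ext g
  simp only [amax, am, fam, mem_setOf_eq, inner_act]

/-- The base vertex is maximal: inequalities. -/
lemma base_mem_iff (a1 a2 b1 b2 k1 k2 t : ℝ) : oneG ∈ am a1 a2 b1 b2 k1 k2 t ↔
    0 ≤ a1 ∧ 0 ≤ k1 ∧ |a2| + |k2| ≤ a1 + k1 ∧ |b1| ≤ a1 + 2 * t ∧
      |b2| + |k2| ≤ a1 + k1 + 2 * t := by
  constructor
  · intro h
    have h1 := h (false, false, true, false)
    have h2 := h (false, false, false, true)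
    have h3 := h (false, true, false, false)
    have h4 := h (false, true, true, false)
    have h5 := h (false, true, false, true)
    have h6 := h (false, true, true, true)
    have h7 := h (true, false, false, false)
    have h8 := h (true, false, true, false)
    have h9 := h (true, true, false, false)
    have h10 := h (true, true, true, false)
    have h11 := h (true, true, false, true)
    have h12 := h (true, true, true, true)
    simp [val, oneG] at h1 h2 h3 h4 h5 h6 h7 h8 h9 h10 h11 h12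
    refine ⟨by linarith, by linarith, ?_, ?_, ?_⟩
    · rcases abs_cases a2 with ⟨h, _⟩ | ⟨h, _⟩ <;> rcases abs_cases k2 with ⟨h', _⟩ | ⟨h', _⟩ <;>
        rw [h, h'] <;> linarith
    · rcases abs_cases b1 with ⟨h, _⟩ | ⟨h, _⟩ <;> rw [h] <;> linarith
    · rcases abs_cases b2 with ⟨h, _⟩ | ⟨h, _⟩ <;> rcases abs_cases k2 with ⟨h', _⟩ | ⟨h', _⟩ <;>
        rw [h, h'] <;> linarith
  · rintro ⟨h1, h2, h3, h4, h5⟩ ⟨e, j, a, b⟩
    have ha2 := neg_abs_le a2
    have ha2' := le_abs_self a2
    have hk2 := neg_abs_le k2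
    have hk2' := le_abs_self k2
    have hb1 := neg_abs_le b1
    have hb1' := le_abs_self b1
    have hb2 := neg_abs_le b2
    have hb2' := le_abs_self b2
    cases e <;> cases j <;> cases a <;> cases b <;> simp [val, oneG] <;> linarith

/-- Comparison data of two parameter vectors. -/
def Good (a1 a2 b1 b2 k1 k2 t a1' a2' b1' b2' k1' k2' t' : ℝ) : Prop :=
  SignType.sign a1' = SignType.sign a1 ∧ SignType.sign k1' = SignType.sign k1 ∧
  ((|a2| + |k2| < a1 + k1 ∧ |a2'| + |k2'| < a1' + k1') ∨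
    (|a2| + |k2| = a1 + k1 ∧ |a2'| + |k2'| = a1' + k1' ∧
      SignType.sign a2' = SignType.sign a2 ∧ SignType.sign k2' = SignType.sign k2)) ∧
  ((|b1| < a1 + 2 * t ∧ |b1'| < a1' + 2 * t') ∨
    (|b1| = a1 + 2 * t ∧ |b1'| = a1' + 2 * t' ∧ SignType.sign b1' = SignType.sign b1)) ∧
  ((|b2| + |k2| < a1 + k1 + 2 * t ∧ |b2'| + |k2'| < a1' + k1' + 2 * t') ∨
    (|b2| + |k2| = a1 + k1 + 2 * t ∧ |b2'| + |k2'| = a1' + k1' + 2 * t' ∧
      SignType.sign b2' = SignType.sign b2 ∧ SignType.sign k2' = SignType.sign k2))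

lemma sg_mul_eq_abs_iff (ε : Bool) {a a' : ℝ} (h : SignType.sign a' = SignType.sign a) :
    sg ε * a = |a| ↔ sg ε * a' = |a'| := by
  rcases lt_trichotomy a 0 with h0 | h0 | h0
  · have h0' : a' < 0 := by rw [sign_neg h0] at h; exact sign_eq_neg_one_iff.1 h
    rw [abs_of_neg h0, abs_of_neg h0']
    cases ε <;> simp [sg] <;> constructor <;> intro _ <;> linarith
  · have h0' : a' = 0 := by rw [h0, sign_zero] at h; exact sign_eq_zero_iff.1 h
    rw [h0, h0']
  · have h0' : 0 < a' := by rw [sign_pos h0] at h; exact sign_eq_one_iff.1 h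
    rw [abs_of_pos h0, abs_of_pos h0']
    cases ε <;> simp [sg] <;> constructor <;> intro _ <;> linarith

lemma sg_mul_le_abs (ε : Bool) (a : ℝ) : sg ε * a ≤ |a| := by
  cases ε
  · simp [le_abs_self]
  · simpa using neg_le_abs a

/-- In an active class the maximal elements are those with the right signs. -/
lemma class_iff {a k H M a' k' H' M' : ℝ}
    (h : (|a| + |k| + H < M ∧ |a'| + |k'| + H' < M') ∨
      (|a| + |k| + H = M ∧ |a'| + |k'| + H' = M' ∧ SignType.sign a' = SignType.sign a ∧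
        SignType.sign k' = SignType.sign k)) (ε δ : Bool) :
    sg ε * a + sg δ * k + H = M ↔ sg ε * a' + sg δ * k' + H' = M' := by
  have h1 := sg_mul_le_abs ε a
  have h2 := sg_mul_le_abs δ k
  have h3 := sg_mul_le_abs ε a'
  have h4 := sg_mul_le_abs δ k'
  rcases h with ⟨h, h'⟩ | ⟨h, h', hs1, hs2⟩
  · constructor <;> intro _ <;> linarith
  · have e1 := sg_mul_eq_abs_iff ε hs1
    have e2 := sg_mul_eq_abs_iff δ hs2
    constructor
    · intro hh
      have e3 : sg ε * a = |a| := by linarith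
      have e4 : sg δ * k = |k| := by linarith
      rw [e1.1 e3, e2.1 e4, h']
    · intro hh
      have e3 : sg ε * a' = |a'| := by linarith
      have e4 : sg δ * k' = |k'| := by linarith
      rw [e1.2 e3, e2.2 e4, h]

lemma am_eq_of_good {a1 a2 b1 b2 k1 k2 t a1' a2' b1' b2' k1' k2' t' : ℝ}
    (ha : 0 ≤ a1) (hk : 0 ≤ k1)
    (h : Good a1 a2 b1 b2 k1 k2 t a1' a2' b1' b2' k1' k2' t') :
    am a1 a2 b1 b2 k1 k2 t = am a1' a2' b1' b2' k1' k2' t' := by
  obtain ⟨hs1, hs2, h2, h3, h4⟩ := h
  have ha' : 0 ≤ a1' := by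
    have : (0 : SignType) ≤ SignType.sign a1 := by
      rcases ha.eq_or_lt with h | h
      · rw [← h, sign_zero]
      · rw [sign_pos h]; decide
    rw [← hs1] at this
    exact sign_nonneg_iff.1 this
  have hk' : 0 ≤ k1' := by
    have : (0 : SignType) ≤ SignType.sign k1 := by
      rcases hk.eq_or_lt with h | h
      · rw [← h, sign_zero]
      · rw [sign_pos h]; decide
    rw [← hs2] at this
    exact sign_nonneg_iff.1 this
  have hb : oneG ∈ am a1 a2 b1 b2 k1 k2 t := by
    rw [base_mem_iff]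
    refine ⟨ha, hk, ?_, ?_, ?_⟩
    · rcases h2 with h | h <;> linarith [h.1]
    · rcases h3 with h | h <;> linarith [h.1]
    · rcases h4 with h | h <;> linarith [h.1]
  have hb' : oneG ∈ am a1' a2' b1' b2' k1' k2' t' := by
    rw [base_mem_iff]
    refine ⟨ha', hk', ?_, ?_, ?_⟩
    · rcases h2 with h | h
      · linarith [h.2]
      · linarith [h.2.1]
    · rcases h3 with h | h
      · linarith [h.2]
      · linarith [h.2.1]
    · rcases h4 with h | h
      · linarith [h.2]
      · linarith [h.2.1]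
  have hval : ∀ a1 a2 b1 b2 k1 k2 t : ℝ, val a1 a2 b1 b2 k1 k2 t oneG = a1 + k1 + t := by
    intro a1 a2 b1 b2 k1 k2 t
    simp [val, oneG]
  have key : ∀ g : G, val a1 a2 b1 b2 k1 k2 t g = a1 + k1 + t ↔
      val a1' a2' b1' b2' k1' k2' t' g = a1' + k1' + t' := by
    rintro ⟨e, j, ε, δ⟩
    cases e <;> cases j
    · have := class_iff (a := a1) (k := k1) (H := t) (M := a1 + k1 + t) (a' := a1') (k' := k1')
        (H' := t') (M' := a1' + k1' + t')
        (Or.inr ⟨by rw [abs_of_nonneg ha, abs_of_nonneg hk], by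
          rw [abs_of_nonneg ha', abs_of_nonneg hk'], hs1, hs2⟩) ε δ
      simpa [val] using this
    · have := class_iff (a := a2) (k := k2) (H := t) (M := a1 + k1 + t) (a' := a2') (k' := k2')
        (H' := t') (M' := a1' + k1' + t') (by
          rcases h2 with h | h
          · left; exact ⟨by linarith [h.1], by linarith [h.2]⟩
          · right; exact ⟨by linarith [h.1], by linarith [h.2.1], h.2.2⟩) ε δ
      simpa [val] using this
    · have := class_iff (a := b1) (k := k1) (H := -t) (M := a1 + k1 + t) (a' := b1') (k' := k1')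
        (H' := -t') (M' := a1' + k1' + t') (by
          rw [abs_of_nonneg hk, abs_of_nonneg hk']
          rcases h3 with h | h
          · left; exact ⟨by linarith [h.1], by linarith [h.2]⟩
          · right; exact ⟨by linarith [h.1], by linarith [h.2.1], h.2.2, hs2⟩) ε δ
      simpa [val] using this
    · have := class_iff (a := b2) (k := k2) (H := -t) (M := a1 + k1 + t) (a' := b2') (k' := k2')
        (H' := -t') (M' := a1' + k1' + t') (by
          rcases h4 with h | h
          · left; exact ⟨by linarith [h.1], by linarith [h.2]⟩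
          · right; exact ⟨by linarith [h.1], by linarith [h.2.1], h.2.2⟩) ε δ
      simpa [val] using this
  ext g
  constructor
  · intro hg
    have e1 : val a1 a2 b1 b2 k1 k2 t g = a1 + k1 + t := by
      rw [← hval a1 a2 b1 b2 k1 k2 t]
      exact le_antisymm (hb g) (hg oneG)
    have e2 := (key g).1 e1
    intro h
    rw [e2, ← hval a1' a2' b1' b2' k1' k2' t']
    exact hb' h
  · intro hg
    have e1 : val a1' a2' b1' b2' k1' k2' t' g = a1' + k1' + t' := by
      rw [← hval a1' a2' b1' b2' k1' k2' t']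
      exact le_antisymm (hb' g) (hg oneG)
    have e2 := (key g).2 e1
    intro h
    rw [e2, ← hval a1 a2 b1 b2 k1 k2 t]
    exact hb h

end OrbPoly
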