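import Pool.Agent.OrbPoly.Defs

set_option autoImplicit false

open Set MeasureTheory Module
open scoped Pointwise

namespace OrbPoly

/-! ### Reflections and halving -/

/-- Reflection of the coordinate `i`. -/
noncomputable def refl3 (i : Fin 3) : E 3 ≃ₗᵢ[ℝ] E 3 :=
  LinearIsometryEquiv.piLpCongrRight 2
    (fun j => if j = i then LinearIsometryEquiv.neg ℝ else LinearIsometryEquiv.refl ℝ ℝ)

lemma refl3_apply (i j : Fin 3) (v : E 3) : (refl3 i v) j = if j = i then -(v j) else v j := by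
  rw [refl3, LinearIsometryEquiv.piLpCongrRight_apply]
  by_cases h : j = i
  · simp [h]
  · simp [h]

lemma refl3_self (i : Fin 3) (v : E 3) : (refl3 i v) i = -(v i) := by
  rw [refl3_apply, if_pos rfl]

lemma null_coord (i : Fin 3) : volume {v : E 3 | v i = 0} = 0 := by
  have h : {v : E 3 | v i = 0} = ((LinearMap.ker (EuclideanSpace.proj i : E 3 →L[ℝ] ℝ).toLinearMap :
      Submodule ℝ (E 3)) : Set (E 3)) := by
    ext v
    simp
  rw [h]
  refine Measure.addHaar_submodule _ _ ?_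
  intro htop
  have h1 : (EuclideanSpace.single i (1 : ℝ) : E 3) ∈
      LinearMap.ker (EuclideanSpace.proj i : E 3 →L[ℝ] ℝ).toLinearMap := by
    rw [htop]; exact Submodule.mem_top
  rw [LinearMap.mem_ker] at h1
  simp at h1

/-- Halving a set symmetric under the reflection of the coordinate `i`. -/
lemma volume_half (i : Fin 3) {A : Set (E 3)} (hA : MeasurableSet A)
    (hs : ∀ v, refl3 i v ∈ A ↔ v ∈ A) :
    volume A = 2 * volume (A ∩ {v | 0 ≤ v i}) := by
  have m1 : MeasurableSet {v : E 3 | 0 < v i} :=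
    (isOpen_lt continuous_const (by fun_prop)).measurableSet
  have m2 : MeasurableSet {v : E 3 | v i < 0} :=
    (isOpen_lt (by fun_prop) continuous_const).measurableSet
  have h1 : volume (A ∩ {v | v i < 0}) = volume (A ∩ {v | 0 < v i}) := by
    have hmp := (refl3 i).measurePreserving
    have h2 : (refl3 i) ⁻¹' (A ∩ {v | 0 < v i}) = A ∩ {v | v i < 0} := by
      ext v
      simp only [mem_preimage, mem_inter_iff, mem_ofPred_eq, hs, refl3_self]
      constructor
      · rintro ⟨a, b⟩; exact ⟨a, by linarith⟩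
      · rintro ⟨a, b⟩; exact ⟨a, by linarith⟩
    rw [← h2]
    exact hmp.measure_preimage (hA.inter m1).nullMeasurableSet
  have h3 : volume (A ∩ {v | 0 ≤ v i}) = volume (A ∩ {v | 0 < v i}) := by
    refine le_antisymm ?_ (measure_mono ?_)
    · calc volume (A ∩ {v | 0 ≤ v i}) ≤ volume ((A ∩ {v | 0 < v i}) ∪ {v | v i = 0}) := by
            refine measure_mono ?_
            rintro v ⟨a, b⟩
            rcases (show (0 : ℝ) ≤ v i from b).eq_or_lt with h | h
            · right; exact h.symm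
            · left; exact ⟨a, h⟩
        _ ≤ volume (A ∩ {v | 0 < v i}) + volume {v : E 3 | v i = 0} := measure_union_le _ _
        _ = volume (A ∩ {v | 0 < v i}) := by rw [null_coord, add_zero]
    · rintro v ⟨a, b⟩
      exact ⟨a, le_of_lt (show 0 < v i from b)⟩
  have h4 : volume A = volume (A ∩ {v | 0 < v i}) + volume (A ∩ {v | v i < 0}) := by
    refine le_antisymm ?_ ?_
    · calc volume A ≤ volume (((A ∩ {v | 0 < v i}) ∪ (A ∩ {v | v i < 0})) ∪ {v | v i = 0}) := by
            refine measure_mono ?_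
            intro v hv
            rcases lt_trichotomy (v i) 0 with h | h | h
            · left; right; exact ⟨hv, h⟩
            · right; exact h
            · left; left; exact ⟨hv, h⟩
        _ ≤ volume ((A ∩ {v | 0 < v i}) ∪ (A ∩ {v | v i < 0})) + volume {v : E 3 | v i = 0} :=
            measure_union_le _ _
        _ ≤ volume (A ∩ {v | 0 < v i}) + volume (A ∩ {v | v i < 0}) := by
            rw [null_coord, add_zero]; exact measure_union_le _ _
    · rw [← measure_union _ (hA.inter m2)]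
      · refine measure_mono ?_
        rintro v (⟨a, _⟩ | ⟨a, _⟩) <;> exact a
      · rw [Set.disjoint_left]
        rintro v ⟨_, a⟩ ⟨_, b⟩
        exact lt_asymm (show 0 < v i from a) (show v i < 0 from b)
  rw [h4, h1, h3, two_mul]

/-! ### The standard simplex -/

lemma volume_octa : volume {v : E 3 | |v 0| + |v 1| + |v 2| ≤ 1} = ENNReal.ofReal (4 / 3) := by
  have h := MeasureTheory.volume_sum_rpow_le (Fin 3) (p := 1) le_rfl 1
  have h2 : {v : E 3 | |v 0| + |v 1| + |v 2| ≤ 1} =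
      (WithLp.ofLp : E 3 → (Fin 3 → ℝ)) ⁻¹'
        {x : Fin 3 → ℝ | (∑ i, |x i| ^ (1 : ℝ)) ^ (1 / (1 : ℝ)) ≤ 1} := by
    ext v
    simp [Fin.sum_univ_three]
  rw [h2, (PiLp.volume_preserving_ofLp (Fin 3)).measure_preimage, h]
  · have h3 : Real.Gamma ((Fintype.card (Fin 3) : ℝ) / 1 + 1) = 6 := by
      have := Real.Gamma_nat_eq_factorial 3
      simp only [Fintype.card_fin]
      norm_num at this ⊢
    have h4 : Real.Gamma (1 / 1 + 1) = 1 := by
      norm_num [Real.Gamma_two]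
    rw [h3, h4, Fintype.card_fin]
    norm_num
  · refine MeasurableSet.nullMeasurableSet ?_
    refine measurableSet_le ?_ measurable_const
    fun_prop

/-- The standard simplex. -/
def Del : Set (E 3) := {v | (0 ≤ v 0 ∧ 0 ≤ v 1 ∧ 0 ≤ v 2) ∧ v 0 + v 1 + v 2 ≤ 1}

lemma volume_Del : volume Del = ENNReal.ofReal (1 / 6) := by
  have c : ∀ i : Fin 3, Continuous fun v : E 3 => v i := fun i => by fun_prop
  set O : Set (E 3) := {v : E 3 | |v 0| + |v 1| + |v 2| ≤ 1} with hO
  have mO : MeasurableSet O := by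
    refine (isClosed_le ?_ continuous_const).measurableSet
    exact (((c 0).abs).add ((c 1).abs)).add ((c 2).abs)
  have s0 : ∀ v, refl3 0 v ∈ O ↔ v ∈ O := by
    intro v
    simp [hO, refl3_apply]
  have m0 : ∀ i, MeasurableSet {v : E 3 | 0 ≤ v i} := fun i =>
    (isClosed_le continuous_const (c i)).measurableSet
  have e0 := volume_half 0 mO s0
  have e1 := volume_half 1 (mO.inter (m0 0)) (by
    intro v
    simp [hO, refl3_apply])
  have e2 := volume_half 2 ((mO.inter (m0 0)).inter (m0 1)) (by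
    intro v
    simp [hO, refl3_apply])
  have h3 : ((O ∩ {v : E 3 | 0 ≤ v 0}) ∩ {v | 0 ≤ v 1}) ∩ {v | 0 ≤ v 2} = Del := by
    ext v
    constructor
    · rintro ⟨⟨⟨h, h0⟩, h1⟩, h2⟩
      have h0' : 0 ≤ v 0 := h0
      have h1' : 0 ≤ v 1 := h1
      have h2' : 0 ≤ v 2 := h2
      have h' : |v 0| + |v 1| + |v 2| ≤ 1 := h
      rw [abs_of_nonneg h0', abs_of_nonneg h1', abs_of_nonneg h2'] at h'
      exact ⟨⟨h0', h1', h2'⟩, h'⟩
    · rintro ⟨⟨h0, h1, h2⟩, h⟩
      refine ⟨⟨⟨?_, h0⟩, h1⟩, h2⟩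
      change |v 0| + |v 1| + |v 2| ≤ 1
      rw [abs_of_nonneg h0, abs_of_nonneg h1, abs_of_nonneg h2]
      exact h
  rw [h3] at e2
  rw [e1, e2, volume_octa] at e0
  have h5 : ENNReal.ofReal (4 / 3) = 8 * ENNReal.ofReal (1 / 6) := by
    rw [show (8 : ENNReal) = ENNReal.ofReal 8 by norm_num, ← ENNReal.ofReal_mul (by norm_num)]
    norm_num
  rw [h5] at e0
  have h6 : (8 : ENNReal) * ENNReal.ofReal (1 / 6) = 8 * volume Del := by
    rw [e0]; ring
  have h7 := (ENNReal.mul_right_inj (by norm_num) (by norm_num)).1 h6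
  exact h7.symm

/-- A general simplex in terms of barycentric functionals. -/
def Sim (ℓ : E 3 →ₗ[ℝ] E 3) (q : E 3) (δ : ℝ) : Set (E 3) :=
  {v | (0 ≤ (ℓ (v - q)) 0 ∧ 0 ≤ (ℓ (v - q)) 1 ∧ 0 ≤ (ℓ (v - q)) 2) ∧
    (ℓ (v - q)) 0 + (ℓ (v - q)) 1 + (ℓ (v - q)) 2 ≤ δ}

lemma volume_Sim (ℓ : E 3 →ₗ[ℝ] E 3) (hℓ : LinearMap.det ℓ ≠ 0) (q : E 3) {δ : ℝ} (hδ : 0 < δ) :
    volume (Sim ℓ q δ) = ENNReal.ofReal (δ ^ 3 / (6 * |LinearMap.det ℓ|)) := by
  have h1 : Sim ℓ q δ = (fun v => v + -q) ⁻¹' (ℓ ⁻¹' (δ • Del)) := by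
    ext v
    simp only [mem_preimage]
    rw [mem_smul_set_iff_inv_smul_mem₀ hδ.ne', ← sub_eq_add_neg]
    simp only [Sim, Del, mem_ofPred_eq, PiLp.smul_apply, smul_eq_mul]
    have hi : 0 < δ⁻¹ := inv_pos.2 hδ
    have key : ∀ a : ℝ, 0 ≤ δ⁻¹ * a ↔ 0 ≤ a := fun a =>
      ⟨fun h => by by_contra hc; push Not at hc; nlinarith [mul_neg_of_pos_of_neg hi hc],
        fun h => mul_nonneg hi.le h⟩
    rw [key, key, key]
    have key2 : ∀ a b c : ℝ, δ⁻¹ * a + δ⁻¹ * b + δ⁻¹ * c ≤ 1 ↔ a + b + c ≤ δ := by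
      intro a b c
      rw [← mul_add, ← mul_add, inv_mul_le_iff₀ hδ, mul_one]
    rw [key2]
  rw [h1, measure_preimage_add_right, Measure.addHaar_preimage_linearMap _ hℓ,
    Measure.addHaar_smul, volume_Del, finrank_euclideanSpace, Fintype.card_fin]
  rw [← ENNReal.ofReal_mul (abs_nonneg _), ← ENNReal.ofReal_mul (abs_nonneg _)]
  congr 1
  rw [abs_inv, abs_of_pos (by positivity : 0 < δ ^ 3)]
  field_simp

end OrbPoly
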