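import Pool.Agent.OrbPoly.PolyCont
import Pool.Agent.OrbPoly.Lower

set_option autoImplicit false

open Set MeasureTheory Filter Topology Module

namespace OrbPoly

/-- `‖w‖² + ⟨w, g w⟩`. -/
noncomputable def Nn (g : G) (w : E 5) : ℝ := ‖w‖ ^ 2 + inner ℝ w (act g w)
/-- `‖w‖² - ⟨w, g w⟩`. -/
noncomputable def Mm (g : G) (w : E 5) : ℝ := ‖w‖ ^ 2 - inner ℝ w (act g w)

lemma ar_eq (g : G) (w : E 5) : ar w (act g w) = Nn g w * Mm g w := by
  rw [ar, Nn, Mm, norm_act]; ring

lemma inner_pp (g : G) (w : E 5) : inner ℝ (w + act g w) (w + act g w) = 2 * Nn g w := by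
  rw [inner_add_left, inner_add_right, inner_add_right, real_inner_self_eq_norm_sq,
    real_inner_self_eq_norm_sq, norm_act, real_inner_comm w (act g w), Nn]
  ring

lemma inner_mm (g : G) (w : E 5) : inner ℝ (w - act g w) (w - act g w) = 2 * Mm g w := by
  rw [inner_sub_left, inner_sub_right, inner_sub_right, real_inner_self_eq_norm_sq,
    real_inner_self_eq_norm_sq, norm_act, real_inner_comm w (act g w), Mm]
  ring

lemma inner_pm (g : G) (w : E 5) : inner ℝ (w + act g w) (w - act g w) = 0 := by
  rw [inner_add_left, inner_sub_right, inner_sub_right, real_inner_self_eq_norm_sq,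
    real_inner_self_eq_norm_sq, norm_act, real_inner_comm w (act g w)]
  ring

/-- Projection on the orthogonal complement of `w, g w`. -/
noncomputable def Pr (g : G) (w : E 5) : E 5 →ₗ[ℝ] E 5 where
  toFun x := x - (inner ℝ x (w + act g w) / (2 * Nn g w)) • (w + act g w) -
    (inner ℝ x (w - act g w) / (2 * Mm g w)) • (w - act g w)
  map_add' x y := by
    rw [inner_add_left, inner_add_left, add_div, add_div, add_smul, add_smul]
    abel
  map_smul' r x := by
    rw [real_inner_smul_left, real_inner_smul_left, mul_div_assoc, mul_div_assoc, mul_smul,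
      mul_smul, RingHom.id_apply]
    simp only [smul_sub]

lemma Pr_apply (g : G) (w x : E 5) : Pr g w x =
    x - (inner ℝ x (w + act g w) / (2 * Nn g w)) • (w + act g w) -
    (inner ℝ x (w - act g w) / (2 * Mm g w)) • (w - act g w) := rfl

section

variable {g : G} {w : E 5} (hN : 0 < Nn g w) (hM : 0 < Mm g w)

include hN hM

lemma Pr_orth (x : E 5) : inner ℝ (Pr g w x) w = 0 ∧ inner ℝ (Pr g w x) (act g w) = 0 := by
  have h1 : inner ℝ (Pr g w x) (w + act g w) = 0 := by
    rw [Pr_apply, inner_sub_left, inner_sub_left, real_inner_smul_left, real_inner_smul_left,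
      inner_pp, real_inner_comm (w - act g w) (w + act g w) |>.symm, real_inner_comm, inner_pm]
    field_simp
    ring
  have h2 : inner ℝ (Pr g w x) (w - act g w) = 0 := by
    rw [Pr_apply, inner_sub_left, inner_sub_left, real_inner_smul_left, real_inner_smul_left,
      inner_mm, inner_pm]
    field_simp
    ring
  rw [inner_add_right] at h1
  rw [inner_sub_right] at h2
  constructor <;> linarith

omit hN hM in
lemma Pr_of_orth {x : E 5} (h1 : inner ℝ x w = 0) (h2 : inner ℝ x (act g w) = 0) :
    Pr g w x = x := by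
  rw [Pr_apply, inner_add_right, inner_sub_right, h1, h2]
  simp

omit hN hM in
lemma Pr_symm (x y : E 5) : inner ℝ (Pr g w x) y = inner ℝ x (Pr g w y) := by
  simp only [Pr_apply, inner_sub_left, inner_sub_right, inner_add_left, inner_add_right,
    real_inner_smul_left, real_inner_smul_right]
  rw [real_inner_comm y w, real_inner_comm y (act g w)]
  ring

omit hM in
lemma base_inner : inner ℝ ((Nn g w)⁻¹ • (w + act g w)) w = 1 ∧
    inner ℝ ((Nn g w)⁻¹ • (w + act g w)) (act g w) = 1 := by
  have e1 : inner ℝ (w + act g w) w = Nn g w := by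
    rw [inner_add_left, real_inner_self_eq_norm_sq, real_inner_comm, Nn]
  have e2 : inner ℝ (w + act g w) (act g w) = Nn g w := by
    rw [inner_add_left, real_inner_self_eq_norm_sq, norm_act, Nn]
    ring
  rw [real_inner_smul_left, real_inner_smul_left, e1, e2]
  exact ⟨inv_mul_cancel₀ hN.ne', inv_mul_cancel₀ hN.ne'⟩

/-- The linear map `y ↦ (⟨w,y⟩, ⟨g w, y⟩)`. -/
noncomputable def Tw (g : G) (w : E 5) : E 5 →ₗ[ℝ] ℝ × ℝ :=
  (innerₛₗ ℝ w).prod (innerₛₗ ℝ (act g w))

omit hN hM in
lemma mem_ker_Tw {y : E 5} : y ∈ LinearMap.ker (Tw g w) ↔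
    inner ℝ y w = 0 ∧ inner ℝ y (act g w) = 0 := by
  rw [LinearMap.mem_ker, real_inner_comm w y, real_inner_comm (act g w) y]
  change (inner ℝ w y, inner ℝ (act g w) y) = 0 ↔ _
  rw [Prod.mk_eq_zero]

lemma finrank_ker_Tw : finrank ℝ (LinearMap.ker (Tw g w)) = 3 := by
  have hsurj : Function.Surjective (Tw g w) := by
    rintro ⟨a, b⟩
    refine ⟨((a + b) / (2 * Nn g w)) • (w + act g w) + ((a - b) / (2 * Mm g w)) •
      (w - act g w), ?_⟩
    have e1 : inner ℝ w (w + act g w) = Nn g w := by
      rw [inner_add_right, real_inner_self_eq_norm_sq, Nn]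
    have e2 : inner ℝ (act g w) (w + act g w) = Nn g w := by
      rw [inner_add_right, real_inner_self_eq_norm_sq, norm_act, real_inner_comm, Nn]
      ring
    have e3 : inner ℝ w (w - act g w) = Mm g w := by
      rw [inner_sub_right, real_inner_self_eq_norm_sq, Mm]
    have e4 : inner ℝ (act g w) (w - act g w) = -Mm g w := by
      rw [inner_sub_right, real_inner_self_eq_norm_sq, norm_act, real_inner_comm, Mm]
      ring
    change (inner ℝ w _, inner ℝ (act g w) _) = (a, b)
    rw [inner_add_right, inner_add_right, real_inner_smul_right, real_inner_smul_right,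
      real_inner_smul_right, real_inner_smul_right, e1, e2, e3, e4]
    refine Prod.ext ?_ ?_
    · change (a + b) / (2 * Nn g w) * Nn g w + (a - b) / (2 * Mm g w) * Mm g w = a
      field_simp
      ring
    · change (a + b) / (2 * Nn g w) * Nn g w + (a - b) / (2 * Mm g w) * -Mm g w = b
      field_simp
      ring
  have h1 := (Tw g w).finrank_range_add_finrank_ker
  rw [LinearMap.range_eq_top.2 hsurj, finrank_top, finrank_prod, finrank_self,
    finrank_euclideanSpace, Fintype.card_fin] at h1
  omega

/-- Parametrisation of the solutions of the two equations. -/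
lemma exists_param (j : E 3 →ₗ[ℝ] E 5) (hgd : gd (Pr g w ∘ₗ j) ≠ 0) (y : E 5)
    (h1 : inner ℝ y w = 1) (h2 : inner ℝ y (act g w) = 1) :
    ∃ v, (Nn g w)⁻¹ • (w + act g w) + (Pr g w ∘ₗ j) v = y := by
  have hinj : Function.Injective (Pr g w ∘ₗ j) := by
    have h3 : (Pr g w ∘ₗ j).normDet ≠ 0 := by
      intro h
      rw [← normDet_sq_eq_gd, h] at hgd
      norm_num at hgd
    exact ((Pr g w ∘ₗ j).normDet_ne_zero_tfae.out 0 4).1 h3
  have hle : LinearMap.range (Pr g w ∘ₗ j) ≤ LinearMap.ker (Tw g w) := by
    rintro _ ⟨v, rfl⟩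
    rw [mem_ker_Tw]
    exact Pr_orth hN hM (j v)
  have heq : LinearMap.range (Pr g w ∘ₗ j) = LinearMap.ker (Tw g w) := by
    refine Submodule.eq_of_le_of_finrank_eq hle ?_
    rw [finrank_ker_Tw hN hM, LinearMap.finrank_range_of_inj hinj, finrank_euclideanSpace,
      Fintype.card_fin]
  have hb := base_inner (g := g) (w := w) hN
  have hy : y - (Nn g w)⁻¹ • (w + act g w) ∈ LinearMap.ker (Tw g w) := by
    rw [mem_ker_Tw, inner_sub_left, inner_sub_left, h1, h2, hb.1, hb.2]
    simp
  rw [← heq] at hy
  obtain ⟨v, hv⟩ := hy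
  refine ⟨v, ?_⟩
  rw [hv]
  abel

end

open Classical in
/-- The normals of the parameter polyhedron. -/
noncomputable def nor (g : G) (j : E 3 →ₗ[ℝ] E 5) (w : E 5) (h : G) : E 3 :=
  if h = oneG ∨ h = g then 0
  else (1 - inner ℝ ((Nn g w)⁻¹ • (w + act g w)) (act h w))⁻¹ •
    (LinearMap.adjoint j) (Pr g w (act h w))

/-- The edge condition: `w + g w` is maximal exactly at `w` and `g w`. -/
def EC (g : G) (w : E 5) : Prop :=
  ∀ h, h ≠ oneG → h ≠ g → inner ℝ (w + act g w) (act h w) < inner ℝ (w + act g w) w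

lemma EC.isEdge {g : G} {w : E 5} (hM : 0 < Mm g w) (he : EC g w) :
    IsEdge (orb Gam w) w (act g w) := by
  have e1 : inner ℝ (w + act g w) w = Nn g w := by
    rw [inner_add_left, real_inner_self_eq_norm_sq, real_inner_comm, Nn]
  have e2 : inner ℝ (w + act g w) (act g w) = Nn g w := by
    rw [inner_add_left, real_inner_self_eq_norm_sq, norm_act, Nn]
    ring
  have h1 : fam w oneG = w := act_one w
  refine isEdge_of_amax (y := w + act g w) ?_ ?_
  · intro h
    rw [Mm, ← h, real_inner_self_eq_norm_sq] at hM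
    linarith
  · have hall : ∀ i, inner ℝ (w + act g w) (fam w i) ≤ Nn g w := by
      intro i
      by_cases i1 : i = oneG
      · rw [i1, h1, e1]
      · by_cases i2 : i = g
        · rw [i2]; exact e2.le
        · rw [← e1]; exact (he i i1 i2).le
    ext i
    constructor
    · intro hi
      by_contra hcon
      have i1 : i ≠ oneG := fun h => hcon (by rw [h]; exact Or.inl rfl)
      have i2 : i ≠ g := fun h => hcon (by rw [h]; exact Or.inr rfl)
      have i3 := hi oneG
      rw [h1] at i3
      exact absurd (he i i1 i2) (not_lt.2 i3)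
    · intro hi j
      refine (hall j).trans ?_
      rcases hi with rfl | hi
      · rw [h1, e1]
      · rw [mem_singleton_iff] at hi
        rw [hi]; exact e2.ge

/-- The formula for the weight near a good point. -/
lemma cw_formula {g : G} {w : E 5} (hN : 0 < Nn g w) (hM : 0 < Mm g w) (he : EC g w)
    (j : E 3 →ₗ[ℝ] E 5) (hgd : gd (Pr g w ∘ₗ j) ≠ 0) :
    cw w g = √(gd (Pr g w ∘ₗ j)) * (volume (Po (nor g j w))).toReal / √(ar w (act g w)) := by
  have hb := base_inner (g := g) (w := w) hN
  have hr : ridge (orb Gam w) w (act g w) =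
      (fun v => (Nn g w)⁻¹ • (w + act g w) + (Pr g w ∘ₗ j) v) '' Po (nor g j w) := by
    refine ridge_param ?_ (fun y => exists_param hN hM j hgd y)
    intro v
    obtain ⟨o1, o2⟩ := Pr_orth hN hM (j v)
    have q1 : inner ℝ ((Nn g w)⁻¹ • (w + act g w) + (Pr g w ∘ₗ j) v) w = 1 := by
      rw [inner_add_left, hb.1]
      change 1 + inner ℝ (Pr g w (j v)) w = 1
      rw [o1, add_zero]
    have q2 : inner ℝ ((Nn g w)⁻¹ • (w + act g w) + (Pr g w ∘ₗ j) v) (act g w) = 1 := by
      rw [inner_add_left, hb.2]
      change 1 + inner ℝ (Pr g w (j v)) (act g w) = 1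
      rw [o2, add_zero]
    refine ⟨q1, q2, ?_⟩
    have hfo : fam w oneG = w := act_one w
    have key : ∀ h, (inner ℝ ((Nn g w)⁻¹ • (w + act g w) + (Pr g w ∘ₗ j) v) (act h w) ≤ 1 ↔
        inner ℝ v (nor g j w h) ≤ 1) := by
      intro h
      by_cases h0 : h = oneG ∨ h = g
      · rw [nor, if_pos h0, inner_zero_right]
        rcases h0 with rfl | rfl
        · rw [act_one, q1]; simp
        · rw [q2]; simp
      · rw [nor, if_neg h0]
        push Not at h0
        have hpos : 0 < 1 - inner ℝ ((Nn g w)⁻¹ • (w + act g w)) (act h w) := by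
          have h1 := he h h0.1 h0.2
          have h2 : inner ℝ ((Nn g w)⁻¹ • (w + act g w)) (act h w) <
              inner ℝ ((Nn g w)⁻¹ • (w + act g w)) w := by
            rw [real_inner_smul_left, real_inner_smul_left]
            exact mul_lt_mul_of_pos_left h1 (inv_pos.2 hN)
          rw [hb.1] at h2
          linarith
        rw [real_inner_smul_right, LinearMap.adjoint_inner_right, ← Pr_symm, inv_mul_le_iff₀ hpos,
          mul_one, inner_add_left]
        change _ + inner ℝ (Pr g w (j v)) (act h w) ≤ 1 ↔ _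
        constructor <;> intro h <;> linarith
    constructor
    · intro hm h
      rw [← key]
      have := hm h
      rw [hfo, q1] at this
      exact this
    · intro hm h
      rw [hfo, q1]
      exact (key h).2 (hm h)
  rw [cw, weight, if_pos (he.isEdge hM)]
  change (Measure.euclideanHausdorffMeasure (5 - 2) (ridge (orb Gam w) w (act g w))).toReal / _ = _
  rw [hr, measure_param, norm_mul_sin, ENNReal.toReal_mul,
    ENNReal.toReal_ofReal (LinearMap.normDet_nonneg _), ← normDet_sq_eq_gd,
    Real.sqrt_sq (LinearMap.normDet_nonneg _)]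

end OrbPoly
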