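import Pool.Agent.OrbPoly.WCont

set_option autoImplicit false

open Set MeasureTheory Filter Topology Module

namespace OrbPoly

lemma continuous_Nn (g : G) : Continuous (Nn g) := by
  have h := continuous_act g
  unfold Nn
  exact (continuous_norm.pow 2).add (continuous_id.inner h)

lemma continuous_Mm (g : G) : Continuous (Mm g) := by
  have h := continuous_act g
  unfold Mm
  exact (continuous_norm.pow 2).sub (continuous_id.inner h)

section

variable {g : G} {w1 : E 5} (hN : 0 < Nn g w1) (hM : 0 < Mm g w1)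

include hN hM

lemma cont_Pr {x : E 5 → E 5} (hx : ContinuousAt x w1) :
    ContinuousAt (fun w => Pr g w (x w)) w1 := by
  have ha : ContinuousAt (act g) w1 := (continuous_act g).continuousAt
  have hi : ContinuousAt (fun w : E 5 => w) w1 := continuousAt_id
  have hp : ContinuousAt (fun w => w + act g w) w1 := hi.add ha
  have hm : ContinuousAt (fun w => w - act g w) w1 := hi.sub ha
  have hNc : ContinuousAt (fun w => 2 * Nn g w) w1 :=
    continuousAt_const.mul (continuous_Nn g).continuousAt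
  have hMc : ContinuousAt (fun w => 2 * Mm g w) w1 :=
    continuousAt_const.mul (continuous_Mm g).continuousAt
  simp only [Pr_apply]
  refine (hx.sub (((hx.inner hp).div hNc ?_).smul hp)).sub (((hx.inner hm).div hMc ?_).smul hm)
  · exact (mul_pos two_pos hN).ne'
  · exact (mul_pos two_pos hM).ne'

lemma cont_gd (j : E 3 →ₗ[ℝ] E 5) : ContinuousAt (fun w => gd (Pr g w ∘ₗ j)) w1 := by
  have hc : ∀ i : Fin 3, ContinuousAt
      (fun w => (Pr g w ∘ₗ j) (EuclideanSpace.basisFun (Fin 3) ℝ i)) w1 := by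
    intro i
    exact cont_Pr hN hM (x := fun _ => j (EuclideanSpace.basisFun (Fin 3) ℝ i)) continuousAt_const
  have hij : ∀ i k : Fin 3, ContinuousAt
      (fun w => (Matrix.gram ℝ (fun i => (Pr g w ∘ₗ j) (EuclideanSpace.basisFun (Fin 3) ℝ i))) i k)
      w1 := by
    intro i k
    exact (hc i).inner (hc k)
  unfold gd
  simp only [Matrix.det_fin_three]
  have m := fun i k : Fin 3 => hij i k
  exact ((((((((m 0 0).mul (m 1 1)).mul (m 2 2)).sub (((m 0 0).mul (m 1 2)).mul (m 2 1))).sub
    (((m 0 1).mul (m 1 0)).mul (m 2 2))).add (((m 0 1).mul (m 1 2)).mul (m 2 0))).add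
    (((m 0 2).mul (m 1 0)).mul (m 2 1))).sub (((m 0 2).mul (m 1 1)).mul (m 2 0)))

lemma exists_j : ∃ j : E 3 →ₗᵢ[ℝ] E 5, ∀ v, inner ℝ (j v) w1 = 0 ∧
    inner ℝ (j v) (act g w1) = 0 := by
  have h3 := finrank_ker_Tw hN hM
  let b : OrthonormalBasis (Fin 3) ℝ (LinearMap.ker (Tw g w1)) :=
    (stdOrthonormalBasis ℝ (LinearMap.ker (Tw g w1))).reindex (finCongr h3)
  refine ⟨(LinearMap.ker (Tw g w1)).subtypeₗᵢ.comp b.repr.symm.toLinearIsometry, fun v => ?_⟩
  rw [← mem_ker_Tw]
  exact (b.repr.symm v).2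

lemma cont_nor (he : EC g w1) (j : E 3 →ₗ[ℝ] E 5) : ContinuousAt (nor g j) w1 := by
  rw [continuousAt_pi]
  intro h
  by_cases h0 : h = oneG ∨ h = g
  · have : (fun w => nor g j w h) = fun _ => 0 := by
      funext w
      rw [nor, if_pos h0]
    rw [this]
    exact continuousAt_const
  · have : (fun w => nor g j w h) = fun w =>
        (1 - inner ℝ ((Nn g w)⁻¹ • (w + act g w)) (act h w))⁻¹ •
          (LinearMap.adjoint j) (Pr g w (act h w)) := by
      funext w
      rw [nor, if_neg h0]
    rw [this]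
    have ha : ContinuousAt (act g) w1 := (continuous_act g).continuousAt
    have hah : ContinuousAt (act h) w1 := (continuous_act h).continuousAt
    have hi : ContinuousAt (fun w : E 5 => w) w1 := continuousAt_id
    have hp : ContinuousAt (fun w => w + act g w) w1 := hi.add ha
    have hNi : ContinuousAt (fun w => (Nn g w)⁻¹) w1 :=
      (continuous_Nn g).continuousAt.inv₀ hN.ne'
    have hb : ContinuousAt (fun w => 1 - inner ℝ ((Nn g w)⁻¹ • (w + act g w)) (act h w)) w1 :=
      continuousAt_const.sub ((hNi.smul hp).inner hah)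
    push Not at h0
    have hpos : 0 < 1 - inner ℝ ((Nn g w1)⁻¹ • (w1 + act g w1)) (act h w1) := by
      have h1 := he h h0.1 h0.2
      have h2 : inner ℝ ((Nn g w1)⁻¹ • (w1 + act g w1)) (act h w1) <
          inner ℝ ((Nn g w1)⁻¹ • (w1 + act g w1)) w1 := by
        rw [real_inner_smul_left, real_inner_smul_left]
        exact mul_lt_mul_of_pos_left h1 (inv_pos.2 hN)
      rw [(base_inner hN).1] at h2
      linarith
    refine (hb.inv₀ hpos.ne').smul ?_
    have hj : Continuous (LinearMap.adjoint j) := (LinearMap.adjoint j).continuous_of_finiteDimensional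
    exact hj.continuousAt.comp (cont_Pr hN hM hah)

/-- The weights are continuous at a good point. -/
theorem cw_tendsto (he : EC g w1) {κ : ℝ} (hκ : 0 < κ)
    (hco : ∀ y : E 5, ∃ h, κ * ‖y‖ ≤ inner ℝ y (act h w1)) :
    Tendsto (fun w => cw w g) (𝓝 w1) (𝓝 (cw w1 g)) := by
  obtain ⟨j, hj⟩ := exists_j hN hM
  have hPj : Pr g w1 ∘ₗ j.toLinearMap = j.toLinearMap := by
    ext1 v
    exact Pr_of_orth (hj v).1 (hj v).2
  have hgd1 : gd (Pr g w1 ∘ₗ j.toLinearMap) = 1 := by
    rw [hPj, ← normDet_sq_eq_gd, j.normDet_eq_one]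
    norm_num
  have cg := cont_gd hN hM j.toLinearMap
  -- eventual validity of the formula
  have ev1 : ∀ᶠ w in 𝓝 w1, 0 < Nn g w := (continuous_Nn g).continuousAt.eventually (lt_mem_nhds hN)
  have ev2 : ∀ᶠ w in 𝓝 w1, 0 < Mm g w := (continuous_Mm g).continuousAt.eventually (lt_mem_nhds hM)
  have ev3 : ∀ᶠ w in 𝓝 w1, gd (Pr g w ∘ₗ j.toLinearMap) ≠ 0 := by
    have : ∀ᶠ w in 𝓝 w1, 0 < gd (Pr g w ∘ₗ j.toLinearMap) :=
      cg.eventually (lt_mem_nhds (by change 0 < gd (Pr g w1 ∘ₗ j.toLinearMap); rw [hgd1]; exact one_pos))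
    exact this.mono fun w hw => hw.ne'
  have ev4 : ∀ᶠ w in 𝓝 w1, EC g w := by
    unfold EC
    refine eventually_all.2 fun h => ?_
    by_cases h1 : h = oneG
    · exact Eventually.of_forall fun w q => absurd h1 q
    by_cases h2 : h = g
    · exact Eventually.of_forall fun w _ q => absurd h2 q
    have ha : Continuous (act g) := continuous_act g
    have hah : Continuous (act h) := continuous_act h
    have c1 : Continuous fun w => inner ℝ (w + act g w) (act h w) :=
      (continuous_id.add ha).inner hah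
    have c2 : Continuous fun w => inner ℝ (w + act g w) w :=
      (continuous_id.add ha).inner continuous_id
    have := c1.continuousAt.eventually_lt c2.continuousAt (he h h1 h2)
    exact this.mono fun w hw _ _ => hw
  have hform : ∀ᶠ w in 𝓝 w1, cw w g = √(gd (Pr g w ∘ₗ j.toLinearMap)) *
      (volume (Po (nor g j.toLinearMap w))).toReal / √(ar w (act g w)) := by
    filter_upwards [ev1, ev2, ev3, ev4] with w q1 q2 q3 q4
    exact cw_formula q1 q2 q4 j.toLinearMap q3
  -- coercivity
  have hco3 : ∀ v : E 3, ∃ h, κ / (1 + ‖(Nn g w1)⁻¹ • (w1 + act g w1)‖ * ‖w1‖) * ‖v‖ ≤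
      inner ℝ v (nor g j.toLinearMap w1 h) := by
    intro v
    by_cases hv : v = 0
    · refine ⟨oneG, ?_⟩
      rw [hv, norm_zero, mul_zero, inner_zero_left]
    · obtain ⟨h, hh⟩ := hco (j v)
      have hvpos : 0 < ‖v‖ := norm_pos_iff.2 hv
      rw [j.norm_map] at hh
      have hip : 0 < inner ℝ (j v) (act h w1) := lt_of_lt_of_le (mul_pos hκ hvpos) hh
      have h1 : h ≠ oneG := by
        rintro rfl
        rw [act_one, (hj v).1] at hip
        exact lt_irrefl _ hip
      have h2 : h ≠ g := by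
        rintro rfl
        rw [(hj v).2] at hip
        exact lt_irrefl _ hip
      refine ⟨h, ?_⟩
      have h3 := he h h1 h2
      have hlt : inner ℝ ((Nn g w1)⁻¹ • (w1 + act g w1)) (act h w1) < 1 := by
        rw [← (base_inner (g := g) (w := w1) hN).1, real_inner_smul_left, real_inner_smul_left]
        exact mul_lt_mul_of_pos_left h3 (inv_pos.2 hN)
      have hub : 1 - inner ℝ ((Nn g w1)⁻¹ • (w1 + act g w1)) (act h w1) ≤
          1 + ‖(Nn g w1)⁻¹ • (w1 + act g w1)‖ * ‖w1‖ := by
        have h4 := abs_real_inner_le_norm ((Nn g w1)⁻¹ • (w1 + act g w1)) (act h w1)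
        rw [norm_act] at h4
        have h5 := neg_abs_le (inner ℝ ((Nn g w1)⁻¹ • (w1 + act g w1)) (act h w1))
        linarith
      rw [nor, if_neg (by tauto), real_inner_smul_right, LinearMap.adjoint_inner_right, ← Pr_symm]
      have h6 : Pr g w1 (j.toLinearMap v) = j v := Pr_of_orth (hj v).1 (hj v).2
      rw [h6, div_mul_eq_mul_div, div_le_iff₀ (by positivity)]
      have h7 : 0 < 1 - inner ℝ ((Nn g w1)⁻¹ • (w1 + act g w1)) (act h w1) := by linarith
      set x := 1 - inner ℝ ((Nn g w1)⁻¹ • (w1 + act g w1)) (act h w1) with hx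
      set B := 1 + ‖(Nn g w1)⁻¹ • (w1 + act g w1)‖ * ‖w1‖ with hB
      have h8 : inner ℝ (j v) (act h w1) * 1 ≤ inner ℝ (j v) (act h w1) * (x⁻¹ * B) := by
        refine mul_le_mul_of_nonneg_left ?_ hip.le
        rw [← inv_mul_cancel₀ h7.ne']
        exact mul_le_mul_of_nonneg_left hub (inv_pos.2 h7).le
      calc κ * ‖v‖ ≤ inner ℝ (j v) (act h w1) * 1 := by rw [mul_one]; exact hh
        _ ≤ _ := h8
        _ = _ := by ring
  have hκ' : 0 < κ / (1 + ‖(Nn g w1)⁻¹ • (w1 + act g w1)‖ * ‖w1‖) := by positivity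
  have hvol : ContinuousAt (fun w => (volume (Po (nor g j.toLinearMap w))).toReal) w1 := by
    have h1 := Po_tendsto hκ' hco3
    exact h1.comp (cont_nor hN hM he j.toLinearMap)
  have har1 : 0 < ar w1 (act g w1) := by rw [ar_eq]; exact mul_pos hN hM
  have har : ContinuousAt (fun w => ar w (act g w)) w1 := by
    have : (fun w => ar w (act g w)) = fun w => Nn g w * Mm g w := by
      funext w; exact ar_eq g w
    rw [this]
    exact ((continuous_Nn g).mul (continuous_Mm g)).continuousAt
  have hrhs : ContinuousAt (fun w => √(gd (Pr g w ∘ₗ j.toLinearMap)) *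
      (volume (Po (nor g j.toLinearMap w))).toReal / √(ar w (act g w))) w1 :=
    ((cg.sqrt).mul hvol).div har.sqrt (Real.sqrt_pos.2 har1).ne'
  have h1 : (fun w => cw w g) =ᶠ[𝓝 w1] fun w => √(gd (Pr g w ∘ₗ j.toLinearMap)) *
      (volume (Po (nor g j.toLinearMap w))).toReal / √(ar w (act g w)) := hform
  exact (hrhs.congr h1.symm)

end

end OrbPoly
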