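import Pool.Agent.OrbPoly.Vol

set_option autoImplicit false

open Set MeasureTheory Module

namespace OrbPoly

/-- Volume of an affine image of a set of parameters. -/
lemma measure_param (A : E 3 →ₗ[ℝ] E 5) (p : E 5) (D : Set (E 3)) :
    Measure.euclideanHausdorffMeasure (5 - 2) ((fun v => p + A v) '' D) =
      ENNReal.ofReal A.normDet * volume D := by
  have h1 : (fun v => p + A v) '' D = (fun x => p + x) '' (A '' D) := by
    rw [image_image]
  rw [h1, (isometry_add_left p).euclideanHausdorffMeasure_image]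
  have h2 := A.euclideanHausdorffMeasure_image_eq_normDet_mul_volume D
  rw [finrank_euclideanSpace, Fintype.card_fin] at h2
  exact h2

/-- The Gram determinant of a parametrisation. -/
noncomputable def gd (A : E 3 →ₗ[ℝ] E 5) : ℝ :=
  (Matrix.gram ℝ (fun i => A (EuclideanSpace.basisFun (Fin 3) ℝ i))).det

lemma normDet_sq_eq_gd (A : E 3 →ₗ[ℝ] E 5) : A.normDet ^ 2 = gd A := by
  have := A.normDet_sq_eq_det_gram (EuclideanSpace.basisFun (Fin 3) ℝ)
  simpa [gd] using this

/-- The squared area of the parallelogram spanned by two vectors. -/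
noncomputable def ar {k : ℕ} (s t : E k) : ℝ := ‖s‖ ^ 2 * ‖t‖ ^ 2 - inner ℝ s t ^ 2

lemma norm_mul_sin {k : ℕ} (s t : E k) :
    ‖s‖ * ‖t‖ * Real.sin (InnerProductGeometry.angle s t) = √(ar s t) := by
  have h := InnerProductGeometry.sin_angle_mul_norm_mul_norm s t
  rw [mul_comm, h, ar, real_inner_self_eq_norm_sq, real_inner_self_eq_norm_sq]
  congr 1
  ring

lemma ratio_eq {V : Set (E 5)} {s t : E 5} {A : E 3 →ₗ[ℝ] E 5} {p : E 5} {D : Set (E 3)} {l : ℝ}
    (hr : ridge V s t = (fun v => p + A v) '' D) (hl : 0 < l) (har : 0 < ar s t)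
    (hdet : gd A = l ^ 2 * ar s t) :
    (Measure.euclideanHausdorffMeasure (5 - 2) (ridge V s t)).toReal /
      (‖s‖ * ‖t‖ * Real.sin (InnerProductGeometry.angle s t)) = l * (volume D).toReal := by
  rw [hr, measure_param, norm_mul_sin, ENNReal.toReal_mul, ENNReal.toReal_ofReal A.normDet_nonneg]
  have h1 : A.normDet = l * √(ar s t) := by
    have h2 : A.normDet ^ 2 = (l * √(ar s t)) ^ 2 := by
      rw [normDet_sq_eq_gd, hdet, mul_pow, Real.sq_sqrt har.le]
    exact (sq_eq_sq₀ A.normDet_nonneg (mul_nonneg hl.le (Real.sqrt_nonneg _))).1 h2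
  have h3 : √(ar s t) ≠ 0 := (Real.sqrt_pos.2 har).ne'
  rw [h1]
  field_simp

lemma weight_eq {V : Set (E 5)} {s t : E 5} {A : E 3 →ₗ[ℝ] E 5} {p : E 5} {D : Set (E 3)} {l : ℝ}
    (he : IsEdge V s t)
    (hr : ridge V s t = (fun v => p + A v) '' D) (hl : 0 < l) (har : 0 < ar s t)
    (hdet : gd A = l ^ 2 * ar s t) : weight V s t = l * (volume D).toReal := by
  rw [weight, if_pos he]
  exact ratio_eq hr hl har hdet

lemma weight_le {V : Set (E 5)} {s t : E 5} {A : E 3 →ₗ[ℝ] E 5} {p : E 5} {D : Set (E 3)} {l : ℝ}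
    (hr : ridge V s t = (fun v => p + A v) '' D) (hl : 0 < l) (har : 0 < ar s t)
    (hdet : gd A = l ^ 2 * ar s t) : weight V s t ≤ l * (volume D).toReal := by
  by_cases he : IsEdge V s t
  · exact (weight_eq he hr hl har hdet).le
  · rw [weight, if_neg he]
    exact mul_nonneg hl.le ENNReal.toReal_nonneg

lemma weight_nonneg {k : ℕ} (V : Set (E k)) (s t : E k) : 0 ≤ weight V s t := by
  rw [weight]
  split_ifs
  · refine div_nonneg ENNReal.toReal_nonneg ?_
    rw [norm_mul_sin]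
    exact Real.sqrt_nonneg _
  · exact le_rfl

lemma weight_self {k : ℕ} (V : Set (E k)) (s : E k) : weight V s s = 0 := by
  rw [weight, if_neg]
  rintro ⟨h, _⟩
  exact h rfl

/-! ### Invariance under isometries -/

section inv

variable {k : ℕ} (ι : E k ≃ₗᵢ[ℝ] E k) (V : Set (E k))

lemma convexHull_iso : convexHull ℝ (ι '' V) = ι '' convexHull ℝ V :=
  (ι.toLinearEquiv.toLinearMap.image_convexHull V).symm

lemma segment_iso (s t : E k) : segment ℝ (ι s) (ι t) = ι '' segment ℝ s t :=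
  (image_segment ℝ ι.toLinearEquiv.toLinearMap.toAffineMap s t).symm

lemma isExposed_iso {A B : Set (E k)} (h : IsExposed ℝ A B) :
    IsExposed ℝ (ι '' A) (ι '' B) := by
  rintro ⟨_, ⟨b, hb, rfl⟩⟩
  obtain ⟨l, hl⟩ := h ⟨b, hb⟩
  refine ⟨l.comp (ι.symm.toContinuousLinearEquiv : E k →L[ℝ] E k), ?_⟩
  ext x
  constructor
  · rintro ⟨y, hy, rfl⟩
    rw [hl] at hy
    refine ⟨⟨y, hy.1, rfl⟩, ?_⟩
    rintro _ ⟨z, hz, rfl⟩
    have := hy.2 z hz
    simpa using this
  · rintro ⟨⟨y, hy, rfl⟩, h2⟩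
    refine ⟨y, ?_, rfl⟩
    rw [hl]
    refine ⟨hy, fun z hz => ?_⟩
    have := h2 (ι z) ⟨z, hz, rfl⟩
    simpa using this

lemma isEdge_iso_of {s t : E k} (h : IsEdge V s t) : IsEdge (ι '' V) (ι s) (ι t) := by
  refine ⟨fun hh => h.1 (ι.injective hh), ?_⟩
  rw [convexHull_iso, segment_iso]
  exact isExposed_iso ι h.2

lemma isEdge_iso {s t : E k} : IsEdge (ι '' V) (ι s) (ι t) ↔ IsEdge V s t := by
  constructor
  · intro h
    have := isEdge_iso_of ι.symm (ι '' V) h
    simpa [image_image] using this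
  · exact isEdge_iso_of ι V

lemma polarBody_iso (A : Set (E k)) : polarBody (ι '' A) = ι '' polarBody A := by
  ext x
  constructor
  · intro h
    refine ⟨ι.symm x, fun y hy => ?_, by simp⟩
    have h1 := h (ι y) ⟨y, hy, rfl⟩
    have h2 : inner ℝ x (ι y) = inner ℝ (ι.symm x) y := by
      have := ι.inner_map_map (ι.symm x) y
      rw [ι.apply_symm_apply] at this
      exact this
    rwa [h2] at h1
  · rintro ⟨y, hy, rfl⟩ _ ⟨z, hz, rfl⟩
    rw [ι.inner_map_map]
    exact hy z hz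

lemma ridge_iso (s t : E k) : ridge (ι '' V) (ι s) (ι t) = ι '' ridge V s t := by
  rw [ridge, convexHull_iso, polarBody_iso]
  ext x
  constructor
  · rintro ⟨⟨y, hy, rfl⟩, h1, h2⟩
    rw [ι.inner_map_map] at h1 h2
    exact ⟨y, ⟨hy, h1, h2⟩, rfl⟩
  · rintro ⟨y, ⟨hy, h1, h2⟩, rfl⟩
    refine ⟨⟨y, hy, rfl⟩, ?_, ?_⟩
    · rw [ι.inner_map_map]; exact h1
    · rw [ι.inner_map_map]; exact h2

lemma weight_iso (s t : E k) : weight (ι '' V) (ι s) (ι t) = weight V s t := by
  classical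
  by_cases h : IsEdge V s t
  · rw [weight, weight, if_pos h, if_pos ((isEdge_iso ι V).2 h), ridge_iso,
      ι.isometry.euclideanHausdorffMeasure_image, norm_mul_sin, norm_mul_sin, ar, ar,
      ι.norm_map, ι.norm_map, ι.inner_map_map]
  · rw [weight, weight, if_neg h, if_neg (fun h' => h ((isEdge_iso ι V).1 h'))]

end inv

end OrbPoly
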